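import Pool.Agent.Helper20.RC.Frame

/-!
# Project RC, track B, link 2: Fourier form of the bilinear term with explicit alignments

`PP f φ = (i/2) ∫_{φ-π}^{φ} f = ∑_{n odd} (fc f n / n) ee (n φ)` for antiperiodic bounded `f` (absolutely convergent).
-/

open MeasureTheory Set Filter Metric

namespace Pool.Agent.Helper20.RC

open Helper49.LT Helper87.RC Helper49.RC
open Helper56.RC (fc)

/-- the primitive -/
noncomputable def PP (f : ℝ → ℂ) (φ : ℝ) : ℂ := Complex.I / 2 * ∫ t in (φ - Real.pi)..φ, f t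

/-- coefficients of the reflected window -/
theorem fc_refl (φ : ℝ) (n : ℤ) :
    fc (fun t => (starRingEnd ℂ) (wk (φ - t))) n = (starRingEnd ℂ) (ee ((n : ℝ) * φ) * fc wk n) := by
  have hp := Real.pi_pos
  rw [fc_eq, fc_eq]
  have h1 : ∫ t in (0 : ℝ)..(2 * Real.pi), (starRingEnd ℂ) (wk (φ - t)) * ee (-(n : ℝ) * t) =
      ∫ u in (φ - 2 * Real.pi)..φ, (starRingEnd ℂ) (wk u) * ee (-(n : ℝ) * (φ - u)) := by
    have h2 := intervalIntegral.integral_comp_sub_left (a := 0) (b := 2 * Real.pi)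
      (fun u => (starRingEnd ℂ) (wk u) * ee (-(n : ℝ) * (φ - u))) φ
    rw [sub_zero] at h2
    rw [← h2]
    refine intervalIntegral.integral_congr fun t _ => ?_
    show (starRingEnd ℂ) (wk (φ - t)) * ee (-(n : ℝ) * t) =
      (starRingEnd ℂ) (wk (φ - t)) * ee (-(n : ℝ) * (φ - (φ - t)))
    rw [sub_sub_cancel]
  have hper : ∀ u, (starRingEnd ℂ) (wk (u + 2 * Real.pi)) * ee (-(n : ℝ) * (φ - (u + 2 * Real.pi))) =
      (starRingEnd ℂ) (wk u) * ee (-(n : ℝ) * (φ - u)) := by
    intro u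
    rw [wk_per]
    congr 1
    have e : -(n : ℝ) * (φ - (u + 2 * Real.pi)) = -(n : ℝ) * (φ - u) + (n : ℝ) * (2 * Real.pi) := by ring
    rw [e, ee_add, ee_int_mul n (2 * Real.pi), ee_two_pi, one_zpow, mul_one]
  have h3 := shiftC2 (g := fun u => (starRingEnd ℂ) (wk u) * ee (-(n : ℝ) * (φ - u))) hper (φ - 2 * Real.pi)
  rw [sub_add_cancel] at h3
  rw [h1, h3]
  have h4 : ∫ u in (0 : ℝ)..(2 * Real.pi), (starRingEnd ℂ) (wk u) * ee (-(n : ℝ) * (φ - u)) =
      ∫ u in (0 : ℝ)..(2 * Real.pi), (starRingEnd ℂ) (ee ((n : ℝ) * φ)) *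
        (starRingEnd ℂ) (wk u * ee (-(n : ℝ) * u)) := by
    refine intervalIntegral.integral_congr fun u _ => ?_
    show (starRingEnd ℂ) (wk u) * ee (-(n : ℝ) * (φ - u)) = _
    have e : -(n : ℝ) * (φ - u) = -((n : ℝ) * φ) + -(-(n : ℝ) * u) := by ring
    rw [e, ee_add, ee_neg ((n : ℝ) * φ), ee_neg (-(n : ℝ) * u), map_mul]
    ring
  rw [h4, intervalIntegral.integral_const_mul]
  have h5 : ∫ u in (0 : ℝ)..(2 * Real.pi), (starRingEnd ℂ) (wk u * ee (-(n : ℝ) * u)) =
      (starRingEnd ℂ) (∫ u in (0 : ℝ)..(2 * Real.pi), wk u * ee (-(n : ℝ) * u)) := by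
    rw [intervalIntegral.integral_of_le (by positivity), intervalIntegral.integral_of_le (by positivity)]
    exact integral_conj
  rw [h5]
  simp only [map_mul, map_div₀, map_one, map_ofNat, Complex.conj_ofReal]
  ring

/-- pointwise Fourier series of the primitive -/
theorem PP_hasSum {f : ℝ → ℂ} {C : ℝ} (hf : BM f C) (ha : ∀ t, f (t + Real.pi) = -f t) (φ : ℝ) :
    HasSum (fun n : ℤ => if Even n then (0 : ℂ) else fc f n / n * ee ((n : ℝ) * φ)) (PP f φ) := by
  have hp := Real.pi_pos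
  have hpc : (Real.pi : ℂ) ≠ 0 := by exact_mod_cast hp.ne'
  have hg : BM (fun t => (starRingEnd ℂ) (wk (φ - t))) 1 :=
    BM.conj (f := fun t => wk (φ - t))
      ⟨wk_bm.m.comp (measurable_const.sub measurable_id), fun t => wk_bm.b _⟩
  have h := (pars2 hf hg).mul_left (Complex.I * Real.pi)
  have e1 : Complex.I * (Real.pi : ℂ) * ((1 / (2 * Real.pi) : ℂ) *
      ∫ t in (0 : ℝ)..(2 * Real.pi), f t * (starRingEnd ℂ) ((starRingEnd ℂ) (wk (φ - t)))) = PP f φ := by
    have e2 : ∫ t in (0 : ℝ)..(2 * Real.pi), f t * (starRingEnd ℂ) ((starRingEnd ℂ) (wk (φ - t))) =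
        ∫ t in (φ - Real.pi)..φ, f t := by
      rw [← half_eq hf (per_of_anti ha) φ]
      refine intervalIntegral.integral_congr fun t _ => ?_
      show f t * (starRingEnd ℂ) ((starRingEnd ℂ) (wk (φ - t))) = wk (φ - t) * f t
      rw [Complex.conj_conj, mul_comm]
    rw [e2]
    unfold PP
    field_simp
  rw [e1] at h
  have eq : (fun n : ℤ => Complex.I * (Real.pi : ℂ) * (fc f n *
      (starRingEnd ℂ) (fc (fun t => (starRingEnd ℂ) (wk (φ - t))) n))) =
      fun n : ℤ => if Even n then (0 : ℂ) else fc f n / n * ee ((n : ℝ) * φ) := by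
   funext n
   rw [fc_refl, Complex.conj_conj]
   have h2 := congrArg (starRingEnd ℂ) (fc_wk n)
   rw [Complex.conj_conj] at h2
   rw [h2]
   by_cases hn : Even n
   · simp [hn, fc_anti hf ha n hn]
   · have h0 : n ≠ 0 := by rintro rfl; exact hn (by decide)
     have hnc : (n : ℂ) ≠ 0 := by exact_mod_cast h0
     rw [if_neg hn, if_neg h0, if_neg hn]
     have e3 : (starRingEnd ℂ) (Complex.I / (Real.pi * n) : ℂ) = -Complex.I / (Real.pi * n) := by
       have : (n : ℂ) = ((n : ℝ) : ℂ) := by push_cast; rfl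
       rw [map_div₀, Complex.conj_I, map_mul, Complex.conj_ofReal, this, Complex.conj_ofReal]
     rw [e3]
     field_simp
     ring_nf
     rw [Complex.I_sq]
     ring
  rw [eq] at h
  exact h

/-- the moments of a family with respect to an alignment -/
noncomputable def mom (g : ℝ → ℂ) (φ : ℝ → ℝ) (n : ℤ) : ℂ :=
  (1 / (2 * Real.pi) : ℂ) * ∫ θ in (0 : ℝ)..(2 * Real.pi), ee ((n : ℝ) * φ θ) * (starRingEnd ℂ) (g θ)

theorem PP_bm {f : ℝ → ℂ} {C : ℝ} (hf : BM f C) {φ : ℝ → ℝ} (hφ : Measurable φ) :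
    BM (fun θ => PP f (φ θ)) (‖Complex.I / 2‖ * (C * Real.pi)) := by
  unfold PP
  refine BM.cmul ⟨int_meas hf (hφ.sub_const _) hφ, fun θ => ?_⟩ _
  refine (int_bd hf _ _).trans (le_of_eq ?_)
  rw [sub_sub_cancel, abs_of_pos Real.pi_pos]

/-- `L2b` in terms of the primitive -/
theorem L2b_PP {α g1 g2 : ℝ → ℂ} {E D1 D2 : ℝ} (ha : BM α E) (h1 : BM g1 D1) (h2 : BM g2 D2) {φ1 φ2 : ℝ → ℝ}
    (m1 : Measurable φ1) (m2 : Measurable φ2) :
    L2b α g1 g2 φ1 φ2 =
      ((1 / (2 * Real.pi) : ℂ) * ∫ θ in (0 : ℝ)..(2 * Real.pi),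
        PP (fun t => ee t * α t) (φ1 θ) * (starRingEnd ℂ) (g1 θ)).re
      + ((1 / (2 * Real.pi) : ℂ) * ∫ θ in (0 : ℝ)..(2 * Real.pi),
        PP (fun t => ee t * α t) (φ2 θ) * (starRingEnd ℂ) (g2 θ)).re := by
  have hp := Real.pi_pos
  have he : BM (fun t => ee t) 1 := ⟨continuous_ee.measurable, fun t => by rw [norm_ee]⟩
  have hb : BM (fun t => ee t * α t) (1 * E) := BM.mul he ha
  have key : ∀ {g : ℝ → ℂ} {D : ℝ} {φ : ℝ → ℝ}, BM g D → Measurable φ →
      ((1 / (2 * Real.pi) : ℂ) * ∫ θ in (0 : ℝ)..(2 * Real.pi),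
        PP (fun t => ee t * α t) (φ θ) * (starRingEnd ℂ) (g θ)).re =
      1 / (4 * Real.pi) * ∫ θ in (0 : ℝ)..(2 * Real.pi),
        (g θ * (starRingEnd ℂ) (∫ t in (φ θ - Real.pi)..(φ θ), ee t * α t)).im := by
    intro g D φ hg hφ
    have hX := (PP_bm hb hφ).mul hg.conj
    have e0 : (1 / (2 * Real.pi) : ℂ) = ((1 / (2 * Real.pi) : ℝ) : ℂ) := by push_cast; rfl
    rw [e0, Complex.re_ofReal_mul]
    have e1 : (∫ θ in (0 : ℝ)..(2 * Real.pi),
        PP (fun t => ee t * α t) (φ θ) * (starRingEnd ℂ) (g θ)).re =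
        ∫ θ in (0 : ℝ)..(2 * Real.pi),
        (PP (fun t => ee t * α t) (φ θ) * (starRingEnd ℂ) (g θ)).re := by
      have := Complex.reCLM.intervalIntegral_comp_comm (hX.i 0 (2 * Real.pi))
      exact this.symm
    rw [e1]
    have e2 : ∀ θ, (PP (fun t => ee t * α t) (φ θ) * (starRingEnd ℂ) (g θ)).re =
        1 / 2 * (g θ * (starRingEnd ℂ) (∫ t in (φ θ - Real.pi)..(φ θ), ee t * α t)).im := by
      intro θ
      unfold PP
      set J := ∫ t in (φ θ - Real.pi)..(φ θ), ee t * α t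
      have e3 : Complex.I / 2 * J * (starRingEnd ℂ) (g θ) = ((1 / 2 : ℝ) : ℂ) *
          (Complex.I * (J * (starRingEnd ℂ) (g θ))) := by push_cast; ring
      rw [e3, Complex.re_ofReal_mul]
      congr 1
      simp only [Complex.mul_re, Complex.mul_im, Complex.I_re, Complex.I_im, Complex.conj_re, Complex.conj_im]
      ring
    simp_rw [e2]
    rw [intervalIntegral.integral_const_mul]
    field_simp
    ring
  rw [key h1 m1, key h2 m2]
  unfold L2b
  rw [← mul_add]
  congr 1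
  have E1 := bmE ha h1 m1
  have E2 := bmE ha h2 m2
  exact intervalIntegral.integral_add
    (intg_real (Complex.measurable_im.comp E1.m) (fun t => (Complex.abs_im_le_norm _).trans (E1.b t)) _ _)
    (intg_real (Complex.measurable_im.comp E2.m) (fun t => (Complex.abs_im_le_norm _).trans (E2.b t)) _ _)

theorem summ_coef {f : ℝ → ℂ} {C : ℝ} (hf : BM f C) :
    Summable fun n : ℤ => ‖(if Even n then (0 : ℂ) else fc f n / n)‖ := by
  have h1 := (pars hf).summable
  have h2 : Summable fun n : ℤ => 1 / ((n : ℝ)) ^ 2 := by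
    have := (Real.summable_one_div_int_pow (p := 2)).2 (by norm_num)
    simpa using this
  refine Summable.of_nonneg_of_le (fun n => norm_nonneg _) (fun n => ?_) (h1.add h2)
  split_ifs with he
  · rw [norm_zero]; positivity
  · have h0 : n ≠ 0 := by rintro rfl; exact he (by decide)
    have hn : (0 : ℝ) < |(n : ℝ)| := by
      rw [abs_pos]; exact_mod_cast h0
    rw [norm_div]
    have e : ‖(n : ℂ)‖ = |(n : ℝ)| := by
      rw [Complex.norm_intCast]
    rw [e, div_eq_mul_one_div]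
    have h3 : (1 / |(n : ℝ)|) ^ 2 = 1 / (n : ℝ) ^ 2 := by
      rw [div_pow, one_pow, sq_abs]
    nlinarith [sq_nonneg (‖fc f n‖ - 1 / |(n : ℝ)|), norm_nonneg (fc f n), h3,
      mul_nonneg (norm_nonneg (fc f n)) (div_nonneg zero_le_one hn.le)]

/-- the bilinear term of one family as an absolutely convergent series of moments -/
theorem PP_mom {f : ℝ → ℂ} {C : ℝ} (hf : BM f C) (ha : ∀ t, f (t + Real.pi) = -f t) {g : ℝ → ℂ} {D : ℝ}
    (hg : BM g D) {φ : ℝ → ℝ} (hφ : Measurable φ) :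
    HasSum (fun n : ℤ => (if Even n then (0 : ℂ) else fc f n / n) * mom g φ n)
      ((1 / (2 * Real.pi) : ℂ) * ∫ θ in (0 : ℝ)..(2 * Real.pi), PP f (φ θ) * (starRingEnd ℂ) (g θ)) := by
  have hp := Real.pi_pos
  unfold mom
  set c : ℤ → ℂ := fun n => if Even n then (0 : ℂ) else fc f n / n with hc
  set F : ℤ → ℝ → ℂ := fun n θ => c n * (ee ((n : ℝ) * φ θ) * (starRingEnd ℂ) (g θ)) with hF
  have hFb : ∀ n, BM (F n) (‖c n‖ * (1 * D)) := by
    intro n
    refine BM.cmul (f := fun θ => ee ((n : ℝ) * φ θ) * (starRingEnd ℂ) (g θ)) ?_ _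
    refine BM.mul ?_ hg.conj
    exact ⟨continuous_ee.measurable.comp (hφ.const_mul _), fun t => by rw [norm_ee]⟩
  have hsum : Summable fun n : ℤ => ‖c n‖ * (1 * D) := (summ_coef hf).mul_right _
  have h1 := intervalIntegral.hasSum_integral_of_dominated_convergence (μ := volume) (a := 0) (b := 2 * Real.pi)
    (F := F) (f := fun θ => PP f (φ θ) * (starRingEnd ℂ) (g θ)) (fun n _ => ‖c n‖ * (1 * D))
    (fun n => (hFb n).m.aestronglyMeasurable)
    (fun n => Filter.Eventually.of_forall fun t _ => (hFb n).b t)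
    (Filter.Eventually.of_forall fun t _ => hsum)
    (intervalIntegrable_const)
    (Filter.Eventually.of_forall fun t _ => by
      have h2 := (PP_hasSum hf ha (φ t)).mul_right ((starRingEnd ℂ) (g t))
      have e : (fun n : ℤ => (if Even n then (0 : ℂ) else fc f n / n * ee ((n : ℝ) * φ t)) *
          (starRingEnd ℂ) (g t)) = fun n => F n t := by
        funext n
        simp only [hF, hc]
        split_ifs <;> ring
      rw [e] at h2
      exact h2)
  have h3 := h1.mul_left (1 / (2 * Real.pi) : ℂ)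
  have e2 : (fun n : ℤ => (1 / (2 * Real.pi) : ℂ) * ∫ θ in (0 : ℝ)..(2 * Real.pi), F n θ) =
      fun n => c n * ((1 / (2 * Real.pi) : ℂ) * ∫ θ in (0 : ℝ)..(2 * Real.pi),
        ee ((n : ℝ) * φ θ) * (starRingEnd ℂ) (g θ)) := by
    funext n
    simp only [hF]
    rw [intervalIntegral.integral_const_mul]
    ring
  rw [e2] at h3
  exact h3

/-- LINK 2, BILINEAR TERM IN FOURIER FORM: frequencies `m = 2 j` of `α`, weights `1/(m+1)`, moments of the families with
respect to the explicit alignments. -/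
theorem L2b_hasSum {α g1 g2 : ℝ → ℂ} {E D1 D2 : ℝ} (ha : BM α E) (hpa : ∀ t, α (t + Real.pi) = α t)
    (h1 : BM g1 D1) (h2 : BM g2 D2) {φ1 φ2 : ℝ → ℝ} (m1 : Measurable φ1) (m2 : Measurable φ2) :
    HasSum (fun j : ℤ => (fc α (2 * j) / (2 * (j : ℂ) + 1) * (mom g1 φ1 (2 * j + 1) + mom g2 φ2 (2 * j + 1))).re)
      (L2b α g1 g2 φ1 φ2) := by
  have he : BM (fun t => ee t) 1 := ⟨continuous_ee.measurable, fun t => by rw [norm_ee]⟩
  have hb : BM (fun t => ee t * α t) (1 * E) := BM.mul he ha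
  have hanti : ∀ t, ee (t + Real.pi) * α (t + Real.pi) = -(ee t * α t) := by
    intro t
    rw [hpa, ee_add, ee_pi]; ring
  have s1 := PP_mom hb hanti h1 m1
  have s2 := PP_mom hb hanti h2 m2
  have hs := Complex.hasSum_re (s1.add s2)
  rw [Complex.add_re, ← L2b_PP ha h1 h2 m1 m2] at hs
  have hinj : Function.Injective (fun j : ℤ => 2 * j + 1) := by
    intro a b hab; simp only at hab; omega
  have hsup : ∀ n, n ∉ Set.range (fun j : ℤ => 2 * j + 1) →
      ((if Even n then (0 : ℂ) else fc (fun t => ee t * α t) n / n) * mom g1 φ1 n +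
        (if Even n then (0 : ℂ) else fc (fun t => ee t * α t) n / n) * mom g2 φ2 n).re = 0 := by
    intro n hn
    have : Even n := by
      rw [← Int.not_odd_iff_even]
      rintro ⟨k, hk⟩
      exact hn ⟨k, hk.symm⟩
    simp [if_pos this]
  have hs2 := (hinj.hasSum_iff hsup).2 hs
  have e2 : ((fun n : ℤ => ((if Even n then (0 : ℂ) else fc (fun t => ee t * α t) n / n) * mom g1 φ1 n +
        (if Even n then (0 : ℂ) else fc (fun t => ee t * α t) n / n) * mom g2 φ2 n).re) ∘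
        fun j : ℤ => 2 * j + 1) =
      fun j : ℤ => (fc α (2 * j) / (2 * (j : ℂ) + 1) *
        (mom g1 φ1 (2 * j + 1) + mom g2 φ2 (2 * j + 1))).re := by
    funext j
    have hodd : ¬ Even (2 * j + 1) := by
      rw [Int.not_even_iff_odd]; exact ⟨j, rfl⟩
    have hcj : fc (fun t => ee t * α t) (2 * j + 1) = fc α (2 * j) := by
      rw [fc_eq, fc_eq]
      congr 1
      refine intervalIntegral.integral_congr fun t _ => ?_
      show ee t * α t * ee (-((2 * j + 1 : ℤ) : ℝ) * t) = α t * ee (-((2 * j : ℤ) : ℝ) * t)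
      have e1 : ee (-((2 * j : ℤ) : ℝ) * t) = ee t * ee (-((2 * j + 1 : ℤ) : ℝ) * t) := by
        rw [← ee_add]; congr 1; push_cast; ring
      rw [e1]; ring
    simp only [Function.comp, if_neg hodd]
    rw [hcj, ← mul_add]
    push_cast
    rfl
  rw [e2] at hs2
  exact hs2

/-- moments for the linear alignment `φ = θ` -/
theorem mom_id (g : ℝ → ℂ) (n : ℤ) : mom g (fun θ => θ) n = (starRingEnd ℂ) (fc g n) := by
  unfold mom
  rw [fc_eq]
  have h5 : (starRingEnd ℂ) (∫ u in (0 : ℝ)..(2 * Real.pi), g u * ee (-(n : ℝ) * u)) =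
      ∫ u in (0 : ℝ)..(2 * Real.pi), (starRingEnd ℂ) (g u * ee (-(n : ℝ) * u)) := by
    have hp := Real.pi_pos
    rw [intervalIntegral.integral_of_le (by positivity), intervalIntegral.integral_of_le (by positivity)]
    exact integral_conj.symm
  rw [map_mul, h5]
  have e0 : (starRingEnd ℂ) (1 / (2 * Real.pi) : ℂ) = (1 / (2 * Real.pi) : ℂ) := by
    simp only [map_mul, map_div₀, map_one, map_ofNat, Complex.conj_ofReal]
  rw [e0]
  congr 1
  refine intervalIntegral.integral_congr fun t _ => ?_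
  show ee ((n : ℝ) * t) * (starRingEnd ℂ) (g t) = (starRingEnd ℂ) (g t * ee (-(n : ℝ) * t))
  rw [map_mul, neg_mul, ee_neg, Complex.conj_conj]
  ring

end Pool.Agent.Helper20.RC
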