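import Pool.Agent.Helper20.RC.Target

/-!
# Project RC, track B: the links 1, 2, 3 and the right hand side together

Gauge `q > 0`, trigonometric weight `w = wR η₂ η₆ η₁₀`, symmetric shift `ψ`, explicit alignments `φ₁, φ₂`.
-/

open MeasureTheory Set Filter Metric

namespace Pool.Agent.Helper20.RC

open Helper49.LT Helper87.RC Helper49.RC Helper44.GQ
open Helper56.RC (fc)
open Helper44.RCG (Hex A00G A0QG AQQG G1 G2 sgG N0)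

/-- LINK 1 (value for the data `η`, `α`) -/
noncomputable def L1 (η2 η6 η10 : ℂ) (α : ℝ → ℂ) : ℝ :=
  1 - 2 * (‖η2‖ ^ 2 / 3 + ‖η6‖ ^ 2 / 35 + ‖η10‖ ^ 2 / 99)
      + 2 * (fc α 0 + (starRingEnd ℂ) η2 * fc α 2 / 3 - η2 * fc α (-2)
        + (starRingEnd ℂ) η6 * fc α 6 / 7 - η6 * fc α (-6) / 5
        + (starRingEnd ℂ) η10 * fc α 10 / 11 - η10 * fc α (-10) / 9).re
      + ∑' j : ℤ, ‖fc α (2 * j)‖ ^ 2 / (2 * (j : ℝ) + 1)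

/-- LINK 2, the gain of the weighted segments with the true angles -/
noncomputable def L2w (η2 η6 η10 : ℂ) (g1 g2 : ℝ → ℂ) : ℝ :=
  1 / (2 * Real.pi) * (∫ θ in (0 : ℝ)..(2 * Real.pi),
        (‖g1 θ‖ * hw η2 η6 η10 (al g1 θ) + ‖g2 θ‖ * hw η2 η6 η10 (al g2 θ)))

/-- LINK 2, the bilinear term with the explicit alignments -/
noncomputable def L2b (α g1 g2 : ℝ → ℂ) (φ1 φ2 : ℝ → ℝ) : ℝ :=
  1 / (4 * Real.pi) * (∫ θ in (0 : ℝ)..(2 * Real.pi),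
        ((g1 θ * (starRingEnd ℂ) (∫ t in (φ1 θ - Real.pi)..(φ1 θ), ee t * α t)).im
        + (g2 θ * (starRingEnd ℂ) (∫ t in (φ2 θ - Real.pi)..(φ2 θ), ee t * α t)).im))

/-- LINK 2, the rough term -/
noncomputable def L2r (α g1 g2 : ℝ → ℂ) (φ1 φ2 : ℝ → ℝ) : ℝ :=
  1 / (2 * Real.pi) * (∫ θ in (0 : ℝ)..(2 * Real.pi),
        (rg α ‖g1 θ‖ (φ1 θ) (al g1 θ) + rg α ‖g2 θ‖ (φ2 θ) (al g2 θ)))

theorem link1Q {q : ℝ} (hq : 0 < q) {b z : ℝ → ℂ} (h : AdmQ q b z) {η2 η6 η10 : ℂ}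
    (he : ‖η2‖ + ‖η6‖ + ‖η10‖ ≤ 1 / 2) :
    L1 η2 η6 η10 (alQ (wR η2 η6 η10) q b) ≤ A00G (A0Q (wR η2 η6 η10) q b) := by
  obtain ⟨C, hC⟩ := hexQ hq h (wR_wgt he)
  obtain ⟨E, hE⟩ := alQ_bm hq h (wR_wgt he)
  exact (link1_wt hC hE (A0Q_form q b η2 η6 η10)).2

theorem sumQ {q : ℝ} (hq : 0 < q) {b z : ℝ → ℂ} (h : AdmQ q b z) {η2 η6 η10 : ℂ}
    (he : ‖η2‖ + ‖η6‖ + ‖η10‖ ≤ 1 / 2) :
    Summable fun j : ℤ => ‖fc (alQ (wR η2 η6 η10) q b) (2 * j)‖ ^ 2 / (2 * (j : ℝ) + 1) := by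
  obtain ⟨C, hC⟩ := hexQ hq h (wR_wgt he)
  obtain ⟨E, hE⟩ := alQ_bm hq h (wR_wgt he)
  exact (link1_wt hC hE (A0Q_form q b η2 η6 η10)).1

theorem link2Q {q : ℝ} (hq : 0 < q) {b z : ℝ → ℂ} (h : AdmQ q b z) {η2 η6 η10 : ℂ}
    (he : ‖η2‖ + ‖η6‖ + ‖η10‖ ≤ 1 / 2) {φ1 φ2 : ℝ → ℝ} (m1 : Measurable φ1) (m2 : Measurable φ2) {K : ℝ}
    (k1 : ∀ θ, |φ1 θ - θ| ≤ K) (k2 : ∀ θ, |φ2 θ - θ| ≤ K) :
    L2w η2 η6 η10 (F1Q (wR η2 η6 η10) q b z) (F2Q (wR η2 η6 η10) q b z)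
      + L2b (alQ (wR η2 η6 η10) q b) (F1Q (wR η2 η6 η10) q b z) (F2Q (wR η2 η6 η10) q b z) φ1 φ2
      + L2r (alQ (wR η2 η6 η10) q b) (F1Q (wR η2 η6 η10) q b z) (F2Q (wR η2 η6 η10) q b z) φ1 φ2
      ≤ A0QG (A0Q (wR η2 η6 η10) q b) (AAQ (wR η2 η6 η10) q b) (BBQ (wR η2 η6 η10) q b)
        (vvS (wR η2 η6 η10) z) := by
  obtain ⟨C, hC⟩ := hexQ hq h (wR_wgt he)
  obtain ⟨E, hE⟩ := alQ_bm hq h (wR_wgt he)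
  exact link2 hC hE (alQ_per h (wR_wgt he)) (A0Q_form q b η2 η6 η10) m1 m2 k1 k2

/-- THE FRAME: lower bound of `FMQ - 9 mQ²` by the links 1, 2, 3, the second harmonic and the right hand side. -/
theorem frame {q : ℝ} (hq : 0 < q) {b z : ℝ → ℂ} (h : AdmQ q b z) {η2 η6 η10 : ℂ}
    (he : ‖η2‖ + ‖η6‖ + ‖η10‖ ≤ 1 / 2) {φ1 φ2 : ℝ → ℝ} (m1 : Measurable φ1) (m2 : Measurable φ2) {K : ℝ}
    (k1 : ∀ θ, |φ1 θ - θ| ≤ K) (k2 : ∀ θ, |φ2 θ - θ| ≤ K)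
    {ψ : ℝ → ℝ} (hψ : Measurable ψ) (hp : ∀ φ, ψ (φ + 2 * Real.pi) = ψ φ)
    (hb : ∀ φ, |ψ φ| ≤ Real.pi / 3) :
    2 / 3 * ‖sgG (A0Q (wR η2 η6 η10) q b) (AAQ (wR η2 η6 η10) q b) (BBQ (wR η2 η6 η10) q b)
        (vvS (wR η2 η6 η10) z) 2‖ ^ 2
      + L1 η2 η6 η10 (alQ (wR η2 η6 η10) q b)
      + 2 * (L2w η2 η6 η10 (F1Q (wR η2 η6 η10) q b z) (F2Q (wR η2 η6 η10) q b z)
        + L2b (alQ (wR η2 η6 η10) q b) (F1Q (wR η2 η6 η10) q b z) (F2Q (wR η2 η6 η10) q b z) φ1 φ2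
        + L2r (alQ (wR η2 η6 η10) q b) (F1Q (wR η2 η6 η10) q b z) (F2Q (wR η2 η6 η10) q b z) φ1 φ2)
      + (N0 (AAQ (wR η2 η6 η10) q b) (BBQ (wR η2 η6 η10) q b) (vvS (wR η2 η6 η10) z)
        - 1 / Real.pi * (∫ φ in (0 : ℝ)..(2 * Real.pi), ∫ u in (0 : ℝ)..(ψ φ),
        (F1Q (wR η2 η6 η10) q b z (φ + u / 2)
          * (starRingEnd ℂ) (F2Q (wR η2 η6 η10) q b z (φ - u / 2))).im))
      - 9 + 9 * (1 / (2 * Real.pi) * ∫ t in (0 : ℝ)..(2 * Real.pi), wR η2 η6 η10 t * ‖b t‖ ^ 2)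
      ≤ FMQ (wR η2 η6 η10) q b z - 9 * 1 * mQ (wR η2 η6 η10) b ^ 2 := by
  have h1 := link1Q hq h he
  have h2 := link2Q hq h he m1 m2 k1 k2
  have h3 := shiftQ hq h (wR_wgt he) hψ hp hb
  have h4 := target_wR h he
  rw [splQ hq h (wR_wgt he)]
  linarith

/-- with the true angles as alignments the rough term vanishes -/
theorem L2r_self (α g1 g2 : ℝ → ℂ) : L2r α g1 g2 (al g1) (al g2) = 0 := by
  unfold L2r rg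
  simp

/-- THE FRAME with the true angles in the whole of link 2 (for the DEL form of the rough coupling). -/
theorem frame_true {q : ℝ} (hq : 0 < q) {b z : ℝ → ℂ} (h : AdmQ q b z) {η2 η6 η10 : ℂ}
    (he : ‖η2‖ + ‖η6‖ + ‖η10‖ ≤ 1 / 2)
    {ψ : ℝ → ℝ} (hψ : Measurable ψ) (hp : ∀ φ, ψ (φ + 2 * Real.pi) = ψ φ)
    (hb : ∀ φ, |ψ φ| ≤ Real.pi / 3) :
    2 / 3 * ‖sgG (A0Q (wR η2 η6 η10) q b) (AAQ (wR η2 η6 η10) q b) (BBQ (wR η2 η6 η10) q b)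
        (vvS (wR η2 η6 η10) z) 2‖ ^ 2
      + L1 η2 η6 η10 (alQ (wR η2 η6 η10) q b)
      + 2 * (L2w η2 η6 η10 (F1Q (wR η2 η6 η10) q b z) (F2Q (wR η2 η6 η10) q b z)
        + L2b (alQ (wR η2 η6 η10) q b) (F1Q (wR η2 η6 η10) q b z) (F2Q (wR η2 η6 η10) q b z)
          (al (F1Q (wR η2 η6 η10) q b z)) (al (F2Q (wR η2 η6 η10) q b z)))
      + (N0 (AAQ (wR η2 η6 η10) q b) (BBQ (wR η2 η6 η10) q b) (vvS (wR η2 η6 η10) z)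
        - 1 / Real.pi * (∫ φ in (0 : ℝ)..(2 * Real.pi), ∫ u in (0 : ℝ)..(ψ φ),
        (F1Q (wR η2 η6 η10) q b z (φ + u / 2)
          * (starRingEnd ℂ) (F2Q (wR η2 η6 η10) q b z (φ - u / 2))).im))
      - 9 + 9 * (1 / (2 * Real.pi) * ∫ t in (0 : ℝ)..(2 * Real.pi), wR η2 η6 η10 t * ‖b t‖ ^ 2)
      ≤ FMQ (wR η2 η6 η10) q b z - 9 * 1 * mQ (wR η2 η6 η10) b ^ 2 := by
  obtain ⟨C, hC⟩ := hexQ hq h (wR_wgt he)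
  have hm1 : Measurable (F1Q (wR η2 η6 η10) q b z) := Helper44.RCG.G1_meas hC.q
  have hm2 : Measurable (F2Q (wR η2 η6 η10) q b z) := Helper44.RCG.G2_meas hC.q
  have := frame hq h he (al_meas hm1) (al_meas hm2) (al_abs _) (al_abs _) hψ hp hb
  rw [L2r_self, add_zero] at this
  exact this

/-- `Rq q 1` from nonnegativity of the frame for some choice of the parameters. -/
theorem Rq_of_frame {q : ℝ} (hq : 0 < q)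
    (H : ∀ b z : ℝ → ℂ, AdmQ q b z → ∃ (η2 η6 η10 : ℂ) (φ1 φ2 ψ : ℝ → ℝ) (K : ℝ),
      ‖η2‖ + ‖η6‖ + ‖η10‖ ≤ 1 / 2 ∧ Measurable φ1 ∧ Measurable φ2 ∧ (∀ θ, |φ1 θ - θ| ≤ K) ∧
      (∀ θ, |φ2 θ - θ| ≤ K) ∧ Measurable ψ ∧ (∀ φ, ψ (φ + 2 * Real.pi) = ψ φ) ∧
      (∀ φ, |ψ φ| ≤ Real.pi / 3) ∧
      0 ≤ 2 / 3 * ‖sgG (A0Q (wR η2 η6 η10) q b) (AAQ (wR η2 η6 η10) q b) (BBQ (wR η2 η6 η10) q b)
        (vvS (wR η2 η6 η10) z) 2‖ ^ 2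
      + L1 η2 η6 η10 (alQ (wR η2 η6 η10) q b)
      + 2 * (L2w η2 η6 η10 (F1Q (wR η2 η6 η10) q b z) (F2Q (wR η2 η6 η10) q b z)
        + L2b (alQ (wR η2 η6 η10) q b) (F1Q (wR η2 η6 η10) q b z) (F2Q (wR η2 η6 η10) q b z) φ1 φ2
        + L2r (alQ (wR η2 η6 η10) q b) (F1Q (wR η2 η6 η10) q b z) (F2Q (wR η2 η6 η10) q b z) φ1 φ2)
      + (N0 (AAQ (wR η2 η6 η10) q b) (BBQ (wR η2 η6 η10) q b) (vvS (wR η2 η6 η10) z)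
        - 1 / Real.pi * (∫ φ in (0 : ℝ)..(2 * Real.pi), ∫ u in (0 : ℝ)..(ψ φ),
        (F1Q (wR η2 η6 η10) q b z (φ + u / 2)
          * (starRingEnd ℂ) (F2Q (wR η2 η6 η10) q b z (φ - u / 2))).im))
      - 9 + 9 * (1 / (2 * Real.pi) * ∫ t in (0 : ℝ)..(2 * Real.pi), wR η2 η6 η10 t * ‖b t‖ ^ 2)) :
    Rq q 1 := by
  intro b z h
  obtain ⟨η2, η6, η10, φ1, φ2, ψ, K, he, m1, m2, k1, k2, hψ, hp, hb, h0⟩ := H b z h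
  refine ⟨wR η2 η6 η10, wR_wgt he, ?_⟩
  have := frame hq h he m1 m2 k1 k2 hψ hp hb
  linarith

end Pool.Agent.Helper20.RC
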