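import Pool.Agent.Helper20.RC.Sign
import Pool.Agent.Helper20.RC.Frame

/-!
# Project RC, track B: the sign inequality for the two families of edges
-/

open MeasureTheory Set Filter Metric Topology

namespace Pool.Agent.Helper20.RC

open Helper49.LT Helper87.RC
open Helper56.RC (fc)

/-- the density property of an alignment on `[0, 2π]` -/
def DensI (φ : ℝ → ℝ) (ρ : ℝ) : Prop := ∀ F : ℝ → ℝ, Measurable F → (∀ x, 0 ≤ F x) →
  (∃ C, ∀ x, F x ≤ C) → (∀ x, F (x + 2 * Real.pi) = F x) →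
  ∫ θ in (0 : ℝ)..(2 * Real.pi), F (φ θ) ≤ ρ * ∫ x in (0 : ℝ)..(2 * Real.pi), F x

theorem densI_id : DensI (fun θ => θ) 1 := by
  intro F _ _ _ _
  rw [one_mul]

/-- the true moments of the two families -/
noncomputable def sM (g1 g2 : ℝ → ℂ) (l : ℝ) : ℂ := (1 / (2 * Real.pi) : ℂ) *
  ∫ θ in (0 : ℝ)..(2 * Real.pi), ((‖g1 θ‖ : ℂ) * ee (-(l * al g1 θ)) + (‖g2 θ‖ : ℂ) * ee (-(l * al g2 θ)))

/-- the aligned density of one family at frequency `l`: `(Re (g e^{-iφ}) - i l Im (g e^{-iφ})) e^{-ilφ}` -/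
noncomputable def eD (g : ℝ → ℂ) (φ : ℝ → ℝ) (l : ℝ) (θ : ℝ) : ℂ :=
  (((g θ * ee (-φ θ)).re : ℂ) - Complex.I * (l : ℂ) * ((g θ * ee (-φ θ)).im : ℂ)) * ee (-(l * φ θ))

/-- the aligned moments of the two families -/
noncomputable def eM (g1 g2 : ℝ → ℂ) (φ1 φ2 : ℝ → ℝ) (l : ℝ) : ℂ := (1 / (2 * Real.pi) : ℂ) *
  ∫ θ in (0 : ℝ)..(2 * Real.pi), (eD g1 φ1 l θ + eD g2 φ2 l θ)

/-- the measure of the two families -/
noncomputable def m2 : Measure (Bool × ℝ) :=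
  (Measure.count : Measure Bool).prod (volume.restrict (Ioc 0 (2 * Real.pi)))

instance : IsFiniteMeasure m2 := by unfold m2; infer_instance

theorem int_m2 {E : Type*} [NormedAddCommGroup E] [NormedSpace ℝ E] [CompleteSpace E] {F : Bool × ℝ → E}
    (hF : Integrable F m2) :
    ∫ p, F p ∂m2 = (∫ θ in (0 : ℝ)..(2 * Real.pi), F (true, θ)) + ∫ θ in (0 : ℝ)..(2 * Real.pi), F (false, θ) := by
  have hp := Real.pi_pos
  unfold m2 at hF ⊢
  rw [integral_prod _ hF, integral_count, Fintype.sum_bool,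
    intervalIntegral.integral_of_le (by positivity), intervalIntegral.integral_of_le (by positivity)]

/-- put two functions together -/
def two {E : Type*} (f1 f2 : ℝ → E) (p : Bool × ℝ) : E := if p.1 then f1 p.2 else f2 p.2

theorem two_meas {E : Type*} [MeasurableSpace E] {f1 f2 : ℝ → E} (h1 : Measurable f1) (h2 : Measurable f2) :
    Measurable (two f1 f2) := by
  unfold two
  refine Measurable.ite ?_ (h1.comp measurable_snd) (h2.comp measurable_snd)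
  exact measurable_fst (measurableSet_singleton true)

theorem fm_two {f1 f2 α1 α2 : ℝ → ℝ} {C : ℝ} (m1 : Measurable f1) (m2' : Measurable f2) (b1 : ∀ t, |f1 t| ≤ C)
    (b2 : ∀ t, |f2 t| ≤ C) (n1 : Measurable α1) (n2 : Measurable α2) (l : ℝ) :
    fm m2 (two f1 f2) (two α1 α2) l = (∫ θ in (0 : ℝ)..(2 * Real.pi), (f1 θ : ℂ) * ee (-(l * α1 θ)))
      + ∫ θ in (0 : ℝ)..(2 * Real.pi), (f2 θ : ℂ) * ee (-(l * α2 θ)) := by
  unfold fm
  rw [int_m2]
  · simp only [two, if_true, Bool.false_eq_true, if_false]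
  · refine intg_of_bd (C := C) ?_ fun p => ?_
    · exact (Complex.measurable_ofReal.comp (two_meas m1 m2')).mul (ee_meas ((two_meas n1 n2).const_mul l).neg)
    · rw [norm_mul, norm_ee, mul_one, Complex.norm_real, Real.norm_eq_abs]
      unfold two
      split_ifs
      · exact b1 _
      · exact b2 _

theorem int_two {f1 f2 : ℝ → ℝ} {C : ℝ} (m1 : Measurable f1) (m2' : Measurable f2) (b1 : ∀ t, |f1 t| ≤ C)
    (b2 : ∀ t, |f2 t| ≤ C) :
    ∫ p, two f1 f2 p ∂m2 = (∫ θ in (0 : ℝ)..(2 * Real.pi), f1 θ) + ∫ θ in (0 : ℝ)..(2 * Real.pi), f2 θ := by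
  rw [int_m2]
  · simp only [two, if_true, Bool.false_eq_true, if_false]
  · refine intg_of_bd (C := C) (two_meas m1 m2') fun p => ?_
    rw [Real.norm_eq_abs]
    unfold two
    split_ifs
    · exact b1 _
    · exact b2 _

theorem fm_zero {Ω : Type*} [MeasurableSpace Ω] (μ : Measure Ω) (f α : Ω → ℝ) :
    fm μ f α 0 = ((∫ ω, f ω ∂μ : ℝ) : ℂ) := by
  unfold fm
  have e : (fun ω => (f ω : ℂ) * ee (-(0 * α ω))) = fun ω => ((f ω : ℝ) : ℂ) := by
    funext ω; rw [zero_mul, neg_zero, ee_zero, mul_one]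
  rw [e]
  exact integral_ofReal

theorem ii_gen {f φ : ℝ → ℝ} {D : ℝ} (mf : Measurable f) (bf : ∀ t, |f t| ≤ D) (mφ : Measurable φ) (l : ℝ) :
    IntervalIntegrable (fun θ => (f θ : ℂ) * ee (-(l * φ θ))) volume 0 (2 * Real.pi) := by
  have h : BM (fun θ => (f θ : ℂ) * ee (-(l * φ θ))) D :=
    ⟨(Complex.measurable_ofReal.comp mf).mul (ee_meas (mφ.const_mul l).neg), fun t => by
      rw [norm_mul, norm_ee, mul_one, Complex.norm_real, Real.norm_eq_abs]; exact bf t⟩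
  exact h.i _ _

/-- THE SIGN INEQUALITY for the two families: the partial sums converge to a number `≥ 0`. -/
theorem sign_fam {g1 g2 : ℝ → ℂ} {D : ℝ} (h1 : BM g1 D) (h2 : BM g2 D) {φ1 φ2 : ℝ → ℝ} (n1 : Measurable φ1)
    (n2 : Measurable φ2) {ρ : ℝ} (d1 : DensI φ1 ρ) (d2 : DensI φ2 ρ) :
    ∃ L : ℝ, 0 ≤ L ∧ Tendsto (fun N : ℕ =>
      (sM g1 g2 0).re * ((sM g1 g2 0).re - (eM g1 g2 φ1 φ2 0).re)
      - 2 * ∑ k ∈ Finset.range N, ((sM g1 g2 (lk k) - eM g1 g2 φ1 φ2 (lk k))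
        * (starRingEnd ℂ) (sM g1 g2 (lk k))).re / (lk k ^ 2 - 1)) atTop (𝓝 L) := by
  have hp := Real.pi_pos
  have hpc : (Real.pi : ℂ) ≠ 0 := by exact_mod_cast hp.ne'
  -- data
  have mr1 : Measurable fun θ => ‖g1 θ‖ := h1.m.norm
  have mr2 : Measurable fun θ => ‖g2 θ‖ := h2.m.norm
  have br1 : ∀ θ, |‖g1 θ‖| ≤ D := fun θ => by rw [abs_of_nonneg (norm_nonneg _)]; exact h1.b θ
  have br2 : ∀ θ, |‖g2 θ‖| ≤ D := fun θ => by rw [abs_of_nonneg (norm_nonneg _)]; exact h2.b θ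
  have ma1 := al_meas h1.m
  have ma2 := al_meas h2.m
  have mg : ∀ {g : ℝ → ℂ} {φ : ℝ → ℝ}, Measurable g → Measurable φ → Measurable fun θ => g θ * ee (-φ θ) :=
    fun hg hφ => hg.mul (ee_meas hφ.neg)
  have bg : ∀ {g : ℝ → ℂ} {φ : ℝ → ℝ}, (∀ t, ‖g t‖ ≤ D) → ∀ θ, ‖g θ * ee (-φ θ)‖ ≤ D := by
    intro g φ hg θ
    rw [norm_mul, norm_ee, mul_one]
    exact hg θ
  have mX1 : Measurable fun θ => (g1 θ * ee (-φ1 θ)).re := Complex.measurable_re.comp (mg h1.m n1)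
  have mX2 : Measurable fun θ => (g2 θ * ee (-φ2 θ)).re := Complex.measurable_re.comp (mg h2.m n2)
  have mY1 : Measurable fun θ => (g1 θ * ee (-φ1 θ)).im := Complex.measurable_im.comp (mg h1.m n1)
  have mY2 : Measurable fun θ => (g2 θ * ee (-φ2 θ)).im := Complex.measurable_im.comp (mg h2.m n2)
  have bX1 : ∀ θ, |(g1 θ * ee (-φ1 θ)).re| ≤ D := fun θ => (Complex.abs_re_le_norm _).trans (bg h1.b θ)
  have bX2 : ∀ θ, |(g2 θ * ee (-φ2 θ)).re| ≤ D := fun θ => (Complex.abs_re_le_norm _).trans (bg h2.b θ)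
  have bY1 : ∀ θ, |(g1 θ * ee (-φ1 θ)).im| ≤ D := fun θ => (Complex.abs_im_le_norm _).trans (bg h1.b θ)
  have bY2 : ∀ θ, |(g2 θ * ee (-φ2 θ)).im| ≤ D := fun θ => (Complex.abs_im_le_norm _).trans (bg h2.b θ)
  have hRB : ∀ {f1 f2 : ℝ → ℝ}, Measurable f1 → Measurable f2 → (∀ t, |f1 t| ≤ D) → (∀ t, |f2 t| ≤ D) →
      RB (two f1 f2) D := by
    intro f1 f2 a1 a2 c1 c2
    refine ⟨two_meas a1 a2, fun ω => ?_⟩
    unfold two
    split_ifs
    · exact c1 _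
    · exact c2 _
  have hdens : Dens m2 (two φ1 φ2) (ρ + ρ) := by
    intro F mF pF bF perF
    obtain ⟨C, hC⟩ := bF
    have hb : ∀ x, |F x| ≤ C := fun x => by rw [abs_of_nonneg (pF x)]; exact hC x
    have e : (fun ω => F (two φ1 φ2 ω)) = two (fun θ => F (φ1 θ)) (fun θ => F (φ2 θ)) := by
      funext ω
      unfold two
      split_ifs <;> rfl
    have e9 := int_two (f1 := fun θ => F (φ1 θ)) (f2 := fun θ => F (φ2 θ)) (mF.comp n1) (mF.comp n2)
      (fun t => hb _) (fun t => hb _)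
    rw [e, e9, add_mul]
    exact add_le_add (d1 F mF pF ⟨C, hC⟩ perF) (d2 F mF pF ⟨C, hC⟩ perF)
  have hS := sign_series (μ := m2) (r := two (fun θ => ‖g1 θ‖) (fun θ => ‖g2 θ‖))
    (X := two (fun θ => (g1 θ * ee (-φ1 θ)).re) (fun θ => (g2 θ * ee (-φ2 θ)).re))
    (Y := two (fun θ => (g1 θ * ee (-φ1 θ)).im) (fun θ => (g2 θ * ee (-φ2 θ)).im))
    (a := two (al g1) (al g2)) (β := two φ1 φ2)
    (hRB mr1 mr2 br1 br2) (fun ω => by unfold two; split_ifs <;> exact norm_nonneg _)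
    (hRB mX1 mX2 bX1 bX2) (hRB mY1 mY2 bY1 bY2) (two_meas ma1 ma2) (two_meas n1 n2)
    (fun ω => by
      have key : ∀ (g : ℝ → ℂ) (φ θ : ℝ), (‖g θ‖ : ℂ) * ee (al g θ) =
          (((g θ * ee (-φ)).re : ℂ) + ((g θ * ee (-φ)).im : ℂ) * Complex.I) * ee φ := by
        intro g φ θ
        rw [← al_ee g θ, Complex.re_add_im, mul_assoc, ← ee_add, neg_add_cancel, ee_zero, mul_one]
      unfold two
      split_ifs
      · exact key g1 _ _
      · exact key g2 _ _) hdens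
  obtain ⟨L, hL0, hL⟩ := hS
  -- translate
  have eS : ∀ l : ℝ, fm m2 (two (fun θ => ‖g1 θ‖) (fun θ => ‖g2 θ‖)) (two (al g1) (al g2)) l =
      (2 * Real.pi : ℂ) * sM g1 g2 l := by
    intro l
    rw [fm_two mr1 mr2 br1 br2 ma1 ma2]
    unfold sM
    have i1 := ii_gen mr1 br1 ma1 l
    have i2 := ii_gen mr2 br2 ma2 l
    rw [intervalIntegral.integral_add i1 i2]
    field_simp
  have eE : ∀ l : ℝ, fm m2 (two (fun θ => (g1 θ * ee (-φ1 θ)).re) (fun θ => (g2 θ * ee (-φ2 θ)).re))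
        (two φ1 φ2) l - Complex.I * (l : ℂ) *
      fm m2 (two (fun θ => (g1 θ * ee (-φ1 θ)).im) (fun θ => (g2 θ * ee (-φ2 θ)).im)) (two φ1 φ2) l =
      (2 * Real.pi : ℂ) * eM g1 g2 φ1 φ2 l := by
    intro l
    rw [fm_two mX1 mX2 bX1 bX2 n1 n2, fm_two mY1 mY2 bY1 bY2 n1 n2]
    unfold eM
    have x1 := ii_gen mX1 bX1 n1 l
    have x2 := ii_gen mX2 bX2 n2 l
    have y1 := ii_gen mY1 bY1 n1 l
    have y2 := ii_gen mY2 bY2 n2 l
    have e1 : ∫ θ in (0 : ℝ)..(2 * Real.pi), (eD g1 φ1 l θ + eD g2 φ2 l θ) =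
        ((∫ θ in (0 : ℝ)..(2 * Real.pi), ((g1 θ * ee (-φ1 θ)).re : ℂ) * ee (-(l * φ1 θ)))
          + ∫ θ in (0 : ℝ)..(2 * Real.pi), ((g2 θ * ee (-φ2 θ)).re : ℂ) * ee (-(l * φ2 θ)))
        - Complex.I * (l : ℂ) * ((∫ θ in (0 : ℝ)..(2 * Real.pi), ((g1 θ * ee (-φ1 θ)).im : ℂ) * ee (-(l * φ1 θ)))
          + ∫ θ in (0 : ℝ)..(2 * Real.pi), ((g2 θ * ee (-φ2 θ)).im : ℂ) * ee (-(l * φ2 θ))) := by
      rw [← intervalIntegral.integral_add x1 x2, ← intervalIntegral.integral_add y1 y2,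
        ← intervalIntegral.integral_const_mul,
        ← intervalIntegral.integral_sub (x1.add x2) ((y1.add y2).const_mul _)]
      refine intervalIntegral.integral_congr fun θ _ => ?_
      show eD g1 φ1 l θ + eD g2 φ2 l θ = _
      unfold eD
      ring
    have e9 : (2 * Real.pi : ℂ) * (1 / (2 * Real.pi) : ℂ) = 1 := by field_simp
    rw [e1, ← mul_assoc, e9, one_mul]
  have eR : ∫ ω, two (fun θ => ‖g1 θ‖) (fun θ => ‖g2 θ‖) ω ∂m2 = 2 * Real.pi * (sM g1 g2 0).re := by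
    have h := eS 0
    rw [fm_zero] at h
    have h3 := congrArg Complex.re h
    have e4 : (2 * Real.pi : ℂ) = ((2 * Real.pi : ℝ) : ℂ) := by push_cast; rfl
    rw [Complex.ofReal_re, e4, Complex.re_ofReal_mul] at h3
    exact h3
  have eX : ∫ ω, two (fun θ => (g1 θ * ee (-φ1 θ)).re) (fun θ => (g2 θ * ee (-φ2 θ)).re) ω ∂m2 =
      2 * Real.pi * (eM g1 g2 φ1 φ2 0).re := by
    have h := eE 0
    rw [fm_zero, Complex.ofReal_zero, mul_zero, zero_mul, sub_zero] at h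
    have h3 := congrArg Complex.re h
    have e4 : (2 * Real.pi : ℂ) = ((2 * Real.pi : ℝ) : ℂ) := by push_cast; rfl
    rw [Complex.ofReal_re, e4, Complex.re_ofReal_mul] at h3
    exact h3
  refine ⟨(1 / (2 * Real.pi)) ^ 2 * L, by positivity, ?_⟩
  have h5 := hL.const_mul ((1 / (2 * Real.pi)) ^ 2)
  refine h5.congr fun N => ?_
  rw [eR, eX]
  simp_rw [eE, eS]
  have e6 : ∀ k, ((2 * Real.pi : ℂ) * sM g1 g2 (lk k) - (2 * Real.pi : ℂ) * eM g1 g2 φ1 φ2 (lk k)) *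
      (starRingEnd ℂ) ((2 * Real.pi : ℂ) * sM g1 g2 (lk k)) =
      (((2 * Real.pi) ^ 2 : ℝ) : ℂ) * ((sM g1 g2 (lk k) - eM g1 g2 φ1 φ2 (lk k)) *
        (starRingEnd ℂ) (sM g1 g2 (lk k))) := by
    intro k
    rw [map_mul]
    have e7 : (starRingEnd ℂ) (2 * Real.pi : ℂ) = (2 * Real.pi : ℂ) := by
      simp only [map_mul, map_ofNat, Complex.conj_ofReal]
    rw [e7]
    push_cast
    ring
  simp_rw [e6, Complex.re_ofReal_mul]
  rw [mul_sub]
  congr 1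
  · field_simp
  · rw [← mul_assoc, mul_comm ((1 / (2 * Real.pi)) ^ 2) 2, mul_assoc, Finset.mul_sum]
    congr 1
    refine Finset.sum_congr rfl fun k _ => ?_
    field_simp

/-- THE SIGN INEQUALITY with the nominal alignment `φ = θ`. -/
theorem sign_nominal {g1 g2 : ℝ → ℂ} {D : ℝ} (h1 : BM g1 D) (h2 : BM g2 D) :
    ∃ L : ℝ, 0 ≤ L ∧ Tendsto (fun N : ℕ =>
      (sM g1 g2 0).re * ((sM g1 g2 0).re - (eM g1 g2 (fun θ => θ) (fun θ => θ) 0).re)
      - 2 * ∑ k ∈ Finset.range N, ((sM g1 g2 (lk k) - eM g1 g2 (fun θ => θ) (fun θ => θ) (lk k))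
        * (starRingEnd ℂ) (sM g1 g2 (lk k))).re / (lk k ^ 2 - 1)) atTop (𝓝 L) :=
  sign_fam h1 h2 measurable_id measurable_id densI_id densI_id

end Pool.Agent.Helper20.RC
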