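import Pool.Agent.Helper20.RC.Link2
import Pool.Agent.Helper44.RC.M_BRQ

/-!
# Project RC, track B: the weight and the right hand side (Jensen)
-/

open MeasureTheory Set Filter Metric

namespace Pool.Agent.Helper20.RC

open Helper49.LT Helper87.RC Helper49.RC Helper44.GQ
open Helper56.RC (fc)

/-- the real weight -/
noncomputable def wR (η2 η6 η10 : ℂ) (t : ℝ) : ℝ :=
  1 + 2 * (η2 * ee (2 * t) + η6 * ee (6 * t) + η10 * ee (10 * t)).re

theorem wt_wR (η2 η6 η10 : ℂ) (t : ℝ) : wt η2 η6 η10 t = (wR η2 η6 η10 t : ℂ) := wt_real η2 η6 η10 t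

theorem wR_meas (η2 η6 η10 : ℂ) : Measurable (wR η2 η6 η10) := by
  have h : ∀ (η : ℂ) (c : ℝ), Measurable fun x => η * ee (c * x) := by
    intro η c
    exact ((continuous_ee.measurable).comp (measurable_const.mul measurable_id)).const_mul η
  unfold wR
  exact measurable_const.add (measurable_const.mul
    (Complex.measurable_re.comp (((h η2 2).add (h η6 6)).add (h η10 10))))

theorem wR_bd (η2 η6 η10 : ℂ) (t : ℝ) : |wR η2 η6 η10 t - 1| ≤ 2 * (‖η2‖ + ‖η6‖ + ‖η10‖) := by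
  have h : ∀ (η : ℂ) (x : ℝ), ‖η * ee x‖ = ‖η‖ := by
    intro η x
    rw [norm_mul, norm_ee, mul_one]
  unfold wR
  rw [add_sub_cancel_left, abs_mul, abs_of_pos (by norm_num : (0 : ℝ) < 2)]
  refine mul_le_mul_of_nonneg_left ?_ (by norm_num)
  refine (Complex.abs_re_le_norm _).trans ?_
  refine (norm_add₃_le).trans ?_
  rw [h, h, h]

theorem wR_per (η2 η6 η10 : ℂ) (t : ℝ) : wR η2 η6 η10 (t + Real.pi) = wR η2 η6 η10 t := by
  have h : ∀ k : ℤ, ee (((2 * k : ℤ) : ℝ) * (t + Real.pi)) = ee (((2 * k : ℤ) : ℝ) * t) := by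
    intro k
    have e : ((2 * k : ℤ) : ℝ) * (t + Real.pi) = ((2 * k : ℤ) : ℝ) * t
        + ((k : ℤ) : ℝ) * (2 * Real.pi) := by push_cast; ring
    rw [e, ee_add, ee_int_mul k (2 * Real.pi), ee_two_pi]
    simp
  have h2 := h 1
  have h6 := h 3
  have h10 := h 5
  norm_num at h2 h6 h10
  unfold wR
  rw [h2, h6, h10]

/-- the mean of the weight is `1` -/
theorem wR_mean (η2 η6 η10 : ℂ) :
    1 / (2 * Real.pi) * ∫ t in (0 : ℝ)..(2 * Real.pi), wR η2 η6 η10 t = 1 := by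
  have h := fc_wt η2 η6 η10 0
  norm_num at h
  rw [fc_eq] at h
  have e : ∀ t : ℝ, wt η2 η6 η10 t * ee (-((0 : ℤ) : ℝ) * t) = ((wR η2 η6 η10 t : ℝ) : ℂ) := by
    intro t
    rw [wt_wR]
    simp [ee_zero]
  simp_rw [e] at h
  rw [intervalIntegral.integral_ofReal] at h
  have h3 : ((1 / (2 * Real.pi) * ∫ t in (0 : ℝ)..(2 * Real.pi), wR η2 η6 η10 t : ℝ) : ℂ) = ((1 : ℝ) : ℂ) := by
    push_cast
    exact h
  exact_mod_cast h3

/-- the weight is admissible -/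
theorem wR_wgt {η2 η6 η10 : ℂ} (h : ‖η2‖ + ‖η6‖ + ‖η10‖ ≤ 1 / 2) : Wgt (wR η2 η6 η10) := by
  refine ⟨wR_meas _ _ _, fun t => ?_, ⟨2, fun t => ?_⟩, wR_per _ _ _, ?_⟩
  · have := abs_le.1 (wR_bd η2 η6 η10 t)
    linarith
  · have := abs_le.1 (wR_bd η2 η6 η10 t)
    linarith
  · have h1 := wR_mean η2 η6 η10
    have hp := Real.pi_pos
    have h2 : ∫ t in (0 : ℝ)..(2 * Real.pi), wR η2 η6 η10 t = 2 * Real.pi := by
      field_simp at h1
      linarith
    rw [h2]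
    positivity

/-- bounded measurable real functions are integrable -/
theorem wgt_intg {w f : ℝ → ℝ} (hw : Wgt w) (hm : Measurable f) {C : ℝ} (hC : ∀ t, |f t| ≤ C) (a b : ℝ) :
    IntervalIntegrable (fun t => w t * f t) volume a b := by
  obtain ⟨D, hD⟩ := hw.bd
  refine intg_real (C := D * C) (hw.m.mul hm) (fun t => ?_) _ _
  show |w t * f t| ≤ D * C
  rw [abs_mul, abs_of_nonneg (hw.nonneg t)]
  exact mul_le_mul (hD t) (hC t) (abs_nonneg _) ((hw.nonneg t).trans (hD t))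

/-- JENSEN: for a weight of mean `1`, `⟨w √(1-|b|²)⟩² ≤ 1 - ⟨w |b|²⟩`. -/
theorem target {w : ℝ → ℝ} (hw : Wgt w) (h1 : 1 / (2 * Real.pi) * (∫ t in (0 : ℝ)..(2 * Real.pi), w t) = 1)
    {b : ℝ → ℂ} (mb : Measurable b) (hb : ∀ t, ‖b t‖ ≤ 1) :
    mQ w b ^ 2 ≤ 1 - 1 / (2 * Real.pi) * ∫ t in (0 : ℝ)..(2 * Real.pi), w t * ‖b t‖ ^ 2 := by
  have hp := Real.pi_pos
  set m := mQ w b with hm
  have mf : Measurable fun t => Real.sqrt (1 - ‖b t‖ ^ 2) :=
    Real.continuous_sqrt.measurable.comp (measurable_const.sub (mb.norm.pow_const 2))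
  have hs : ∀ t, Real.sqrt (1 - ‖b t‖ ^ 2) ^ 2 = 1 - ‖b t‖ ^ 2 := by
    intro t
    refine Real.sq_sqrt ?_
    nlinarith [norm_nonneg (b t), hb t]
  have bf : ∀ t, |Real.sqrt (1 - ‖b t‖ ^ 2)| ≤ 1 := by
    intro t
    rw [abs_of_nonneg (Real.sqrt_nonneg _)]
    rw [Real.sqrt_le_one]
    nlinarith [norm_nonneg (b t)]
  have i1 := wgt_intg hw mf bf 0 (2 * Real.pi)
  have i2 : IntervalIntegrable (fun t => w t * ‖b t‖ ^ 2) volume 0 (2 * Real.pi) :=
    wgt_intg hw (mb.norm.pow_const 2) (C := 1) (fun t => by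
      rw [abs_of_nonneg (by positivity)]
      nlinarith [norm_nonneg (b t), hb t]) _ _
  have i0 : IntervalIntegrable w volume 0 (2 * Real.pi) := by
    have := wgt_intg hw (f := fun _ => (1 : ℝ)) measurable_const (C := 1) (fun t => by simp) 0 (2 * Real.pi)
    simpa using this
  have hI : ∫ t in (0 : ℝ)..(2 * Real.pi), w t = 2 * Real.pi := by
    field_simp at h1
    linarith
  have hM : ∫ t in (0 : ℝ)..(2 * Real.pi), w t * Real.sqrt (1 - ‖b t‖ ^ 2) = 2 * Real.pi * m := by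
    rw [hm]
    unfold mQ
    field_simp
  -- the integral of `w (√(1 - |b|²) - m)²` is nonnegative
  have h2 : 0 ≤ ∫ t in (0 : ℝ)..(2 * Real.pi),
      w t * (Real.sqrt (1 - ‖b t‖ ^ 2) - m) ^ 2 := by
    refine intervalIntegral.integral_nonneg (by positivity) fun t _ => ?_
    exact mul_nonneg (hw.nonneg t) (sq_nonneg _)
  have h3 : ∫ t in (0 : ℝ)..(2 * Real.pi), w t * (Real.sqrt (1 - ‖b t‖ ^ 2) - m) ^ 2 =
      (1 + m ^ 2) * (∫ t in (0 : ℝ)..(2 * Real.pi), w t)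
        - 2 * m * (∫ t in (0 : ℝ)..(2 * Real.pi), w t * Real.sqrt (1 - ‖b t‖ ^ 2))
        - ∫ t in (0 : ℝ)..(2 * Real.pi), w t * ‖b t‖ ^ 2 := by
    rw [← intervalIntegral.integral_const_mul, ← intervalIntegral.integral_const_mul,
      ← intervalIntegral.integral_sub (i0.const_mul _) (i1.const_mul _),
      ← intervalIntegral.integral_sub ((i0.const_mul _).sub (i1.const_mul _)) i2]
    refine intervalIntegral.integral_congr fun t _ => ?_
    show w t * (Real.sqrt (1 - ‖b t‖ ^ 2) - m) ^ 2 =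
      (1 + m ^ 2) * w t - 2 * m * (w t * Real.sqrt (1 - ‖b t‖ ^ 2)) - w t * ‖b t‖ ^ 2
    linear_combination (w t) * (hs t)
  rw [h3, hI, hM] at h2
  have h4 : 1 / (2 * Real.pi) * ∫ t in (0 : ℝ)..(2 * Real.pi), w t * ‖b t‖ ^ 2 ≤ 1 - m ^ 2 := by
    rw [one_div, inv_mul_le_iff₀ (by positivity)]
    nlinarith
  linarith

/-- THE RIGHT HAND SIDE for admissible data and the trigonometric weight. -/
theorem target_wR {q : ℝ} {b z : ℝ → ℂ} (h : AdmQ q b z) {η2 η6 η10 : ℂ}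
    (he : ‖η2‖ + ‖η6‖ + ‖η10‖ ≤ 1 / 2) :
    9 * 1 * mQ (wR η2 η6 η10) b ^ 2 ≤
      9 - 9 * (1 / (2 * Real.pi) * ∫ t in (0 : ℝ)..(2 * Real.pi), wR η2 η6 η10 t * ‖b t‖ ^ 2) := by
  obtain ⟨δ, hδ, hb⟩ := h.bdb
  have := target (wR_wgt he) (wR_mean _ _ _) h.mb (fun t => (hb t).trans (by linarith))
  linarith

/-- the function `α` of the links 1 and 2 in the gauge `q` -/
noncomputable def alQ (w : ℝ → ℝ) (q : ℝ) (b : ℝ → ℂ) (t : ℝ) : ℂ :=
  (w t : ℂ) * (((b t).re : ℂ) + Complex.I * (((b t).im / q : ℝ) : ℂ))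

/-- the segments in the form of the links 1 and 2 -/
theorem A0Q_form (q : ℝ) (b : ℝ → ℂ) (η2 η6 η10 : ℂ) (t : ℝ) :
    A0Q (wR η2 η6 η10) q b t = ee t * (wt η2 η6 η10 t + alQ (wR η2 η6 η10) q b t) := by
  unfold A0Q aQ alQ
  rw [wt_wR]
  ring

theorem alQ_bm {q : ℝ} (hq : 0 < q) {b z : ℝ → ℂ} (h : AdmQ q b z) {w : ℝ → ℝ} (hw : Wgt w) :
    ∃ E : ℝ, BM (alQ w q b) E := by
  obtain ⟨δ, hδ, hb⟩ := h.bdb
  obtain ⟨D, hD⟩ := hw.bd
  refine ⟨D * (1 + 1 / q), ?_, fun t => ?_⟩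
  · unfold alQ
    exact (Complex.measurable_ofReal.comp hw.m).mul
      ((Complex.measurable_ofReal.comp (Complex.measurable_re.comp h.mb)).add
        ((Complex.measurable_ofReal.comp ((Complex.measurable_im.comp h.mb).div_const q)).const_mul _))
  · unfold alQ
    rw [norm_mul, Complex.norm_real, Real.norm_eq_abs, abs_of_nonneg (hw.nonneg t)]
    refine mul_le_mul (hD t) ?_ (norm_nonneg _) ((hw.nonneg t).trans (hD t))
    refine (norm_add_le _ _).trans ?_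
    rw [norm_mul, Complex.norm_I, one_mul, Complex.norm_real, Complex.norm_real, Real.norm_eq_abs,
      Real.norm_eq_abs, abs_div, abs_of_pos hq]
    have h1 := (Complex.abs_re_le_norm (b t)).trans ((hb t).trans (by linarith : 1 - δ ≤ 1))
    have h2 := (Complex.abs_im_le_norm (b t)).trans ((hb t).trans (by linarith : 1 - δ ≤ 1))
    exact add_le_add h1 (div_le_div_of_nonneg_right h2 hq.le)

theorem alQ_per {q : ℝ} {b z : ℝ → ℂ} (h : AdmQ q b z) {w : ℝ → ℝ} (hw : Wgt w) (t : ℝ) :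
    alQ w q b (t + Real.pi) = alQ w q b t := by
  unfold alQ
  rw [hw.per, h.perb]

end Pool.Agent.Helper20.RC
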