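import Pool.Agent.Helper95.RC.Coef
import Pool.Agent.Helper20.RC.SignF
import Pool.Agent.Helper20.RC.Target

/-!
# Project RC, SHARP: the pairing of the harmonic 2 (helper68, helper19)

Gauge `q = 2`, any weight. `sg_2 = σ_t + s_2` with `σ_t = ⟨w conj(a)²/|a| e^{-2it}⟩` and
`|σ_t - ((w)_2 + (w b₂)_2 - i (w b₃)_2)| ≤ ½ ⟨w |b|²⟩`. `pair_tau`: the tangent of `(2/3) |sg_2|²` at any point `τ`.
-/

open MeasureTheory Set Filter Topology

namespace Pool.Agent.Helper20.RC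

open Helper49.LT hiding sg
open Helper49.RC Helper87.RC Helper44.GQ
open Helper56.RC (fc)
open Helper44.RCG (Hex G1 G2 sgG)
open Helper95.RC (bmw bmp bmr)

theorem pair_poly (u s : ℝ) (hu : 0 < u) (hs : s ≤ 1) (hs0 : 0 ≤ s) :
    0 ≤ s ^ 2 + (12 * u - 9) * s + 9 * (u - 1) ^ 2 := by
  by_cases h1 : u ≤ 7 / 12
  · have h2 : 0 ≤ (1 - s) * (8 - 12 * u - s) := mul_nonneg (by linarith) (by linarith)
    nlinarith [sq_nonneg (3 * u - 1)]
  · push Not at h1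
    by_cases h3 : u ≤ 3 / 4
    · have h4 : 0 ≤ (2 * u - 1) * (5 - 6 * u) := mul_nonneg (by linarith) (by linarith)
      nlinarith [sq_nonneg (s + (12 * u - 9) / 2)]
    · push Not at h3
      have h5 : 0 ≤ (12 * u - 9) * s := mul_nonneg (by linarith) hs0
      positivity

theorem pair_pt (b : ℂ) (hb : ‖b‖ < 1) :
    ‖(starRingEnd ℂ) (aQ 2 b) ^ 2 / (‖aQ 2 b‖ : ℂ) - (1 + (b.re : ℂ) - Complex.I * (b.im : ℂ))‖
      ≤ 1 / 2 * ‖b‖ ^ 2 := by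
  set u : ℝ := 1 + b.re with hu
  set v : ℝ := b.im / 2 with hv
  have hn : b.re ^ 2 + b.im ^ 2 < 1 := by
    have h1 : ‖b‖ ^ 2 < 1 := by nlinarith [norm_nonneg b]
    rw [← Complex.normSq_eq_norm_sq, Complex.normSq_apply] at h1
    nlinarith
  have hu0 : 0 < u := by nlinarith [sq_nonneg b.im]
  have ha_re : (aQ 2 b).re = u := by unfold aQ; simp [hu]
  have ha_im : (aQ 2 b).im = v := by
    unfold aQ
    simp [hv]
  set r : ℝ := ‖aQ 2 b‖ with hr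
  have hr2 : r ^ 2 = u ^ 2 + v ^ 2 := by
    rw [hr, ← Complex.normSq_eq_norm_sq, Complex.normSq_apply, ha_re, ha_im]; ring
  have hrn : 0 ≤ r := norm_nonneg _
  have hr0 : 0 < r := by
    rcases hrn.lt_or_eq with h | h
    · exact h
    · exfalso
      rw [← h] at hr2
      nlinarith [sq_nonneg v, mul_pos hu0 hu0]
  have hru : u ≤ r := by nlinarith [sq_nonneg v]
  have e : ‖(starRingEnd ℂ) (aQ 2 b) ^ 2 / (r : ℂ) - (1 + (b.re : ℂ) - Complex.I * (b.im : ℂ))‖ ^ 2 =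
      ((u ^ 2 - v ^ 2) / r - u) ^ 2 + (2 * v - 2 * u * v / r) ^ 2 := by
    rw [← Complex.normSq_eq_norm_sq, Complex.normSq_apply]
    have e1 : ((starRingEnd ℂ) (aQ 2 b) ^ 2 / (r : ℂ) - (1 + (b.re : ℂ) - Complex.I * (b.im : ℂ))).re =
        (u ^ 2 - v ^ 2) / r - u := by
      rw [Complex.sub_re, Complex.div_ofReal_re, sq, Complex.mul_re, Complex.conj_re, Complex.conj_im, ha_re, ha_im]
      simp [hu]
      ring
    have e2 : ((starRingEnd ℂ) (aQ 2 b) ^ 2 / (r : ℂ) - (1 + (b.re : ℂ) - Complex.I * (b.im : ℂ))).im =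
        2 * v - 2 * u * v / r := by
      rw [Complex.sub_im, Complex.div_ofReal_im, sq, Complex.mul_im, Complex.conj_re, Complex.conj_im, ha_re, ha_im]
      simp [hv]
      ring
    rw [e1, e2]; ring
  have hb2 : ‖b‖ ^ 2 = (u - 1) ^ 2 + 4 * v ^ 2 := by
    rw [← Complex.normSq_eq_norm_sq, Complex.normSq_apply, hu, hv]; ring
  have hv2 : v ^ 2 = (r - u) * (r + u) := by nlinarith
  have key : ((u ^ 2 - v ^ 2) / r - u) ^ 2 + (2 * v - 2 * u * v / r) ^ 2 =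
      (r - u) ^ 2 * (5 * r + 4 * u) / r := by
    have h1 : (2 * v - 2 * u * v / r) ^ 2 = 4 * v ^ 2 * (1 - u / r) ^ 2 := by ring
    rw [h1, hv2]
    field_simp
    ring
  set s : ℝ := ‖b‖ ^ 2 with hs
  have hs1 : s ≤ 1 := by rw [hs]; nlinarith [norm_nonneg b]
  have hs0 : 0 ≤ s := by rw [hs]; positivity
  have hp := pair_poly u s hu0 hs1 hs0
  have hrs : r ≤ u + s / 6 := by
    have h1 : r ^ 2 ≤ (u + s / 6) ^ 2 := by
      rw [hr2]
      have : v ^ 2 = (s - (u - 1) ^ 2) / 4 := by linarith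
      rw [this]
      nlinarith
    exact le_of_sq_le_sq h1 (by positivity)
  have h9 : (r - u) ^ 2 * (5 * r + 4 * u) / r ≤ (1 / 2 * s) ^ 2 := by
    rw [div_le_iff₀ hr0]
    have h1 : (r - u) ^ 2 * (5 * r + 4 * u) ≤ (r - u) ^ 2 * (9 * r) :=
      mul_le_mul_of_nonneg_left (by linarith) (sq_nonneg _)
    have h2 : (r - u) ^ 2 ≤ (s / 6) ^ 2 := by
      apply pow_le_pow_left₀ (by linarith)
      linarith
    nlinarith [mul_le_mul_of_nonneg_right h2 (by positivity : 0 ≤ 9 * r)]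
  rw [← key, ← e] at h9
  exact le_of_sq_le_sq h9 (by positivity)
where
  le_of_sq_le_sq {x y : ℝ} (h : x ^ 2 ≤ y ^ 2) (hy : 0 ≤ y) : x ≤ y := by
    by_contra hc
    push Not at hc
    nlinarith

theorem nn2_al (g : ℝ → ℂ) (θ : ℝ) : nn 2 (g θ) = (‖g θ‖ : ℂ) * ee (-(2 * al g θ)) := by
  by_cases h0 : g θ = 0
  · rw [h0, nn_of_zero]; simp
  · have hn : (‖g θ‖ : ℂ) ≠ 0 := by
      rw [Ne, Complex.ofReal_eq_zero, norm_eq_zero]; exact h0
    have h1 := al_ee g θ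
    have h2 : (starRingEnd ℂ) (g θ) / (‖g θ‖ : ℂ) = ee (-(al g θ)) := by
      conv_lhs => rw [show (starRingEnd ℂ) (g θ) = (starRingEnd ℂ) ((‖g θ‖ : ℂ) * ee (al g θ)) by rw [← h1]]
      rw [map_mul, Complex.conj_ofReal, ← ee_neg, mul_div_cancel_left₀ _ hn]
    unfold nn
    rw [h2, sq, ← ee_add]
    congr 2
    ring

theorem nn2_A0Q {w : ℝ → ℝ} (hw : ∀ t, 0 ≤ w t) (b : ℝ → ℂ) (t : ℝ) :
    nn 2 (A0Q w 2 b t) = (w t : ℂ) * ((starRingEnd ℂ) (aQ 2 (b t)) ^ 2 / (‖aQ 2 (b t)‖ : ℂ)) * ee (-(2 * t)) := by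
  rcases (hw t).lt_or_eq with h | h
  · have hwc : (w t : ℂ) ≠ 0 := by rw [Ne, Complex.ofReal_eq_zero]; exact h.ne'
    unfold nn A0Q
    have hn : ‖(w t : ℂ) * (ee t * aQ 2 (b t))‖ = w t * ‖aQ 2 (b t)‖ := by
      rw [norm_mul, norm_mul, norm_ee, one_mul, Complex.norm_real, Real.norm_of_nonneg h.le]
    rw [hn, map_mul, map_mul, Complex.conj_ofReal, ← ee_neg, Complex.ofReal_mul]
    have e2 : ee (-(2 * t)) = ee (-t) ^ 2 := by rw [sq, ← ee_add]; congr 1; ring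
    rw [e2]
    by_cases ha : aQ 2 (b t) = 0
    · rw [ha]; simp
    · have hac : (‖aQ 2 (b t)‖ : ℂ) ≠ 0 := by
        rw [Ne, Complex.ofReal_eq_zero, norm_eq_zero]; exact ha
      field_simp
  · unfold nn A0Q
    rw [← h]
    simp

/-- the second moment of the long edges -/
noncomputable def sigT (w : ℝ → ℝ) (b : ℝ → ℂ) : ℂ :=
  (1 / (2 * Real.pi) : ℂ) * ∫ t in (0 : ℝ)..(2 * Real.pi), nn 2 (A0Q w 2 b t)

theorem nn_bm {f : ℝ → ℂ} {C : ℝ} (hf : BM f C) (n : ℕ) : BM (fun t => nn n (f t)) C :=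
  ⟨(measurable_nn n).comp hf.m, fun t => (norm_nn_le n _).trans (hf.b t)⟩

theorem sg2_split {b z : ℝ → ℂ} (h : AdmQ 2 b z) {w : ℝ → ℝ} (hw : Wgt w) :
    sgG (A0Q w 2 b) (AAQ w 2 b) (BBQ w 2 b) (vvS w z) 2 = sigT w b + sM (F1Q w 2 b z) (F2Q w 2 b z) 2 := by
  obtain ⟨C, hC⟩ := hexQ (by norm_num : (0 : ℝ) < 2) h hw
  have bA : BM (A0Q w 2 b) C := ⟨hC.m0, hC.b0⟩
  have p1 : ∀ t, (AAQ w 2 b (t + 2 * Real.pi) + vvS w z (t + 2 * Real.pi)) = AAQ w 2 b t + vvS w z t := fun t => by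
    rw [show t + 2 * Real.pi = t + Real.pi + Real.pi by ring, hC.q.pA, hC.q.pA, hC.q.pv, hC.q.pv]; ring
  have p2 : ∀ t, (BBQ w 2 b (t + 2 * Real.pi) - vvS w z (t + 2 * Real.pi)) = BBQ w 2 b t - vvS w z t := fun t => by
    rw [show t + 2 * Real.pi = t + Real.pi + Real.pi by ring, hC.q.pB, hC.q.pB, hC.q.pv, hC.q.pv]; ring
  have b1 : BM (fun t => AAQ w 2 b t + vvS w z t) (C + C) :=
    ⟨hC.q.mA.add hC.q.mv, fun t => (norm_add_le _ _).trans (add_le_add (hC.q.bA t) (hC.q.bv t))⟩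
  have b2 : BM (fun t => BBQ w 2 b t - vvS w z t) (C + C) :=
    ⟨hC.q.mB.sub hC.q.mv, fun t => (norm_sub_le _ _).trans (add_le_add (hC.q.bB t) (hC.q.bv t))⟩
  have i0 := (nn_bm bA 2).i 0 (2 * Real.pi)
  have i1 := (nn_bm b1 2).i 0 (2 * Real.pi)
  have i2 := (nn_bm b2 2).i 0 (2 * Real.pi)
  have e1 : (∫ t in (0 : ℝ)..(2 * Real.pi), nn 2 (AAQ w 2 b t + vvS w z t)) =
      ∫ θ in (0 : ℝ)..(2 * Real.pi), nn 2 (F1Q w 2 b z θ) := by
    have hp : Function.Periodic (fun t => nn 2 (AAQ w 2 b t + vvS w z t)) (2 * Real.pi) := fun t => by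
      show nn 2 _ = nn 2 _
      rw [p1]
    have := intervalIntegral.integral_comp_sub_right (fun t => nn 2 (AAQ w 2 b t + vvS w z t)) (Real.pi / 3)
      (a := 0) (b := 2 * Real.pi)
    show _ = ∫ θ in (0 : ℝ)..(2 * Real.pi), nn 2 (AAQ w 2 b (θ - Real.pi / 3) + vvS w z (θ - Real.pi / 3))
    rw [this, shiftC hp (0 - Real.pi / 3)]
    congr 1
    ring
  have e2 : (∫ t in (0 : ℝ)..(2 * Real.pi), nn 2 (BBQ w 2 b t - vvS w z t)) =
      ∫ θ in (0 : ℝ)..(2 * Real.pi), nn 2 (F2Q w 2 b z θ) := by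
    have hp : Function.Periodic (fun t => nn 2 (BBQ w 2 b t - vvS w z t)) (2 * Real.pi) := fun t => by
      show nn 2 _ = nn 2 _
      rw [p2]
    have := intervalIntegral.integral_comp_sub_right (fun t => nn 2 (BBQ w 2 b t - vvS w z t)) (2 * Real.pi / 3)
      (a := 0) (b := 2 * Real.pi)
    show _ = ∫ θ in (0 : ℝ)..(2 * Real.pi), nn 2 (BBQ w 2 b (θ - 2 * Real.pi / 3) - vvS w z (θ - 2 * Real.pi / 3))
    rw [this, shiftC hp (0 - 2 * Real.pi / 3)]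
    congr 1
    ring
  have bF1 : BM (F1Q w 2 b z) (C + C) := ⟨b1.m.comp (measurable_id.sub_const _), fun t => b1.b _⟩
  have bF2 : BM (F2Q w 2 b z) (C + C) := ⟨b2.m.comp (measurable_id.sub_const _), fun t => b2.b _⟩
  unfold sgG sigT sM
  rw [intervalIntegral.integral_add (i0.add i1) i2, intervalIntegral.integral_add i0 i1, e1, e2, add_assoc,
    ← intervalIntegral.integral_add ((nn_bm bF1 2).i _ _) ((nn_bm bF2 2).i _ _), mul_add]
  congr 3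
  funext θ
  rw [nn2_al, nn2_al]

/-- the linearised second moment: `(w b₂)_2 - i (w b₃)_2` -/
noncomputable def sigB (w : ℝ → ℝ) (b : ℝ → ℂ) : ℂ :=
  fc (fun t => ((w t * (b t).re : ℝ) : ℂ)) 2 - Complex.I * fc (fun t => ((w t * (b t).im : ℝ) : ℂ)) 2

theorem sigT_near {b z : ℝ → ℂ} (h : AdmQ 2 b z) {w : ℝ → ℝ} (hw : Wgt w) :
    ‖sigT w b - (fc (fun t => (w t : ℂ)) 2 + sigB w b)‖
      ≤ 1 / 2 * (1 / (2 * Real.pi) * ∫ t in (0 : ℝ)..(2 * Real.pi), w t * ‖b t‖ ^ 2) := by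
  obtain ⟨C, hC⟩ := hexQ (by norm_num : (0 : ℝ) < 2) h hw
  obtain ⟨Cw, hCw⟩ := bmw hw
  obtain ⟨Cp, hCp⟩ := bmp h hw
  obtain ⟨Cr, hCr⟩ := bmr h hw
  have bA : BM (A0Q w 2 b) C := ⟨hC.m0, hC.b0⟩
  have hpi : (0 : ℝ) < 2 * Real.pi := by positivity
  have hE : Measurable (fun t : ℝ => ee (-(((2 : ℤ) : ℝ) * t))) :=
    (continuous_ee.comp ((continuous_const.mul continuous_id).neg)).measurable
  have bE : ∀ {f : ℝ → ℂ} {D : ℝ}, BM f D → BM (fun t => f t * ee (-(((2 : ℤ) : ℝ) * t))) D := fun {f D} hf =>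
    ⟨hf.m.mul hE, fun t => by rw [norm_mul, norm_ee, mul_one]; exact hf.b t⟩
  have bw : ∀ t, |w t * ‖b t‖ ^ 2| ≤ Cw := fun t => by
    have h1 : ‖b t‖ ^ 2 ≤ 1 := by
      obtain ⟨δ, hδ, hb⟩ := h.bdb
      have : ‖b t‖ ≤ 1 := by linarith [hb t]
      nlinarith [norm_nonneg (b t)]
    have h2 : w t ≤ Cw := by
      have := hCw.b t
      rw [Complex.norm_real, Real.norm_of_nonneg (hw.nonneg t)] at this
      exact this
    rw [abs_of_nonneg (mul_nonneg (hw.nonneg t) (by positivity))]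
    nlinarith [hw.nonneg t, norm_nonneg (b t), mul_nonneg (hw.nonneg t) (by linarith : 0 ≤ 1 - ‖b t‖ ^ 2)]
  have e0 : sigT w b - (fc (fun t => (w t : ℂ)) 2 + sigB w b) = (1 / (2 * Real.pi) : ℂ) *
      ∫ t in (0 : ℝ)..(2 * Real.pi), (w t : ℂ) * ((starRingEnd ℂ) (aQ 2 (b t)) ^ 2 / (‖aQ 2 (b t)‖ : ℂ)
        - (1 + ((b t).re : ℂ) - Complex.I * ((b t).im : ℂ))) * ee (-(2 * t)) := by
    unfold sigT sigB fc
    have k1 := (bE hCw).i 0 (2 * Real.pi)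
    have k2 := (bE hCp).i 0 (2 * Real.pi)
    have k3 := (bE hCr).i 0 (2 * Real.pi)
    have k0 := (nn_bm bA 2).i 0 (2 * Real.pi)
    have e5 : (∫ t in (0 : ℝ)..(2 * Real.pi), (w t : ℂ) * ((starRingEnd ℂ) (aQ 2 (b t)) ^ 2 / (‖aQ 2 (b t)‖ : ℂ)
        - (1 + ((b t).re : ℂ) - Complex.I * ((b t).im : ℂ))) * ee (-(2 * t))) =
        ∫ t in (0 : ℝ)..(2 * Real.pi), (nn 2 (A0Q w 2 b t) - ((w t : ℂ) * ee (-(((2 : ℤ) : ℝ) * t))
          + ((w t * (b t).re : ℝ) : ℂ) * ee (-(((2 : ℤ) : ℝ) * t))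
          - Complex.I * (((w t * (b t).im : ℝ) : ℂ) * ee (-(((2 : ℤ) : ℝ) * t))))) := by
      apply intervalIntegral.integral_congr
      intro t _
      simp only
      rw [nn2_A0Q hw.nonneg]
      push_cast
      ring
    rw [e5, intervalIntegral.integral_sub k0 ((k1.add k2).sub (k3.const_mul _)),
      intervalIntegral.integral_sub (k1.add k2) (k3.const_mul _), intervalIntegral.integral_add k1 k2,
      intervalIntegral.integral_const_mul]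
    ring
  rw [e0, norm_mul]
  have e6 : ‖(1 / (2 * Real.pi) : ℂ)‖ = 1 / (2 * Real.pi) := by
    rw [show (1 / (2 * Real.pi) : ℂ) = ((1 / (2 * Real.pi) : ℝ) : ℂ) by push_cast; rfl, Complex.norm_real,
      Real.norm_of_nonneg (by positivity)]
  rw [e6]
  have mb2 : Measurable fun t => w t * ‖b t‖ ^ 2 := hw.m.mul (h.mb.norm.pow_const 2)
  have e7 : ‖∫ t in (0 : ℝ)..(2 * Real.pi), (w t : ℂ) * ((starRingEnd ℂ) (aQ 2 (b t)) ^ 2 / (‖aQ 2 (b t)‖ : ℂ)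
        - (1 + ((b t).re : ℂ) - Complex.I * ((b t).im : ℂ))) * ee (-(2 * t))‖
      ≤ ∫ t in (0 : ℝ)..(2 * Real.pi), 1 / 2 * (w t * ‖b t‖ ^ 2) := by
    refine intervalIntegral.norm_integral_le_of_norm_le hpi.le (ae_of_all _ fun t _ => ?_)
      ((intg_real mb2 bw _ _).const_mul _)
    rw [norm_mul, norm_mul, norm_ee, mul_one, Complex.norm_real, Real.norm_of_nonneg (hw.nonneg t)]
    obtain ⟨δ, hδ, hb⟩ := h.bdb
    have := mul_le_mul_of_nonneg_left (pair_pt (b t) (by linarith [hb t])) (hw.nonneg t)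
    linarith
  rw [intervalIntegral.integral_const_mul] at e7
  have := mul_le_mul_of_nonneg_left e7 (by positivity : (0 : ℝ) ≤ 1 / (2 * Real.pi))
  linarith

/-- THE PAIRING OF THE HARMONIC 2, tangent at `τ` -/
theorem pair_tau {b z : ℝ → ℂ} (h : AdmQ 2 b z) {w : ℝ → ℝ} (hw : Wgt w) (τ : ℂ) :
    4 / 3 * (τ * (starRingEnd ℂ) (sM (F1Q w 2 b z) (F2Q w 2 b z) 2)).re
      + 4 / 3 * ((starRingEnd ℂ) τ * (fc (fun t => (w t : ℂ)) 2 + sigB w b)).re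
      - 2 / 3 * ‖τ‖ ^ 2
      - 2 / 3 * ‖τ‖ * (1 / (2 * Real.pi) * ∫ t in (0 : ℝ)..(2 * Real.pi), w t * ‖b t‖ ^ 2)
    ≤ 2 / 3 * ‖sgG (A0Q w 2 b) (AAQ w 2 b) (BBQ w 2 b) (vvS w z) 2‖ ^ 2 := by
  rw [sg2_split h hw]
  set s := sM (F1Q w 2 b z) (F2Q w 2 b z) 2
  set M := 1 / (2 * Real.pi) * ∫ t in (0 : ℝ)..(2 * Real.pi), w t * ‖b t‖ ^ 2
  set σ := fc (fun t => (w t : ℂ)) 2 + sigB w b
  have h1 : ‖sigT w b - σ‖ ≤ 1 / 2 * M := sigT_near h hw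
  set T := sigT w b
  have h2 : |((starRingEnd ℂ) τ * (T - σ)).re| ≤ ‖τ‖ * (1 / 2 * M) := by
    refine (Complex.abs_re_le_norm _).trans ?_
    rw [norm_mul, RCLike.norm_conj]
    exact mul_le_mul_of_nonneg_left h1 (norm_nonneg _)
  have h3 : 0 ≤ ‖T + s - τ‖ ^ 2 := sq_nonneg _
  have e : ∀ z : ℂ, ‖z‖ ^ 2 = z.re ^ 2 + z.im ^ 2 := fun z => by rw [Complex.sq_norm, Complex.normSq_apply]; ring
  have h4 := (abs_le.1 h2).1
  rw [e] at h3
  rw [e (T + s), e τ]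
  simp only [Complex.mul_re, Complex.add_re, Complex.add_im, Complex.sub_re, Complex.sub_im, Complex.conj_re,
    Complex.conj_im] at h3 h4 ⊢
  nlinarith

end Pool.Agent.Helper20.RC
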