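import Pool.Agent.Helper49.RC.StSharp
import Pool.Agent.Helper20.RC.Pair2

/-! # Project RC, SHARP: module PAIR -/

open MeasureTheory Set Filter Topology

namespace Pool.Agent.Helper20.RC

open Helper49.LT hiding sg
open Helper49.RC Helper87.RC Helper44.GQ
open Helper56.RC (fc)

/-- PAIR -/
theorem hPAIR : Helper49.Sharp.StPair := by
  intro P b z h hR
  have hw : Wgt P.w := wR_wgt (by
    have := hR.eta
    simp only [norm_zero, add_zero]
    linarith)
  have h0 := pair_tau h hw (P.sig b)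
  have e1 : sigB P.w b = P.sig b := rfl
  have e2 : fc (fun t => (P.w t : ℂ)) 2 = P.eta := by
    have h1 : (fun t => (P.w t : ℂ)) = wt P.eta 0 0 := by
      funext t
      exact (wt_wR P.eta 0 0 t).symm
    rw [h1, fc_wt]
    simp
  rw [e1, e2] at h0
  have e3 : 4 / 3 * ((starRingEnd ℂ) (P.sig b) * (P.eta + P.sig b)).re =
      4 / 3 * ((starRingEnd ℂ) (P.sig b) * P.eta).re + 4 / 3 * ‖P.sig b‖ ^ 2 := by
    rw [Complex.sq_norm, Complex.normSq_apply]
    simp only [Complex.mul_re, Complex.add_re, Complex.add_im, Complex.conj_re, Complex.conj_im]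
    ring
  rw [e3] at h0
  have e4 : Helper49.Sharp.mean (fun t => P.w t * ‖b t‖ ^ 2) =
      1 / (2 * Real.pi) * ∫ t in (0 : ℝ)..(2 * Real.pi), P.w t * ‖b t‖ ^ 2 := rfl
  rw [e4]
  have e5 : P.F1 b z = F1Q P.w 2 b z := rfl
  have e6 : P.F2 b z = F2Q P.w 2 b z := rfl
  rw [e5, e6]
  linarith

end Pool.Agent.Helper20.RC
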