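import Pool.Agent.Helper35.RC.Rot

/-!
# Project RC, SHARP: the symmetries (rotations and the reflection)

`rq_sym`: `Rq q κ` follows from the data with `A = |A|` and `0 ≤ arg B ≤ π/3`, `A = fc z (-3)`, `B = fc z (-5)`.
`rq_sym2`: two cases: `|B| ≤ ρ |A|`: as before; `|B| > ρ |A|`: `B = |B|` and `0 ≤ arg A ≤ π/5`.
-/

open MeasureTheory Set Filter Topology

namespace Pool.Agent.Helper20.RC

open Helper49.LT hiding sg
open Helper49.RC Helper87.RC Helper44.GQ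
open Helper56.RC (fc)
open Pool.Agent.Helper35.RC (per_shift admQ_shift wgt_shift mQ_shift FMQ_shift exists_rot)

/-- the target for one pair of data -/
def Goal (q κ : ℝ) (b z : ℝ → ℂ) : Prop := ∃ w : ℝ → ℝ, Wgt w ∧ 9 * κ * (mQ w b) ^ 2 ≤ FMQ w q b z

theorem goal_shift {q κ : ℝ} {b z : ℝ → ℂ} (h : AdmQ q b z) (τ : ℝ)
    (hG : Goal q κ (fun t => b (t + τ)) (fun t => z (t + τ))) : Goal q κ b z := by
  obtain ⟨w, hw, hle⟩ := hG
  refine ⟨fun t => w (t + -τ), wgt_shift hw (-τ), ?_⟩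
  have e1 := FMQ_shift (admQ_shift h τ) hw.per (-τ)
  have e2 := mQ_shift (b := fun t => b (t + τ)) hw.per (fun t => by
    have := h.perb (t + τ)
    rw [show t + Real.pi + τ = t + τ + Real.pi by ring]
    exact this) (-τ)
  have eb : (fun t => b (t + -τ + τ)) = b := by funext t; congr 1; ring
  have ez : (fun t => z (t + -τ + τ)) = z := by funext t; congr 1; ring
  rw [eb, ez] at e1
  rw [eb] at e2
  rw [e1, e2]
  exact hle

/-- the reflected data -/
noncomputable def rb (b : ℝ → ℂ) (t : ℝ) : ℂ := (starRingEnd ℂ) (b (-t))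
noncomputable def rz (z : ℝ → ℂ) (t : ℝ) : ℂ := -(starRingEnd ℂ) (z (-t))

theorem rb_rb (b : ℝ → ℂ) : rb (rb b) = b := by
  funext t
  simp [rb]

theorem rz_rz (z : ℝ → ℂ) : rz (rz z) = z := by
  funext t
  simp [rz]

theorem aQ_conj (q : ℝ) (b : ℂ) : aQ q ((starRingEnd ℂ) b) = (starRingEnd ℂ) (aQ q b) := by
  unfold aQ
  apply Complex.ext
  · simp
  · simp
    ring

theorem cQ_conj (q : ℝ) (b : ℂ) : cQ q ((starRingEnd ℂ) b) = -(starRingEnd ℂ) (cQ q b) := by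
  unfold cQ
  rw [map_mul, map_add, map_mul, Complex.conj_I, map_sub, map_one, Complex.conj_ofReal, Complex.conj_ofReal, map_div₀,
    Complex.conj_ofReal, Complex.conj_re, Complex.conj_im, Complex.conj_ofNat]
  push_cast
  ring

theorem neg_per {E : Type} (f : ℝ → E) (t : ℝ) (h : ∀ t, f (t + Real.pi) = f t) : f (-(t + Real.pi)) = f (-t) := by
  rw [← h (-(t + Real.pi))]
  congr 1
  ring

theorem admQ_refl {q : ℝ} {b z : ℝ → ℂ} (h : AdmQ q b z) : AdmQ q (rb b) (rz z) := by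
  obtain ⟨δ, hδ, hb⟩ := h.bdb
  refine ⟨?_, ?_, ?_, ?_, ⟨δ, hδ, fun t => ?_⟩, fun t => ?_⟩
  · exact Complex.continuous_conj.measurable.comp (h.mb.comp measurable_neg)
  · exact (Complex.continuous_conj.measurable.comp (h.mz.comp measurable_neg)).neg
  · intro t
    unfold rb
    rw [neg_per b t h.perb]
  · intro t
    unfold rz
    have h1 := h.perz (-(t + Real.pi))
    rw [show -(t + Real.pi) + Real.pi = -t by ring] at h1
    rw [h1, map_neg, neg_neg]
  · unfold rb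
    rw [RCLike.norm_conj]
    exact hb (-t)
  · obtain ⟨X, Y, hX, hY, hz⟩ := h.reg (-t)
    refine ⟨-X, Y, by rw [abs_neg]; exact hX, hY, ?_⟩
    unfold rb rz
    rw [hz, aQ_conj, cQ_conj, map_add, map_mul, map_mul, Complex.conj_ofReal, Complex.conj_ofReal]
    push_cast
    ring

theorem wgt_refl {w : ℝ → ℝ} (h : Wgt w) : Wgt (fun t => w (-t)) := by
  obtain ⟨C, hC⟩ := h.bd
  have w2 : ∀ t, w (t + 2 * Real.pi) = w t := by
    intro t
    rw [show t + 2 * Real.pi = t + Real.pi + Real.pi by ring, h.per, h.per]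
  refine ⟨h.m.comp measurable_neg, fun t => h.nonneg _, ⟨C, fun t => hC _⟩, fun t => neg_per w t h.per, ?_⟩
  have := h.pos
  rw [intervalIntegral.integral_comp_neg]
  have h3 := per_shift w w2 (-(2 * Real.pi))
  have h4 := intervalIntegral.integral_comp_add_right w (a := 0) (b := 2 * Real.pi) (-(2 * Real.pi))
  rw [h4] at h3
  rw [show (0 : ℝ) + -(2 * Real.pi) = -(2 * Real.pi) by ring, show 2 * Real.pi + -(2 * Real.pi) = -0 by ring] at h3
  rw [h3]
  exact this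

theorem int_neg {E : Type} [NormedAddCommGroup E] [NormedSpace ℝ E] (f : ℝ → E)
    (hp : ∀ t, f (t + 2 * Real.pi) = f t) :
    ∫ t in (0 : ℝ)..(2 * Real.pi), f (-t) = ∫ t in (0 : ℝ)..(2 * Real.pi), f t := by
  rw [intervalIntegral.integral_comp_neg]
  have h3 := per_shift f hp (-(2 * Real.pi))
  have h4 := intervalIntegral.integral_comp_add_right f (a := 0) (b := 2 * Real.pi) (-(2 * Real.pi))
  rw [h4] at h3
  rw [show (0 : ℝ) + -(2 * Real.pi) = -(2 * Real.pi) by ring, show 2 * Real.pi + -(2 * Real.pi) = -0 by ring] at h3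
  exact h3

theorem mQ_refl {w : ℝ → ℝ} {b : ℝ → ℂ} (hw : ∀ t, w (t + Real.pi) = w t)
    (hb : ∀ t, b (t + Real.pi) = b t) : mQ (fun t => w (-t)) (rb b) = mQ w b := by
  unfold mQ
  congr 1
  have := int_neg (fun t => w t * Real.sqrt (1 - ‖b t‖ ^ 2)) (fun t => by
    rw [show t + 2 * Real.pi = t + Real.pi + Real.pi by ring, hw, hw, hb, hb])
  rw [← this]
  apply intervalIntegral.integral_congr
  intro t _
  simp only [rb, RCLike.norm_conj]

theorem nn_conj (n : ℕ) (x : ℂ) : nn n ((starRingEnd ℂ) x) = (starRingEnd ℂ) (nn n x) := by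
  unfold nn
  rw [map_mul, map_pow, map_div₀, Complex.conj_ofReal, RCLike.norm_conj]

theorem int_conj (f : ℝ → ℂ) (a b : ℝ) :
    ∫ t in a..b, (starRingEnd ℂ) (f t) = (starRingEnd ℂ) (∫ t in a..b, f t) := by
  rw [intervalIntegral.intervalIntegral_eq_integral_uIoc, intervalIntegral.intervalIntegral_eq_integral_uIoc,
    integral_conj]
  split_ifs <;> simp

theorem sgE_refl {e0 e1 e2 f0 f1 f2 : ℝ → ℂ} {C : ℝ}
    (m0 : BM e0 C) (m1 : BM e1 C) (m2 : BM e2 C)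
    (h0 : ∀ t, f0 t = (starRingEnd ℂ) (e0 (-t))) (h1 : ∀ t, f1 (t + Real.pi) = (starRingEnd ℂ) (e2 (-t)))
    (h2 : ∀ t, f2 (t + Real.pi) = (starRingEnd ℂ) (e1 (-t)))
    (p0 : ∀ t, e0 (t + 2 * Real.pi) = e0 t) (p1 : ∀ t, e1 (t + 2 * Real.pi) = e1 t)
    (p2 : ∀ t, e2 (t + 2 * Real.pi) = e2 t)
    (q1 : ∀ t, f1 (t + 2 * Real.pi) = f1 t) (q2 : ∀ t, f2 (t + 2 * Real.pi) = f2 t) (n : ℕ) :
    sgE f0 f1 f2 n = (starRingEnd ℂ) (sgE e0 e1 e2 n) := by
  have hb : ∀ {e : ℝ → ℂ}, BM e C → BM (fun t => nn n (e t)) C := fun {e} he =>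
    ⟨(measurable_nn n).comp he.m, fun t => (norm_nn_le n _).trans (he.b t)⟩
  have hbc : ∀ {e : ℝ → ℂ}, BM e C → BM (fun t => (starRingEnd ℂ) (nn n (e (-t)))) C := fun {e} he =>
    ⟨Complex.continuous_conj.measurable.comp ((hb he).m.comp measurable_neg), fun t => by
      rw [RCLike.norm_conj]; exact (hb he).b _⟩
  have key : ∀ (e : ℝ → ℂ), BM e C → (∀ t, e (t + 2 * Real.pi) = e t) →
      ∫ t in (0 : ℝ)..(2 * Real.pi), (starRingEnd ℂ) (nn n (e (-t))) =
        (starRingEnd ℂ) (∫ t in (0 : ℝ)..(2 * Real.pi), nn n (e t)) := by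
    intro e _ hp
    rw [int_conj (fun t => nn n (e (-t)))]
    congr 1
    exact int_neg (fun t => nn n (e t)) (fun t => by rw [hp])
  have k0 : ∀ t, nn n (f0 t) = (starRingEnd ℂ) (nn n (e0 (-t))) := fun t => by rw [h0, nn_conj]
  have k1 : ∀ t, nn n (f1 (t + Real.pi)) = (starRingEnd ℂ) (nn n (e2 (-t))) := fun t => by rw [h1, nn_conj]
  have k2 : ∀ t, nn n (f2 (t + Real.pi)) = (starRingEnd ℂ) (nn n (e1 (-t))) := fun t => by rw [h2, nn_conj]
  have b1 : BM (fun t => nn n (f1 t)) C := by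
    have : (fun t => nn n (f1 t)) = fun t => (starRingEnd ℂ) (nn n (e2 (-(t - Real.pi)))) := by
      funext t
      rw [← k1 (t - Real.pi), sub_add_cancel]
    rw [this]
    exact ⟨(hbc m2).m.comp (measurable_id.sub_const _), fun t => (hbc m2).b _⟩
  have b2 : BM (fun t => nn n (f2 t)) C := by
    have : (fun t => nn n (f2 t)) = fun t => (starRingEnd ℂ) (nn n (e1 (-(t - Real.pi)))) := by
      funext t
      rw [← k2 (t - Real.pi), sub_add_cancel]
    rw [this]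
    exact ⟨(hbc m1).m.comp (measurable_id.sub_const _), fun t => (hbc m1).b _⟩
  have b0 : BM (fun t => nn n (f0 t)) C := by
    have : (fun t => nn n (f0 t)) = fun t => (starRingEnd ℂ) (nn n (e0 (-t))) := funext k0
    rw [this]
    exact hbc m0
  have s1 := per_shift (fun t => nn n (f1 t)) (fun t => by rw [q1]) Real.pi
  have s2 := per_shift (fun t => nn n (f2 t)) (fun t => by rw [q2]) Real.pi
  have t0 : ∫ t in (0 : ℝ)..(2 * Real.pi), nn n (f0 t) =
      (starRingEnd ℂ) (∫ t in (0 : ℝ)..(2 * Real.pi), nn n (e0 t)) := by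
    rw [← key e0 m0 p0]
    exact intervalIntegral.integral_congr fun t _ => k0 t
  have t1 : ∫ t in (0 : ℝ)..(2 * Real.pi), nn n (f1 t) =
      (starRingEnd ℂ) (∫ t in (0 : ℝ)..(2 * Real.pi), nn n (e2 t)) := by
    rw [← s1, ← key e2 m2 p2]
    exact intervalIntegral.integral_congr fun t _ => k1 t
  have t2 : ∫ t in (0 : ℝ)..(2 * Real.pi), nn n (f2 t) =
      (starRingEnd ℂ) (∫ t in (0 : ℝ)..(2 * Real.pi), nn n (e1 t)) := by
    rw [← s2, ← key e1 m1 p1]
    exact intervalIntegral.integral_congr fun t _ => k2 t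
  unfold sgE
  rw [intervalIntegral.integral_add ((b0.i _ _).add (b1.i _ _)) (b2.i _ _),
    intervalIntegral.integral_add (b0.i _ _) (b1.i _ _),
    intervalIntegral.integral_add (((hb m0).i _ _).add ((hb m1).i _ _)) ((hb m2).i _ _),
    intervalIntegral.integral_add ((hb m0).i _ _) ((hb m1).i _ _), t0, t1, t2, map_mul, map_add, map_add]
  have hc : (starRingEnd ℂ) (1 / (2 * Real.pi) : ℂ) = (1 / (2 * Real.pi) : ℂ) := by
    rw [show (1 / (2 * Real.pi) : ℂ) = ((1 / (2 * Real.pi) : ℝ) : ℂ) by push_cast; rfl, Complex.conj_ofReal]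
  rw [hc]
  ring

theorem FMQ_refl {w : ℝ → ℝ} (hw : Wgt w) {q : ℝ} (hq : 0 < q) {b z : ℝ → ℂ} (h : AdmQ q b z) :
    FMQ (fun t => w (-t)) q (rb b) (rz z) = FMQ w q b z := by
  obtain ⟨C, hC⟩ := hexQ hq h hw
  have pi2 : ∀ t : ℝ, t + 2 * Real.pi = t + Real.pi + Real.pi := fun t => by ring
  have w2 : ∀ t, w (t + 2 * Real.pi) = w t := fun t => by rw [pi2, hw.per, hw.per]
  have b2 : ∀ t, b (t + 2 * Real.pi) = b t := fun t => by rw [pi2, h.perb, h.perb]
  have z2 : ∀ t, z (t + 2 * Real.pi) = z t := fun t => by rw [pi2, h.perz, h.perz, neg_neg]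
  have ee2 : ∀ t, ee (t + 2 * Real.pi) = ee t := ee_per
  have h' := admQ_refl h
  have w2' : ∀ t, w (-(t + 2 * Real.pi)) = w (-t) := fun t => by
    rw [← w2 (-(t + 2 * Real.pi))]; congr 1; ring
  have w1' : ∀ t, w (-(t + Real.pi)) = w (-t) := fun t => neg_per w t hw.per
  have b1' : ∀ t, rb b (t + Real.pi) = rb b t := h'.perb
  have z1' : ∀ t, rz z (t + Real.pi) = -rz z t := h'.perz
  have b2' : ∀ t, rb b (t + 2 * Real.pi) = rb b t := fun t => by rw [pi2, b1', b1']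
  have z2' : ∀ t, rz z (t + 2 * Real.pi) = rz z t := fun t => by rw [pi2, z1', z1', neg_neg]
  have m0 : BM (A0Q w q b) (C + C) := ⟨hC.m0, fun t => (hC.b0 t).trans (by
    have := (norm_nonneg _).trans (hC.b0 0)
    linarith)⟩
  have m1 : BM (fun t => AAQ w q b t + vvS w z t) (C + C) :=
    ⟨hC.q.mA.add hC.q.mv, fun t => (norm_add_le _ _).trans (add_le_add (hC.q.bA t) (hC.q.bv t))⟩
  have m2 : BM (fun t => BBQ w q b t - vvS w z t) (C + C) :=
    ⟨hC.q.mB.sub hC.q.mv, fun t => (norm_sub_le _ _).trans (add_le_add (hC.q.bB t) (hC.q.bv t))⟩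
  have ec : ∀ t : ℝ, (starRingEnd ℂ) (ee (-t)) = ee t := fun t => by rw [← ee_neg, neg_neg]
  have hs : ∀ n, sgE (A0Q (fun t => w (-t)) q (rb b)) (fun t => AAQ (fun t => w (-t)) q (rb b) t
      + vvS (fun t => w (-t)) (rz z) t) (fun t => BBQ (fun t => w (-t)) q (rb b) t
      - vvS (fun t => w (-t)) (rz z) t) n =
      (starRingEnd ℂ) (sgE (A0Q w q b) (fun t => AAQ w q b t + vvS w z t) (fun t => BBQ w q b t - vvS w z t) n) := by
    intro n
    refine sgE_refl m0 m1 m2 ?_ ?_ ?_ ?_ ?_ ?_ ?_ ?_ n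
    · intro t
      unfold A0Q rb
      rw [aQ_conj, map_mul, map_mul, Complex.conj_ofReal, ec]
    · intro t
      unfold AAQ BBQ vvS
      beta_reduce
      rw [w1', b1', z1', RED.ee_add_pi]
      unfold rb rz
      rw [aQ_conj, cQ_conj, map_sub, map_mul, map_mul, map_mul, map_mul, Complex.conj_ofReal, ec, map_sub, map_mul,
        map_div₀, map_one, Complex.conj_ofNat]
      ring
    · intro t
      unfold AAQ BBQ vvS
      beta_reduce
      rw [w1', b1', z1', RED.ee_add_pi]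
      unfold rb rz
      rw [aQ_conj, cQ_conj, map_add, map_mul, map_mul, map_mul, map_mul, Complex.conj_ofReal, ec, map_add, map_mul,
        map_div₀, map_one, Complex.conj_ofNat]
      ring
    · intro t
      unfold A0Q
      rw [w2, b2, ee2]
    · intro t
      unfold AAQ vvS
      rw [w2, b2, ee2, z2]
    · intro t
      unfold BBQ vvS
      rw [w2, b2, ee2, z2]
    · intro t
      unfold AAQ vvS
      beta_reduce
      rw [w2', b2', ee2, z2']
    · intro t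
      unfold BBQ vvS
      beta_reduce
      rw [w2', b2', ee2, z2']
  have hn : ∀ n, ‖sgE (A0Q (fun t => w (-t)) q (rb b)) (fun t => AAQ (fun t => w (-t)) q (rb b) t
      + vvS (fun t => w (-t)) (rz z) t) (fun t => BBQ (fun t => w (-t)) q (rb b) t
      - vvS (fun t => w (-t)) (rz z) t) n‖ =
      ‖sgE (A0Q w q b) (fun t => AAQ w q b t + vvS w z t) (fun t => BBQ w q b t - vvS w z t) n‖ := fun n => by
    rw [hs, RCLike.norm_conj]
  unfold FMQ FME
  simp_rw [hn]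

theorem goal_refl {q κ : ℝ} (hq : 0 < q) {b z : ℝ → ℂ} (h : AdmQ q b z) (hG : Goal q κ (rb b) (rz z)) :
    Goal q κ b z := by
  obtain ⟨w, hw, hle⟩ := hG
  refine ⟨fun t => w (-t), wgt_refl hw, ?_⟩
  have e1 := FMQ_refl hw hq (admQ_refl h)
  have e2 := mQ_refl hw.per (admQ_refl h).perb
  rw [rb_rb, rz_rz] at e1
  rw [rb_rb] at e2
  rw [e1, e2]
  exact hle

theorem fc_rz {z : ℝ → ℂ} (z2 : ∀ t, z (t + 2 * Real.pi) = z t) (n : ℤ) :
    fc (rz z) n = -(starRingEnd ℂ) (fc z n) := by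
  unfold fc
  have e : ∀ t : ℝ, rz z t * ee (-((n : ℝ) * t)) = -(starRingEnd ℂ) (z (-t) * ee (-((n : ℝ) * (-t)))) := by
    intro t
    unfold rz
    rw [map_mul, ← ee_neg]
    rw [show - -((n : ℝ) * -t) = -((n : ℝ) * t) by ring]
    ring
  have e1 : (∫ t in (0 : ℝ)..(2 * Real.pi), rz z t * ee (-((n : ℝ) * t))) =
      -(starRingEnd ℂ) (∫ t in (0 : ℝ)..(2 * Real.pi), z t * ee (-((n : ℝ) * t))) := by
    have h1 := int_neg (fun t => z t * ee (-((n : ℝ) * t))) (fun t => by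
      rw [z2, show -((n : ℝ) * (t + 2 * Real.pi)) = ((-n : ℤ) : ℝ) * (t + 2 * Real.pi) by push_cast; ring,
        ee_int, show ((-n : ℤ) : ℝ) * t = -((n : ℝ) * t) by push_cast; ring])
    rw [← h1, ← int_conj, ← intervalIntegral.integral_neg]
    exact intervalIntegral.integral_congr fun t _ => e t
  rw [e1, map_mul]
  have hc : (starRingEnd ℂ) (1 / (2 * Real.pi) : ℂ) = (1 / (2 * Real.pi) : ℂ) := by
    rw [show (1 / (2 * Real.pi) : ℂ) = ((1 / (2 * Real.pi) : ℝ) : ℂ) by push_cast; rfl, Complex.conj_ofReal]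
  rw [hc]
  ring

theorem ee_two_pi_int (m : ℤ) : ee ((m : ℝ) * (2 * Real.pi)) = 1 := by
  have h := ee_int m 0
  rw [zero_add, mul_zero, ee_zero] at h
  exact h

/-- the angle of `c` modulo `2π/N` -/
theorem round_angle (c : ℂ) (N : ℕ) (hN : 0 < N) : ∃ (m : ℤ) (θ : ℝ), |θ| ≤ Real.pi / N ∧
    c = (‖c‖ : ℂ) * ee (θ + 2 * Real.pi * m / N) := by
  have hpi := Real.pi_pos
  have hN' : (0 : ℝ) < N := by exact_mod_cast hN
  refine ⟨round (c.arg * N / (2 * Real.pi)), c.arg - 2 * Real.pi * round (c.arg * N / (2 * Real.pi)) / N, ?_, ?_⟩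
  · have h1 := abs_sub_round (c.arg * N / (2 * Real.pi))
    have e : c.arg - 2 * Real.pi * round (c.arg * N / (2 * Real.pi)) / N =
        (2 * Real.pi / N) * (c.arg * N / (2 * Real.pi) - round (c.arg * N / (2 * Real.pi))) := by
      field_simp
    rw [e, abs_mul, abs_of_pos (by positivity)]
    calc 2 * Real.pi / N * |c.arg * N / (2 * Real.pi) - round (c.arg * N / (2 * Real.pi))|
        ≤ 2 * Real.pi / N * (1 / 2) := mul_le_mul_of_nonneg_left h1 (by positivity)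
      _ = Real.pi / N := by ring
  · have e : c.arg - 2 * Real.pi * round (c.arg * N / (2 * Real.pi)) / N
        + 2 * Real.pi * round (c.arg * N / (2 * Real.pi)) / N = c.arg := by ring
    rw [e]
    unfold ee
    rw [Complex.norm_mul_exp_arg_mul_I]

theorem fcshift {z : ℝ → ℂ} (z2 : ∀ t, z (t + 2 * Real.pi) = z t) (τ : ℝ) (n : ℤ) :
    fc (fun t => z (t + τ)) n = ee ((n : ℝ) * τ) * fc z n := Pool.Agent.Helper35.RC.fc_shift z z2 τ n

theorem per2 {z : ℝ → ℂ} (h : ∀ t, z (t + Real.pi) = -z t) (t : ℝ) : z (t + 2 * Real.pi) = z t := by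
  rw [show t + 2 * Real.pi = t + Real.pi + Real.pi by ring, h, h, neg_neg]

/-- the reflection in the form `(A, B) ↦ (conj A, conj B)` -/
theorem goal_conj {q κ : ℝ} (hq : 0 < q) {b z : ℝ → ℂ} (h : AdmQ q b z)
    (H : ∀ b' z' : ℝ → ℂ, AdmQ q b' z' → fc z' (-3) = (starRingEnd ℂ) (fc z (-3)) →
      fc z' (-5) = (starRingEnd ℂ) (fc z (-5)) → Goal q κ b' z') : Goal q κ b z := by
  apply goal_refl hq h
  have h' := admQ_refl h
  have p' := per2 h'.perz
  refine goal_shift h' Real.pi (H _ _ (admQ_shift h' Real.pi) ?_ ?_)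
  · rw [fcshift p', fc_rz (per2 h.perz)]
    have : ee (((-3 : ℤ) : ℝ) * Real.pi) = -1 := by
      rw [show ((-3 : ℤ) : ℝ) * Real.pi = Real.pi + ((-2 : ℤ) : ℝ) * (2 * Real.pi) by push_cast; ring, ee_add, ee_pi,
        ee_two_pi_int]; ring
    rw [this]; ring
  · rw [fcshift p', fc_rz (per2 h.perz)]
    have : ee (((-5 : ℤ) : ℝ) * Real.pi) = -1 := by
      rw [show ((-5 : ℤ) : ℝ) * Real.pi = Real.pi + ((-3 : ℤ) : ℝ) * (2 * Real.pi) by push_cast; ring, ee_add, ee_pi,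
        ee_two_pi_int]; ring
    rw [this]; ring

/-- `A ≥ 0`: the rotations by `2π/3` and the reflection -/
theorem goal_sec3 {q κ : ℝ} (hq : 0 < q) {b z : ℝ → ℂ} (h : AdmQ q b z) (hA : fc z (-3) = (‖fc z (-3)‖ : ℂ))
    (H : ∀ b' z' : ℝ → ℂ, AdmQ q b' z' → fc z' (-3) = fc z (-3) → ‖fc z' (-5)‖ = ‖fc z (-5)‖ →
      0 ≤ (fc z' (-5)).im → (fc z' (-5)).im ≤ Real.sqrt 3 * (fc z' (-5)).re → Goal q κ b' z') : Goal q κ b z := by
  obtain ⟨m, θ, hθ, hB⟩ := round_angle (fc z (-5)) 3 (by norm_num)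
  have z2 := per2 h.perz
  have hpi := Real.pi_pos
  set τ : ℝ := 2 * Real.pi * (2 * m) / 3 with hτ
  have eA : fc (fun t => z (t + τ)) (-3) = fc z (-3) := by
    rw [fcshift z2, show ((-3 : ℤ) : ℝ) * τ = ((-(2 * m) : ℤ) : ℝ) * (2 * Real.pi) by rw [hτ]; push_cast; ring,
      ee_two_pi_int, one_mul]
  have eB : fc (fun t => z (t + τ)) (-5) = (‖fc z (-5)‖ : ℂ) * ee θ := by
    rw [fcshift z2]
    conv_lhs => rw [hB]
    have e1 : ee (((-5 : ℤ) : ℝ) * τ) * ee (θ + 2 * Real.pi * m / ((3 : ℕ) : ℝ)) = ee θ := by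
      rw [← ee_add, show ((-5 : ℤ) : ℝ) * τ + (θ + 2 * Real.pi * m / ((3 : ℕ) : ℝ)) =
        θ + ((-(3 * m) : ℤ) : ℝ) * (2 * Real.pi) by rw [hτ]; push_cast; ring, ee_add, ee_two_pi_int, mul_one]
    rw [← e1]
    ring
  have hsec : |((‖fc z (-5)‖ : ℂ) * ee θ).im| ≤ Real.sqrt 3 * ((‖fc z (-5)‖ : ℂ) * ee θ).re := by
    rw [Complex.im_ofReal_mul, Complex.re_ofReal_mul, ee_re, ee_im, abs_mul, abs_of_nonneg (norm_nonneg _)]
    have h2 : 1 / 2 ≤ Real.cos θ := by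
      rw [← Real.cos_abs, ← Real.cos_pi_div_three]
      apply Real.cos_le_cos_of_nonneg_of_le_pi (abs_nonneg _) (by linarith)
      norm_num at hθ
      exact hθ
    have h4 : |Real.sin θ| ≤ Real.sqrt 3 * Real.cos θ := by
      have h5 : Real.sin θ ^ 2 ≤ (Real.sqrt 3 * Real.cos θ) ^ 2 := by
        rw [mul_pow, Real.sq_sqrt (by norm_num)]
        nlinarith [Real.sin_sq_add_cos_sq θ]
      exact abs_le_of_sq_le_sq h5 (by positivity)
    nlinarith [mul_le_mul_of_nonneg_left h4 (norm_nonneg (fc z (-5)))]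
  rw [← eB] at hsec
  have nB : ‖fc (fun t => z (t + τ)) (-5)‖ = ‖fc z (-5)‖ := by
    rw [eB, norm_mul, norm_ee, mul_one, Complex.norm_real, norm_norm]
  have h' := admQ_shift h τ
  apply goal_shift h τ
  by_cases hs : 0 ≤ (fc (fun t => z (t + τ)) (-5)).im
  · rw [abs_of_nonneg hs] at hsec
    exact H _ _ h' eA nB hs hsec
  · push Not at hs
    rw [abs_of_neg hs] at hsec
    refine goal_conj hq h' fun b' z' k e3 e5 => H b' z' k ?_ ?_ ?_ ?_
    · rw [e3, eA]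
      conv_lhs => rw [hA]
      rw [Complex.conj_ofReal]
      exact hA.symm
    · rw [e5, RCLike.norm_conj, nB]
    · rw [e5, Complex.conj_im]; linarith
    · rw [e5, Complex.conj_im, Complex.conj_re]; exact hsec

/-- `B ≥ 0`: the rotations by `2π/5` and the reflection -/
theorem goal_sec5 {q κ : ℝ} (hq : 0 < q) {b z : ℝ → ℂ} (h : AdmQ q b z) (hB : fc z (-5) = (‖fc z (-5)‖ : ℂ))
    (H : ∀ b' z' : ℝ → ℂ, AdmQ q b' z' → fc z' (-5) = fc z (-5) → ‖fc z' (-3)‖ = ‖fc z (-3)‖ →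
      0 ≤ (fc z' (-3)).im → (fc z' (-3)).im ≤ 727 / 1000 * (fc z' (-3)).re → Goal q κ b' z') : Goal q κ b z := by
  obtain ⟨m, θ, hθ, hA⟩ := round_angle (fc z (-3)) 5 (by norm_num)
  have z2 := per2 h.perz
  have hpi := Real.pi_pos
  set τ : ℝ := 2 * Real.pi * (2 * m) / 5 with hτ
  have eB : fc (fun t => z (t + τ)) (-5) = fc z (-5) := by
    rw [fcshift z2, show ((-5 : ℤ) : ℝ) * τ = ((-(2 * m) : ℤ) : ℝ) * (2 * Real.pi) by rw [hτ]; push_cast; ring,
      ee_two_pi_int, one_mul]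
  have eA : fc (fun t => z (t + τ)) (-3) = (‖fc z (-3)‖ : ℂ) * ee θ := by
    rw [fcshift z2]
    conv_lhs => rw [hA]
    have e1 : ee (((-3 : ℤ) : ℝ) * τ) * ee (θ + 2 * Real.pi * m / ((5 : ℕ) : ℝ)) = ee θ := by
      rw [← ee_add, show ((-3 : ℤ) : ℝ) * τ + (θ + 2 * Real.pi * m / ((5 : ℕ) : ℝ)) =
        θ + ((-m : ℤ) : ℝ) * (2 * Real.pi) by rw [hτ]; push_cast; ring, ee_add, ee_two_pi_int, mul_one]
    rw [← e1]
    ring
  have hsec : |((‖fc z (-3)‖ : ℂ) * ee θ).im| ≤ 727 / 1000 * ((‖fc z (-3)‖ : ℂ) * ee θ).re := by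
    rw [Complex.im_ofReal_mul, Complex.re_ofReal_mul, ee_re, ee_im, abs_mul, abs_of_nonneg (norm_nonneg _)]
    have h2 : 809 / 1000 ≤ Real.cos θ := by
      have h5 : 809 / 1000 ≤ Real.cos (Real.pi / 5) := by
        rw [Real.cos_pi_div_five]
        have : (2.236 : ℝ) ≤ Real.sqrt 5 := by
          apply Real.le_sqrt_of_sq_le; norm_num
        linarith
      refine h5.trans ?_
      rw [← Real.cos_abs θ]
      apply Real.cos_le_cos_of_nonneg_of_le_pi (abs_nonneg _) (by linarith)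
      norm_num at hθ
      exact hθ
    have h4 : |Real.sin θ| ≤ 727 / 1000 * Real.cos θ := by
      have h5 : Real.sin θ ^ 2 ≤ (727 / 1000 * Real.cos θ) ^ 2 := by
        nlinarith [Real.sin_sq_add_cos_sq θ]
      exact abs_le_of_sq_le_sq h5 (by positivity)
    nlinarith [mul_le_mul_of_nonneg_left h4 (norm_nonneg (fc z (-3)))]
  rw [← eA] at hsec
  have nA : ‖fc (fun t => z (t + τ)) (-3)‖ = ‖fc z (-3)‖ := by
    rw [eA, norm_mul, norm_ee, mul_one, Complex.norm_real, norm_norm]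
  have h' := admQ_shift h τ
  apply goal_shift h τ
  by_cases hs : 0 ≤ (fc (fun t => z (t + τ)) (-3)).im
  · rw [abs_of_nonneg hs] at hsec
    exact H _ _ h' eB nA hs hsec
  · push Not at hs
    rw [abs_of_neg hs] at hsec
    refine goal_conj hq h' fun b' z' k e3 e5 => H b' z' k ?_ ?_ ?_ ?_
    · rw [e5, eB]
      conv_lhs => rw [hB]
      rw [Complex.conj_ofReal]
      exact hB.symm
    · rw [e3, RCLike.norm_conj, nA]
    · rw [e3, Complex.conj_im]; linarith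
    · rw [e3, Complex.conj_im, Complex.conj_re]; exact hsec

theorem norm_fcshift {z : ℝ → ℂ} (z2 : ∀ t, z (t + 2 * Real.pi) = z t) (τ : ℝ) (n : ℤ) :
    ‖fc (fun t => z (t + τ)) n‖ = ‖fc z n‖ := by
  rw [fcshift z2, norm_mul, norm_ee, one_mul]

/-- **the reduction, one case** -/
theorem rq_sym {q κ : ℝ} (hq : 0 < q) (H : ∀ b z : ℝ → ℂ, AdmQ q b z → fc z (-3) = (‖fc z (-3)‖ : ℂ) →
    0 ≤ (fc z (-5)).im → (fc z (-5)).im ≤ Real.sqrt 3 * (fc z (-5)).re →
    ∃ w : ℝ → ℝ, Wgt w ∧ 9 * κ * (mQ w b) ^ 2 ≤ FMQ w q b z) : Rq q κ := by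
  intro b z h
  show Goal q κ b z
  have z2 := per2 h.perz
  obtain ⟨τ, hτ⟩ := exists_rot (fc z (-3)) (-3) (by norm_num)
  apply goal_shift h τ
  have h' := admQ_shift h τ
  have hA : fc (fun t => z (t + τ)) (-3) = (‖fc (fun t => z (t + τ)) (-3)‖ : ℂ) := by
    rw [norm_fcshift z2, fcshift z2, hτ]
  refine goal_sec3 hq h' hA fun b' z' k e3 _ i1 i2 => H b' z' k ?_ i1 i2
  rw [e3]
  exact hA

/-- **the reduction, two cases** -/
theorem rq_sym2 {q κ : ℝ} (hq : 0 < q) (ρ : ℝ) (H1 : ∀ b z : ℝ → ℂ, AdmQ q b z → ‖fc z (-5)‖ ≤ ρ * ‖fc z (-3)‖ →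
      fc z (-3) = (‖fc z (-3)‖ : ℂ) → 0 ≤ (fc z (-5)).im → (fc z (-5)).im ≤ Real.sqrt 3 * (fc z (-5)).re →
      ∃ w : ℝ → ℝ, Wgt w ∧ 9 * κ * (mQ w b) ^ 2 ≤ FMQ w q b z)
    (H2 : ∀ b z : ℝ → ℂ, AdmQ q b z → ρ * ‖fc z (-3)‖ < ‖fc z (-5)‖ →
      fc z (-5) = (‖fc z (-5)‖ : ℂ) → 0 ≤ (fc z (-3)).im → (fc z (-3)).im ≤ 727 / 1000 * (fc z (-3)).re →
      ∃ w : ℝ → ℝ, Wgt w ∧ 9 * κ * (mQ w b) ^ 2 ≤ FMQ w q b z) : Rq q κ := by
  intro b z h
  show Goal q κ b z
  have z2 := per2 h.perz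
  by_cases hc : ‖fc z (-5)‖ ≤ ρ * ‖fc z (-3)‖
  · obtain ⟨τ, hτ⟩ := exists_rot (fc z (-3)) (-3) (by norm_num)
    apply goal_shift h τ
    have h' := admQ_shift h τ
    have hA : fc (fun t => z (t + τ)) (-3) = (‖fc (fun t => z (t + τ)) (-3)‖ : ℂ) := by
      rw [norm_fcshift z2, fcshift z2, hτ]
    refine goal_sec3 hq h' hA fun b' z' k e3 n5 i1 i2 => H1 b' z' k ?_ ?_ i1 i2
    · rw [n5, e3, norm_fcshift z2, norm_fcshift z2]; exact hc
    · rw [e3]
      exact hA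
  · push Not at hc
    obtain ⟨τ, hτ⟩ := exists_rot (fc z (-5)) (-5) (by norm_num)
    apply goal_shift h τ
    have h' := admQ_shift h τ
    have hB : fc (fun t => z (t + τ)) (-5) = (‖fc (fun t => z (t + τ)) (-5)‖ : ℂ) := by
      rw [norm_fcshift z2, fcshift z2, hτ]
    refine goal_sec5 hq h' hB fun b' z' k e5 n3 i1 i2 => H2 b' z' k ?_ ?_ i1 i2
    · rw [n3, e5, norm_fcshift z2, norm_fcshift z2]; exact hc
    · rw [e5]
      exact hB

end Pool.Agent.Helper20.RC
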