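import Pool.Agent.Helper49.RC.Comb
import Pool.Agent.Helper17.RC.M_D2
import Pool.Agent.Helper51.RC.M_FARS
import Pool.Agent.Helper20.RC.M_PAIR
import Pool.Agent.Helper20.RC.Sym

/-!
# Project RC, SHARP: the end with the symmetry reduction

`A = fc z (-3)`, `B = fc z (-5)`. Near data (`¬ Far b z`) are needed only in two sectors.
`rq_of2`: `Rq 2 1` from the two near statements; all other inputs (COMB, D2, PAIR, FAR) are proved.
-/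

open MeasureTheory Set Filter Topology

namespace Pool.Agent.Helper20.RC

open Helper49.Sharp Helper49.RC Helper44.GQ
open Helper56.RC (fc)

/-- sector 1: `|B| ≤ 2 |A|`, `A ≥ 0`, `0 ≤ arg B ≤ π/3` -/
def Sec1 (z : ℝ → ℂ) : Prop := ‖fc z (-5)‖ ≤ 2 * ‖fc z (-3)‖ ∧ fc z (-3) = (‖fc z (-3)‖ : ℂ) ∧
  0 ≤ (fc z (-5)).im ∧ (fc z (-5)).im ≤ Real.sqrt 3 * (fc z (-5)).re

/-- sector 2: `|B| > 2 |A|`, `B ≥ 0`, `0 ≤ arg A ≤ π/5` -/
def Sec2 (z : ℝ → ℂ) : Prop := 2 * ‖fc z (-3)‖ < ‖fc z (-5)‖ ∧ fc z (-5) = (‖fc z (-5)‖ : ℂ) ∧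
  0 ≤ (fc z (-3)).im ∧ (fc z (-3)).im ≤ 727 / 1000 * (fc z (-3)).re

/-- NEAR 1: certificates in sector 1 -/
def StNear1 (Near : (ℝ → ℂ) → (ℝ → ℂ) → Prop) : Prop := ∀ b z : ℝ → ℂ, AdmQ 2 b z → Sec1 z → Near b z →
  ∃ P : Par, P.Good b z ∧ 0 ≤ P.EP b z

/-- NEAR 2: certificates in sector 2 -/
def StNear2 (Near : (ℝ → ℂ) → (ℝ → ℂ) → Prop) : Prop := ∀ b z : ℝ → ℂ, AdmQ 2 b z → Sec2 z → Near b z →
  ∃ P : Par, P.Good b z ∧ 0 ≤ P.EP b z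

/-- FAR for the complement of `Near` -/
def StFarN (Near : (ℝ → ℂ) → (ℝ → ℂ) → Prop) : Prop := ∀ b z : ℝ → ℂ, AdmQ 2 b z → ¬ Near b z →
  9 * 1 * mQ (wR 0 0 0) b ^ 2 ≤ FMQ (wR 0 0 0) 2 b z

theorem comb_closed : StComb := comb Pool.Agent.Helper17.RC.hD2 hPAIR

/-- one pair of data with a certificate -/
theorem goal_of_par {b z : ℝ → ℂ} (h : AdmQ 2 b z) (hN : ∃ P : Par, P.Good b z ∧ 0 ≤ P.EP b z) :
    ∃ w : ℝ → ℝ, Wgt w ∧ 9 * (1 : ℝ) * (mQ w b) ^ 2 ≤ FMQ w 2 b z := by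
  obtain ⟨P, hg, h0⟩ := hN
  have h1 := comb_closed P b z h hg
  refine ⟨P.w, wR_wgt ?_, by linarith⟩
  have := hg.reg.eta
  simp only [norm_zero, add_zero]
  linarith

/-- **the end, general near condition** -/
theorem rq_of2 (Near : (ℝ → ℂ) → (ℝ → ℂ) → Prop) (hF : StFarN Near) (h1 : StNear1 Near) (h2 : StNear2 Near) :
    Rq 2 1 := by
  refine rq_sym2 (by norm_num) 2 (fun b z h hr hA i1 i2 => ?_) (fun b z h hr hB i1 i2 => ?_)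
  · by_cases hn : Near b z
    · exact goal_of_par h (h1 b z h ⟨hr, hA, i1, i2⟩ hn)
    · exact ⟨wR 0 0 0, wR_wgt (by simp), hF b z h hn⟩
  · by_cases hn : Near b z
    · exact goal_of_par h (h2 b z h ⟨hr, hB, i1, i2⟩ hn)
    · exact ⟨wR 0 0 0, wR_wgt (by simp), hF b z h hn⟩

/-- **the end with `S' < 1/5`**: the only inputs are the two near statements -/
theorem rq_of2' (h1 : StNear1 fun b z => Sp b z < 1 / 5) (h2 : StNear2 fun b z => Sp b z < 1 / 5) : Rq 2 1 :=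
  rq_of2 _ (fun b z h hn => Pool.Agent.Helper51.RC.farS b z h (not_lt.1 hn)) h1 h2

end Pool.Agent.Helper20.RC
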