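import Pool.Agent.Helper20.RC.Link1

/-!
# Project RC, track B, link 1 with the weight `1 + 2 Re (η₂ e^{2it} + η₆ e^{6it} + η₁₀ e^{10it})`
-/

open MeasureTheory Set Filter Metric

namespace Pool.Agent.Helper20.RC

open Helper49.LT Helper87.RC
open Helper56.RC (fc)
open Helper44.RCG (Hex A00G)

theorem fc_eek (k n : ℤ) : fc (fun t => ee ((k : ℝ) * t)) n = if n = k then 1 else 0 := by
  have e : fc (fun t => ee ((k : ℝ) * t)) n = fc (fun t => ee t) (n - k + 1) := by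
    rw [fc_eq, fc_eq]
    congr 1
    refine intervalIntegral.integral_congr fun t _ => ?_
    show ee ((k : ℝ) * t) * ee (-(n : ℝ) * t) = ee t * ee (-((n - k + 1 : ℤ) : ℝ) * t)
    rw [← ee_add, ← ee_add]
    congr 1
    push_cast
    ring
  rw [e, fc_ee]
  by_cases h : n = k
  · rw [if_pos h, if_pos (by omega)]
  · rw [if_neg h, if_neg (by omega)]

/-- the weight (complex valued, its values are real, `wt_real`) -/
noncomputable def wt (η2 η6 η10 : ℂ) (t : ℝ) : ℂ :=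
  1 + (η2 * ee (((2 : ℤ) : ℝ) * t) + (starRingEnd ℂ) η2 * ee (((-2 : ℤ) : ℝ) * t))
    + (η6 * ee (((6 : ℤ) : ℝ) * t) + (starRingEnd ℂ) η6 * ee (((-6 : ℤ) : ℝ) * t))
    + (η10 * ee (((10 : ℤ) : ℝ) * t) + (starRingEnd ℂ) η10 * ee (((-10 : ℤ) : ℝ) * t))

theorem wt_real (η2 η6 η10 : ℂ) (t : ℝ) : wt η2 η6 η10 t =
    ((1 + 2 * (η2 * ee (2 * t) + η6 * ee (6 * t) + η10 * ee (10 * t)).re : ℝ) : ℂ) := by
  have h : ∀ (η : ℂ) (x : ℝ), η * ee x + (starRingEnd ℂ) η * ee (-x) = ((2 * (η * ee x).re : ℝ) : ℂ) := by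
    intro η x
    rw [ee_neg, ← map_mul, Complex.add_conj]
  unfold wt
  have e2 : ((-2 : ℤ) : ℝ) * t = -(((2 : ℤ) : ℝ) * t) := by push_cast; ring
  have e6 : ((-6 : ℤ) : ℝ) * t = -(((6 : ℤ) : ℝ) * t) := by push_cast; ring
  have e10 : ((-10 : ℤ) : ℝ) * t = -(((10 : ℤ) : ℝ) * t) := by push_cast; ring
  rw [e2, e6, e10, h, h, h]
  simp only [Complex.add_re]
  push_cast
  ring

theorem bm_ek (η : ℂ) (k : ℤ) : BM (fun t => η * ee ((k : ℝ) * t)) (‖η‖ * 1) := (BM.eec (k : ℝ)).cmul η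

theorem bm_one : BM (fun _ : ℝ => (1 : ℂ)) 1 := ⟨measurable_const, fun _ => by simp⟩

theorem bm_pair (η : ℂ) (k : ℤ) :
    BM (fun t => η * ee ((k : ℝ) * t) + (starRingEnd ℂ) η * ee (((-k : ℤ) : ℝ) * t)) (2 * ‖η‖) := by
  have h := (bm_ek η k).add (bm_ek ((starRingEnd ℂ) η) (-k))
  have e : ‖η‖ * 1 + ‖(starRingEnd ℂ) η‖ * 1 = 2 * ‖η‖ := by rw [Complex.norm_conj]; ring
  rw [e] at h
  exact h

theorem bm_wt (η2 η6 η10 : ℂ) :
    BM (wt η2 η6 η10) (1 + 2 * ‖η2‖ + 2 * ‖η6‖ + 2 * ‖η10‖) := by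
  exact ((bm_one.add (bm_pair η2 2)).add (bm_pair η6 6)).add (bm_pair η10 10)

theorem fc_one (n : ℤ) : fc (fun _ : ℝ => (1 : ℂ)) n = if n = 0 then 1 else 0 := by
  have h := fc_eek 0 n
  simp only [Int.cast_zero, zero_mul, ee_zero] at h
  exact h

theorem fc_pair (η : ℂ) (k n : ℤ) :
    fc (fun t => η * ee ((k : ℝ) * t) + (starRingEnd ℂ) η * ee (((-k : ℤ) : ℝ) * t)) n =
      η * (if n = k then 1 else 0) + (starRingEnd ℂ) η * (if n = -k then 1 else 0) := by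
  rw [fc_add (bm_ek η k) (bm_ek ((starRingEnd ℂ) η) (-k)), fc_cmul, fc_cmul, fc_eek, fc_eek]

theorem fc_wt (η2 η6 η10 : ℂ) (n : ℤ) : fc (wt η2 η6 η10) n =
    (if n = 0 then 1 else 0)
    + (η2 * (if n = 2 then 1 else 0) + (starRingEnd ℂ) η2 * (if n = -2 then 1 else 0))
    + (η6 * (if n = 6 then 1 else 0) + (starRingEnd ℂ) η6 * (if n = -6 then 1 else 0))
    + (η10 * (if n = 10 then 1 else 0) + (starRingEnd ℂ) η10 * (if n = -10 then 1 else 0)) := by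
  have e : wt η2 η6 η10 = fun t => ((1 + (η2 * ee (((2 : ℤ) : ℝ) * t)
      + (starRingEnd ℂ) η2 * ee (((-2 : ℤ) : ℝ) * t)))
    + (η6 * ee (((6 : ℤ) : ℝ) * t) + (starRingEnd ℂ) η6 * ee (((-6 : ℤ) : ℝ) * t)))
    + (η10 * ee (((10 : ℤ) : ℝ) * t) + (starRingEnd ℂ) η10 * ee (((-10 : ℤ) : ℝ) * t)) := rfl
  rw [e, fc_add ((bm_one.add (bm_pair η2 2)).add (bm_pair η6 6)) (bm_pair η10 10),
    fc_add (bm_one.add (bm_pair η2 2)) (bm_pair η6 6), fc_add bm_one (bm_pair η2 2), fc_one,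
    fc_pair, fc_pair, fc_pair]

/-- LINK 1 with the weight. `A0 t = ee t * (w t + α t)`, `w` the trigonometric weight. -/
theorem link1_wt {A0 A B v α : ℝ → ℂ} {C E : ℝ} {η2 η6 η10 : ℂ} (h : Hex A0 A B v C) (ha : BM α E)
    (e : ∀ t, A0 t = ee t * (wt η2 η6 η10 t + α t)) :
    (Summable fun j : ℤ => ‖fc α (2 * j)‖ ^ 2 / (2 * (j : ℝ) + 1)) ∧
    1 - 2 * (‖η2‖ ^ 2 / 3 + ‖η6‖ ^ 2 / 35 + ‖η10‖ ^ 2 / 99)
      + 2 * (fc α 0 + (starRingEnd ℂ) η2 * fc α 2 / 3 - η2 * fc α (-2)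
        + (starRingEnd ℂ) η6 * fc α 6 / 7 - η6 * fc α (-6) / 5
        + (starRingEnd ℂ) η10 * fc α 10 / 11 - η10 * fc α (-10) / 9).re
      + ∑' j : ℤ, ‖fc α (2 * j)‖ ^ 2 / (2 * (j : ℝ) + 1) ≤ A00G A0 := by
  have hL := link1_rot h (bm_wt η2 η6 η10) ha e
  have hss : Summable fun j : ℤ => ‖fc α (2 * j)‖ ^ 2 := by
    have hi : Function.Injective (fun j : ℤ => 2 * j) := by
      intro a b hab; simp only at hab; omega
    exact (pars ha).summable.comp_injective hi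
  have hsum : Summable fun j : ℤ => ‖fc α (2 * j)‖ ^ 2 / (2 * (j : ℝ) + 1) := by
    refine Summable.of_norm_bounded hss fun j => ?_
    rw [norm_div, Real.norm_of_nonneg (by positivity)]
    have h1 : (1 : ℝ) ≤ ‖(2 * (j : ℝ) + 1)‖ := by
      rw [Real.norm_eq_abs]
      have h2 : (1 : ℤ) ≤ |2 * j + 1| := Int.one_le_abs (by omega)
      have h3 : ((|2 * j + 1| : ℤ) : ℝ) = |2 * (j : ℝ) + 1| := by push_cast; rfl
      rw [← h3]
      exact_mod_cast h2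
    exact div_le_self (by positivity) h1
  refine ⟨hsum, ?_⟩
  refine le_trans (le_of_eq ?_) hL.2
  -- the finite part
  set S : Finset ℤ := {0, 1, -1, 3, -3, 5, -5} with hS
  set F : ℤ → ℝ := fun j => ‖fc (wt η2 η6 η10) (2 * j) + fc α (2 * j)‖ ^ 2 / (2 * (j : ℝ) + 1)
    - ‖fc α (2 * j)‖ ^ 2 / (2 * (j : ℝ) + 1) with hF
  have hz : ∀ j ∉ S, F j = 0 := by
    intro j hj
    simp only [hS, Finset.mem_insert, Finset.mem_singleton, not_or] at hj
    have hw0 : fc (wt η2 η6 η10) (2 * j) = 0 := by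
      rw [fc_wt, if_neg (by omega), if_neg (by omega), if_neg (by omega), if_neg (by omega),
        if_neg (by omega), if_neg (by omega), if_neg (by omega)]
      ring
    simp only [hF, hw0, zero_add, sub_self]
  have h1 : HasSum F (∑ j ∈ S, F j) := hasSum_sum_of_ne_finset_zero hz
  have e3 : (fun j : ℤ => F j + ‖fc α (2 * j)‖ ^ 2 / (2 * (j : ℝ) + 1)) =
      fun j : ℤ => ‖fc (wt η2 η6 η10) (2 * j) + fc α (2 * j)‖ ^ 2 / (2 * (j : ℝ) + 1) := by
    funext j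
    simp only [hF]
    ring
  have h2 := h1.add hsum.hasSum
  rw [e3] at h2
  rw [h2.tsum_eq]
  congr 1
  have hsumS : ∑ j ∈ S, F j = F 0 + F 1 + F (-1) + F 3 + F (-3) + F 5 + F (-5) := by
    rw [hS, Finset.sum_insert (by decide), Finset.sum_insert (by decide), Finset.sum_insert (by decide),
      Finset.sum_insert (by decide), Finset.sum_insert (by decide), Finset.sum_insert (by decide),
      Finset.sum_singleton]
    ring
  have hsq : ∀ a b : ℂ, ‖a + b‖ ^ 2 = ‖a‖ ^ 2 + 2 * ((starRingEnd ℂ) a * b).re + ‖b‖ ^ 2 := by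
    intro a b
    rw [← Complex.normSq_eq_norm_sq, ← Complex.normSq_eq_norm_sq, ← Complex.normSq_eq_norm_sq,
      Complex.normSq_apply, Complex.normSq_apply, Complex.normSq_apply]
    simp only [Complex.add_re, Complex.add_im, Complex.mul_re, Complex.conj_re, Complex.conj_im]
    ring
  have f0 : F 0 = 1 + 2 * (fc α 0).re := by
    simp only [hF]
    rw [fc_wt]
    norm_num [hsq]
  have f1 : F 1 = ‖η2‖ ^ 2 / 3 + 2 * ((starRingEnd ℂ) η2 * fc α 2 / 3).re := by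
    simp only [hF]
    rw [fc_wt]
    norm_num [hsq]
    ring
  have f1' : F (-1) = -‖η2‖ ^ 2 - 2 * (η2 * fc α (-2)).re := by
    simp only [hF]
    rw [fc_wt]
    norm_num [hsq]
    ring
  have f3 : F 3 = ‖η6‖ ^ 2 / 7 + 2 * ((starRingEnd ℂ) η6 * fc α 6 / 7).re := by
    simp only [hF]
    rw [fc_wt]
    norm_num [hsq]
    ring
  have f3' : F (-3) = -‖η6‖ ^ 2 / 5 - 2 * (η6 * fc α (-6) / 5).re := by
    simp only [hF]
    rw [fc_wt]
    norm_num [hsq]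
    ring
  have f5 : F 5 = ‖η10‖ ^ 2 / 11 + 2 * ((starRingEnd ℂ) η10 * fc α 10 / 11).re := by
    simp only [hF]
    rw [fc_wt]
    norm_num [hsq]
    ring
  have f5' : F (-5) = -‖η10‖ ^ 2 / 9 - 2 * (η10 * fc α (-10) / 9).re := by
    simp only [hF]
    rw [fc_wt]
    norm_num [hsq]
    ring
  rw [hsumS, f0, f1, f1', f3, f3', f5, f5']
  simp only [Complex.add_re, Complex.sub_re]
  ring

end Pool.Agent.Helper20.RC
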