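import Pool.Agent.Helper20.RC.M_C00
import Pool.Agent.Helper44.RC.M_GEN2

/-!
# Project RC, track B, link 1: the interaction of the segments `± A0` (gauge and weight arbitrary)
-/

open MeasureTheory Set Filter Metric

namespace Pool.Agent.Helper20.RC

open Helper49.LT Helper87.RC
open Helper56.RC (fc)
open Helper44.RCG (Hex A00G)

/-- two antiperiods are a period -/
theorem per_of_anti {f : ℝ → ℂ} (h : ∀ t, f (t + Real.pi) = -f t) (t : ℝ) :
    f (t + 2 * Real.pi) = f t := by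
  have e : t + 2 * Real.pi = (t + Real.pi) + Real.pi := by ring
  rw [e, h, h, neg_neg]

/-- the even coefficients of an antiperiodic function vanish -/
theorem fc_anti {f : ℝ → ℂ} {C : ℝ} (hf : BM f C) (h : ∀ t, f (t + Real.pi) = -f t) (n : ℤ)
    (hn : Even n) : fc f n = 0 := by
  have hp := Real.pi_pos
  rw [fc_eq]
  have hg : BM (fun t => f t * ee (-(n : ℝ) * t)) (C * 1) := hf.mul (BM.eec _)
  rw [← intervalIntegral.integral_add_adjacent_intervals (b := Real.pi) (hg.i _ _) (hg.i _ _)]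
  have h1 : ∫ t in (Real.pi)..(2 * Real.pi), f t * ee (-(n : ℝ) * t) =
      ∫ t in (0 : ℝ)..Real.pi, -(f t * ee (-(n : ℝ) * t)) := by
    have := intervalIntegral.integral_comp_add_right (a := 0) (b := Real.pi)
      (fun t => f t * ee (-(n : ℝ) * t)) Real.pi
    rw [zero_add] at this
    have e2 : Real.pi + Real.pi = 2 * Real.pi := by ring
    rw [e2] at this
    rw [← this]
    refine intervalIntegral.integral_congr fun t _ => ?_
    show f (t + Real.pi) * ee (-(n : ℝ) * (t + Real.pi)) = -(f t * ee (-(n : ℝ) * t))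
    have e3 : ee (-(n : ℝ) * (t + Real.pi)) = ee (-(n : ℝ) * t) := by
      rw [mul_add, ee_add, ee_int_pi, Even.neg_one_zpow hn, mul_one]
    rw [h, e3]
    ring
  rw [h1, intervalIntegral.integral_neg, add_neg_cancel, mul_zero]

/-- LINK 1, general form: the Fourier series of the segments. -/
theorem link1 {A0 A B v : ℝ → ℂ} {C : ℝ} (h : Hex A0 A B v C) :
    (Summable fun n : ℤ => if Even n then (0 : ℝ) else ‖fc A0 n‖ ^ 2 / n) ∧
    ∑' n : ℤ, (if Even n then (0 : ℝ) else ‖fc A0 n‖ ^ 2 / n) ≤ A00G A0 := by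
  have hE : BM A0 C := ⟨h.m0, h.b0⟩
  have hs := half_parseval hE (per_of_anti h.p0)
  refine ⟨hs.summable, ?_⟩
  rw [hs.tsum_eq]
  exact Helper44.RCG.a00G h

/-- LINK 1 in the rotating frame: `A0 t = ee t * (w t + α t)`, frequencies `m = 2 j`, weights `1/(m+1)`. -/
theorem link1_rot {A0 A B v w α : ℝ → ℂ} {C D E : ℝ} (h : Hex A0 A B v C) (hw : BM w D) (ha : BM α E)
    (e : ∀ t, A0 t = ee t * (w t + α t)) :
    (Summable fun j : ℤ => ‖fc w (2 * j) + fc α (2 * j)‖ ^ 2 / (2 * (j : ℝ) + 1)) ∧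
    ∑' j : ℤ, ‖fc w (2 * j) + fc α (2 * j)‖ ^ 2 / (2 * (j : ℝ) + 1) ≤ A00G A0 := by
  have hE : BM A0 C := ⟨h.m0, h.b0⟩
  have hs := half_parseval hE (per_of_anti h.p0)
  have hinj : Function.Injective (fun j : ℤ => 2 * j + 1) := by
    intro a b hab; simp only at hab; omega
  have hsup : ∀ n, n ∉ Set.range (fun j : ℤ => 2 * j + 1) →
      (if Even n then (0 : ℝ) else ‖fc A0 n‖ ^ 2 / n) = 0 := by
    intro n hn
    have : Even n := by
      rw [← Int.not_odd_iff_even]
      rintro ⟨k, hk⟩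
      exact hn ⟨k, hk.symm⟩
    rw [if_pos this]
  have hs2 := (hinj.hasSum_iff hsup).2 hs
  have hc : ∀ n : ℤ, fc A0 n = fc w (n - 1) + fc α (n - 1) := by
    intro n
    rw [← fc_add hw ha]
    rw [fc_eq, fc_eq]
    congr 1
    refine intervalIntegral.integral_congr fun t _ => ?_
    show A0 t * ee (-(n : ℝ) * t) = (w t + α t) * ee (-((n - 1 : ℤ) : ℝ) * t)
    have e1 : ee (-((n - 1 : ℤ) : ℝ) * t) = ee t * ee (-(n : ℝ) * t) := by
      rw [← ee_add]; congr 1; push_cast; ring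
    rw [e, e1]; ring
  have e2 : ((fun n : ℤ => if Even n then (0 : ℝ) else ‖fc A0 n‖ ^ 2 / n) ∘ fun j : ℤ => 2 * j + 1) =
      fun j : ℤ => ‖fc w (2 * j) + fc α (2 * j)‖ ^ 2 / (2 * (j : ℝ) + 1) := by
    funext j
    have hodd : ¬ Even (2 * j + 1) := by
      rw [Int.not_even_iff_odd]; exact ⟨j, rfl⟩
    simp only [Function.comp, if_neg hodd]
    rw [hc]
    have e3 : (2 * j + 1 - 1 : ℤ) = 2 * j := by ring
    rw [e3]
    push_cast
    rfl
  rw [e2] at hs2
  refine ⟨hs2.summable, ?_⟩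
  rw [hs2.tsum_eq]
  exact Helper44.RCG.a00G h

end Pool.Agent.Helper20.RC
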