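import Pool.Agent.Helper20.RC.Link1w

/-!
# Project RC, track B, link 2: the segments and the quadrilaterals, exact splitting with explicit alignments

`A0 t = ee t * (w t + α t)`, `w` the trigonometric weight, `α` bounded measurable of period `π` (in the gauge `q`:
`α = w (b₂ + i b₃ / q)`). `al G θ` is the lift of the argument of `G θ` in `(θ - π, θ + π]`.
-/

open MeasureTheory Set Filter Metric

namespace Pool.Agent.Helper20.RC

open Helper49.LT Helper87.RC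
open Helper56.RC (fc)
open Helper44.RCG (Hex A0QG G1 G2)

/-- the angle of `G θ` near `θ` -/
noncomputable def al (G : ℝ → ℂ) (θ : ℝ) : ℝ := θ + (G θ * (starRingEnd ℂ) (ee θ)).arg

theorem al_meas {G : ℝ → ℂ} (h : Measurable G) : Measurable (al G) := by
  unfold al
  refine measurable_id.add (Complex.measurable_arg.comp (h.mul ?_))
  exact Complex.continuous_conj.measurable.comp continuous_ee.measurable

theorem al_abs (G : ℝ → ℂ) (θ : ℝ) : |al G θ - θ| ≤ Real.pi := by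
  unfold al
  rw [add_sub_cancel_left]
  exact Complex.abs_arg_le_pi _

theorem al_ee (G : ℝ → ℂ) (θ : ℝ) : G θ = (‖G θ‖ : ℂ) * ee (al G θ) := by
  unfold al
  rw [ee_add]
  have h1 : ‖G θ * (starRingEnd ℂ) (ee θ)‖ = ‖G θ‖ := by
    rw [norm_mul, Complex.norm_conj, norm_ee, mul_one]
  have h2 := Complex.norm_mul_exp_arg_mul_I (G θ * (starRingEnd ℂ) (ee θ))
  rw [h1] at h2
  have h3 : ee (G θ * (starRingEnd ℂ) (ee θ)).arg =
      Complex.exp ((G θ * (starRingEnd ℂ) (ee θ)).arg * Complex.I) := by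
    unfold ee
    try rfl
  rw [h3]
  calc G θ = G θ * (ee θ * (starRingEnd ℂ) (ee θ)) := by rw [ee_mul_conj, mul_one]
    _ = ee θ * (G θ * (starRingEnd ℂ) (ee θ)) := by ring
    _ = ee θ * ((‖G θ‖ : ℂ) * Complex.exp ((G θ * (starRingEnd ℂ) (ee θ)).arg * Complex.I)) := by rw [h2]
    _ = _ := by ring

/-- support function of the weighted segments -/
noncomputable def hw (η2 η6 η10 : ℂ) (φ : ℝ) : ℝ :=
  1 - 2 * ((η2 * ee (2 * φ)).re / 3 + (η6 * ee (6 * φ)).re / 35 + (η10 * ee (10 * φ)).re / 99)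

/-- primitive of `ee t * wt t` -/
noncomputable def pw (η2 η6 η10 : ℂ) (t : ℝ) : ℂ :=
  -Complex.I * (ee (1 * t) + (η2 * ee (3 * t) / 3 - (starRingEnd ℂ) η2 * ee (-1 * t))
    + (η6 * ee (7 * t) / 7 - (starRingEnd ℂ) η6 * ee (-5 * t) / 5)
    + (η10 * ee (11 * t) / 11 - (starRingEnd ℂ) η10 * ee (-9 * t) / 9))

theorem pw_deriv (η2 η6 η10 : ℂ) (t : ℝ) :
    HasDerivAt (pw η2 η6 η10) (ee t * wt η2 η6 η10 t) t := by
  have h1 := hasDerivAt_ee 1 t
  have h3 := ((hasDerivAt_ee 3 t).const_mul η2).div_const 3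
  have hm1 := (hasDerivAt_ee (-1) t).const_mul ((starRingEnd ℂ) η2)
  have h7 := ((hasDerivAt_ee 7 t).const_mul η6).div_const 7
  have hm5 := ((hasDerivAt_ee (-5) t).const_mul ((starRingEnd ℂ) η6)).div_const 5
  have h11 := ((hasDerivAt_ee 11 t).const_mul η10).div_const 11
  have hm9 := ((hasDerivAt_ee (-9) t).const_mul ((starRingEnd ℂ) η10)).div_const 9
  have h := ((((h1.add (h3.sub hm1)).add (h7.sub hm5)).add (h11.sub hm9)).const_mul (-Complex.I))
  refine h.congr_deriv ?_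
  unfold wt
  have e3 : ee (3 * t) = ee t * ee (((2 : ℤ) : ℝ) * t) := by rw [← ee_add]; congr 1; push_cast; ring
  have em1 : ee (-1 * t) = ee t * ee (((-2 : ℤ) : ℝ) * t) := by rw [← ee_add]; congr 1; push_cast; ring
  have e7 : ee (7 * t) = ee t * ee (((6 : ℤ) : ℝ) * t) := by rw [← ee_add]; congr 1; push_cast; ring
  have em5 : ee (-5 * t) = ee t * ee (((-6 : ℤ) : ℝ) * t) := by rw [← ee_add]; congr 1; push_cast; ring
  have e11 : ee (11 * t) = ee t * ee (((10 : ℤ) : ℝ) * t) := by rw [← ee_add]; congr 1; push_cast; ring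
  have em9 : ee (-9 * t) = ee t * ee (((-10 : ℤ) : ℝ) * t) := by rw [← ee_add]; congr 1; push_cast; ring
  rw [e3, em1, e7, em5, e11, em9, one_mul]
  push_cast
  ring_nf
  rw [Complex.I_sq]
  ring

theorem pw_anti (η2 η6 η10 : ℂ) (t : ℝ) : pw η2 η6 η10 (t - Real.pi) = -pw η2 η6 η10 t := by
  have h : ∀ k : ℤ, ee (((2 * k + 1 : ℤ) : ℝ) * (t - Real.pi)) = -ee (((2 * k + 1 : ℤ) : ℝ) * t) := by
    intro k
    have e : ((2 * k + 1 : ℤ) : ℝ) * t = ((2 * k + 1 : ℤ) : ℝ) * (t - Real.pi) + Real.pi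
        + ((k : ℤ) : ℝ) * (2 * Real.pi) := by push_cast; ring
    rw [e, ee_add, ee_add, ee_int_mul k (2 * Real.pi), ee_two_pi, ee_pi]
    simp
  have h1 := h 0
  have h3 := h 1
  have hm1 := h (-1)
  have h7 := h 3
  have hm5 := h (-3)
  have h11 := h 5
  have hm9 := h (-5)
  norm_num at h1 h3 hm1 h7 hm5 h11 hm9
  unfold pw
  norm_num
  rw [h1, h3, h7, h11]
  rw [hm1, hm5, hm9]
  ring

theorem int_w (η2 η6 η10 : ℂ) (φ : ℝ) :
    ∫ t in (φ - Real.pi)..φ, ee t * wt η2 η6 η10 t = 2 * pw η2 η6 η10 φ := by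
  have hb : BM (fun t => ee t * wt η2 η6 η10 t) (1 * (1 + 2 * ‖η2‖ + 2 * ‖η6‖ + 2 * ‖η10‖)) := by
    refine BM.mul ?_ (bm_wt η2 η6 η10)
    exact ⟨continuous_ee.measurable, fun t => by rw [norm_ee]⟩
  rw [intervalIntegral.integral_eq_sub_of_hasDerivAt (fun t _ => pw_deriv η2 η6 η10 t) (hb.i _ _), pw_anti]
  ring

theorem im_w (η2 η6 η10 : ℂ) (G : ℂ) (a : ℝ) (hG : G = (‖G‖ : ℂ) * ee a) :
    (G * (starRingEnd ℂ) (∫ t in (a - Real.pi)..a, ee t * wt η2 η6 η10 t)).im =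
      2 * (‖G‖ * hw η2 η6 η10 a) := by
  rw [int_w]
  have key : ∀ (η : ℂ) (k m : ℝ), m ≠ 0 → (ee a * (starRingEnd ℂ) (-Complex.I * (η * ee (k * a) / (m : ℂ)))).im
      = (η * ee ((k - 1) * a)).re / m := by
    intro η k m hm
    have e1 : ee (k * a) = ee a * ee ((k - 1) * a) := by rw [← ee_add]; congr 1; ring
    have e2 : ee a * (starRingEnd ℂ) (-Complex.I * (η * ee (k * a) / (m : ℂ))) =
        Complex.I * (starRingEnd ℂ) (η * ee ((k - 1) * a)) / (m : ℂ) := by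
      rw [e1]
      simp only [map_mul, map_neg, map_div₀, Complex.conj_I, Complex.conj_ofReal, neg_neg]
      calc _ = (ee a * (starRingEnd ℂ) (ee a)) * (Complex.I * ((starRingEnd ℂ) η *
          (starRingEnd ℂ) (ee ((k - 1) * a)))) / (m : ℂ) := by ring
        _ = _ := by rw [ee_mul_conj]; ring
    rw [e2, Complex.div_ofReal_im]
    congr 1
    simp
  have kc : ∀ (η : ℂ) (k : ℝ), ((starRingEnd ℂ) η * ee (-(k * a))).re = (η * ee (k * a)).re := by
    intro η k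
    rw [ee_neg, ← map_mul, Complex.conj_re]
  have h1 := key 1 1 1 one_ne_zero
  have h3 := key η2 3 3 (by norm_num)
  have hm1 := key ((starRingEnd ℂ) η2) (-1) 1 (by norm_num)
  have h7 := key η6 7 7 (by norm_num)
  have hm5 := key ((starRingEnd ℂ) η6) (-5) 5 (by norm_num)
  have h11 := key η10 11 11 (by norm_num)
  have hm9 := key ((starRingEnd ℂ) η10) (-9) 9 (by norm_num)
  have E : G * (starRingEnd ℂ) (2 * pw η2 η6 η10 a) = ((2 * ‖G‖ : ℝ) : ℂ) * (
      ee a * (starRingEnd ℂ) (-Complex.I * (1 * ee (1 * a) / ((1 : ℝ) : ℂ)))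
      + (ee a * (starRingEnd ℂ) (-Complex.I * (η2 * ee (3 * a) / ((3 : ℝ) : ℂ)))
        - ee a * (starRingEnd ℂ) (-Complex.I * ((starRingEnd ℂ) η2 * ee (-1 * a) / ((1 : ℝ) : ℂ))))
      + (ee a * (starRingEnd ℂ) (-Complex.I * (η6 * ee (7 * a) / ((7 : ℝ) : ℂ)))
        - ee a * (starRingEnd ℂ) (-Complex.I * ((starRingEnd ℂ) η6 * ee (-5 * a) / ((5 : ℝ) : ℂ))))
      + (ee a * (starRingEnd ℂ) (-Complex.I * (η10 * ee (11 * a) / ((11 : ℝ) : ℂ)))
        - ee a * (starRingEnd ℂ) (-Complex.I * ((starRingEnd ℂ) η10 * ee (-9 * a) / ((9 : ℝ) : ℂ))))) := by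
    rw [hG]
    simp only [norm_mul, Complex.norm_real, norm_ee, norm_norm, mul_one]
    unfold pw
    simp only [map_mul, map_add, map_sub, map_div₀, map_neg, Complex.conj_conj, map_ofNat,
      Complex.ofReal_one, div_one, one_mul, Complex.ofReal_mul, Complex.ofReal_ofNat]
    ring
  rw [E, Complex.im_ofReal_mul]
  simp only [Complex.add_im, Complex.sub_im]
  rw [h1, h3, hm1, h7, hm5, h11, hm9]
  have k2 := kc η2 2
  have k6 := kc η6 6
  have k10 := kc η10 10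
  have r1 : ((1 : ℝ) - 1) * a = 0 := by ring
  have r3 : ((3 : ℝ) - 1) * a = 2 * a := by ring
  have rm1 : ((-1 : ℝ) - 1) * a = -(2 * a) := by ring
  have r7 : ((7 : ℝ) - 1) * a = 6 * a := by ring
  have rm5 : ((-5 : ℝ) - 1) * a = -(6 * a) := by ring
  have r11 : ((11 : ℝ) - 1) * a = 10 * a := by ring
  have rm9 : ((-9 : ℝ) - 1) * a = -(10 * a) := by ring
  rw [r1, r3, rm1, r7, rm5, r11, rm9, k2, k6, k10, ee_zero]
  unfold hw
  simp only [mul_one, Complex.one_re]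
  ring

/-- the rough term at one point -/
noncomputable def rg (α : ℝ → ℂ) (r φ a : ℝ) : ℝ :=
  r * ∫ s in φ..a, ((α s).re * Real.sin (a - s) - (α s).im * Real.cos (a - s))

theorem im_rough {α : ℝ → ℂ} {E : ℝ} (ha : BM α E) (G : ℂ) (a φ : ℝ) (hG : G = (‖G‖ : ℂ) * ee a) :
    (G * (starRingEnd ℂ) (∫ s in φ..a, ee s * α s)).im = rg α ‖G‖ φ a := by
  have hb : BM (fun t => ee t * α t) (1 * E) := by
    refine BM.mul ?_ ha
    exact ⟨continuous_ee.measurable, fun t => by rw [norm_ee]⟩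
  rw [← Helper44.RC.im_int G (hb.i _ _)]
  unfold rg
  rw [← intervalIntegral.integral_const_mul]
  refine intervalIntegral.integral_congr fun s _ => ?_
  show (G * (starRingEnd ℂ) (ee s * α s)).im = _
  rw [hG]
  have e : (‖G‖ : ℂ) * ee a * (starRingEnd ℂ) (ee s * α s) =
      (‖G‖ : ℂ) * (ee (a - s) * (starRingEnd ℂ) (α s)) := by
    rw [sub_eq_add_neg, ee_add, ee_neg, map_mul]
    ring
  rw [e, Complex.im_ofReal_mul, Complex.mul_im, ee_re, ee_im, Complex.conj_re, Complex.conj_im]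
  simp only [norm_mul, Complex.norm_real, norm_ee, norm_norm, mul_one]
  ring

/-- splitting at one point -/
theorem split_at {A0 α : ℝ → ℂ} {E : ℝ} {η2 η6 η10 : ℂ} (ha : BM α E) (hp : ∀ t, α (t + Real.pi) = α t)
    (e : ∀ t, A0 t = ee t * (wt η2 η6 η10 t + α t)) (G : ℂ) (a φ : ℝ) (hG : G = (‖G‖ : ℂ) * ee a) :
    (G * (starRingEnd ℂ) (∫ t in (a - Real.pi)..a, A0 t)).im =
      2 * (‖G‖ * hw η2 η6 η10 a) + (G * (starRingEnd ℂ) (∫ t in (φ - Real.pi)..φ, ee t * α t)).im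
        + 2 * rg α ‖G‖ φ a := by
  have he : BM (fun t => ee t) 1 := ⟨continuous_ee.measurable, fun t => by rw [norm_ee]⟩
  have hb : BM (fun t => ee t * α t) (1 * E) := BM.mul he ha
  have hbw : BM (fun t => ee t * wt η2 η6 η10 t) (1 * (1 + 2 * ‖η2‖ + 2 * ‖η6‖ + 2 * ‖η10‖)) :=
    BM.mul he (bm_wt η2 η6 η10)
  have h1 : ∫ t in (a - Real.pi)..a, A0 t = (∫ t in (a - Real.pi)..a, ee t * wt η2 η6 η10 t)
      + ∫ t in (a - Real.pi)..a, ee t * α t := by
    rw [← intervalIntegral.integral_add (hbw.i _ _) (hb.i _ _)]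
    refine intervalIntegral.integral_congr fun t _ => ?_
    show A0 t = _
    rw [e]; ring
  have h2 : ∫ t in (a - Real.pi)..a, ee t * α t = (∫ t in (φ - Real.pi)..φ, ee t * α t)
      + 2 * ∫ t in φ..a, ee t * α t := by
    have h3 : ∫ t in (a - Real.pi)..(φ - Real.pi), ee t * α t = ∫ t in φ..a, ee t * α t := by
      have h4 := intervalIntegral.integral_comp_sub_right (a := a) (b := φ)
        (fun t => ee t * α t) Real.pi
      rw [← h4, intervalIntegral.integral_symm, ← intervalIntegral.integral_neg]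
      refine intervalIntegral.integral_congr fun t _ => ?_
      show -(ee (t - Real.pi) * α (t - Real.pi)) = ee t * α t
      have e5 : ee t = -ee (t - Real.pi) := by
        have := ee_add (t - Real.pi) Real.pi
        rw [ee_pi, sub_add_cancel] at this
        rw [this]; ring
      have e6 : α t = α (t - Real.pi) := by
        rw [← hp (t - Real.pi), sub_add_cancel]
      rw [e5, e6]; ring
    rw [← intervalIntegral.integral_add_adjacent_intervals (b := φ - Real.pi) (hb.i _ _) (hb.i _ _),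
      ← intervalIntegral.integral_add_adjacent_intervals (a := φ - Real.pi) (b := φ) (hb.i _ _) (hb.i _ _), h3]
    ring
  rw [h1, h2, map_add, map_add, mul_add, mul_add, Complex.add_im, Complex.add_im, im_w η2 η6 η10 G a hG]
  have h7 : (G * (starRingEnd ℂ) (2 * ∫ t in φ..a, ee t * α t)).im =
      2 * (G * (starRingEnd ℂ) (∫ t in φ..a, ee t * α t)).im := by
    have h8 : (2 : ℂ) = ((2 : ℝ) : ℂ) := by norm_num
    rw [map_mul, h8, Complex.conj_ofReal, ← Complex.im_ofReal_mul]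
    congr 1; ring
  rw [h7, im_rough ha G a φ hG]
  ring

theorem prim_meas {f : ℝ → ℂ} {C : ℝ} (hf : BM f C) : Continuous (fun x => ∫ t in (0 : ℝ)..x, f t) :=
  intervalIntegral.continuous_primitive (fun a b => hf.i a b) 0

theorem int_meas {f : ℝ → ℂ} {C : ℝ} (hf : BM f C) {a b : ℝ → ℝ} (ha : Measurable a) (hb : Measurable b) :
    Measurable (fun θ => ∫ t in (a θ)..(b θ), f t) := by
  have e : (fun θ => ∫ t in (a θ)..(b θ), f t) =
      fun θ => (∫ t in (0 : ℝ)..(b θ), f t) - ∫ t in (0 : ℝ)..(a θ), f t := by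
    funext θ
    rw [intervalIntegral.integral_interval_sub_left (hf.i _ _) (hf.i _ _)]
  rw [e]
  exact ((prim_meas hf).measurable.comp hb).sub ((prim_meas hf).measurable.comp ha)

theorem int_bd {f : ℝ → ℂ} {C : ℝ} (hf : BM f C) (a b : ℝ) : ‖∫ t in a..b, f t‖ ≤ C * |b - a| :=
  intervalIntegral.norm_integral_le_of_norm_le_const fun t _ => hf.b t

/-- the explicit alignment term is bounded and measurable -/
theorem bmE {α G : ℝ → ℂ} {E D : ℝ} (ha : BM α E) (hG : BM G D) {φ : ℝ → ℝ} (hφ : Measurable φ) :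
    BM (fun θ => G θ * (starRingEnd ℂ) (∫ t in (φ θ - Real.pi)..(φ θ), ee t * α t)) (D * (E * Real.pi)) := by
  have he : BM (fun t => ee t) 1 := ⟨continuous_ee.measurable, fun t => by rw [norm_ee]⟩
  have hb : BM (fun t => ee t * α t) (1 * E) := BM.mul he ha
  refine BM.mul hG (BM.conj ⟨int_meas hb (hφ.sub_const _) hφ, fun θ => ?_⟩)
  refine (int_bd hb _ _).trans (le_of_eq ?_)
  rw [sub_sub_cancel, abs_of_pos Real.pi_pos, one_mul]

theorem intg_real {f : ℝ → ℝ} (hm : Measurable f) {C : ℝ} (hC : ∀ t, |f t| ≤ C) (a b : ℝ) :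
    IntervalIntegrable f volume a b := by
  have h := (BM.i (f := fun t => ((f t : ℝ) : ℂ)) (C := C)
    ⟨Complex.measurable_ofReal.comp hm, fun t => by
      rw [Complex.norm_real, Real.norm_eq_abs]; exact hC t⟩ a b)
  have h2 := h.norm
  have h3 : IntervalIntegrable (fun t => (Complex.re ((f t : ℝ) : ℂ))) volume a b := by
    rw [intervalIntegrable_iff] at h ⊢
    exact h.re
  simpa using h3

theorem hw_abs (η2 η6 η10 : ℂ) (φ : ℝ) : |hw η2 η6 η10 φ| ≤ 1 + 2 * (‖η2‖ + ‖η6‖ + ‖η10‖) := by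
  have h : ∀ (η : ℂ) (x : ℝ), |(η * ee x).re| ≤ ‖η‖ := by
    intro η x
    refine (Complex.abs_re_le_norm _).trans ?_
    rw [norm_mul, norm_ee, mul_one]
  have h2 := abs_le.1 (h η2 (2 * φ))
  have h6 := abs_le.1 (h η6 (6 * φ))
  have h10 := abs_le.1 (h η10 (10 * φ))
  have n2 := norm_nonneg η2
  have n6 := norm_nonneg η6
  have n10 := norm_nonneg η10
  unfold hw
  rw [abs_le]
  constructor <;> linarith

theorem hw_meas (η2 η6 η10 : ℂ) : Measurable (hw η2 η6 η10) := by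
  have h : ∀ (η : ℂ) (c : ℝ), Measurable fun x => (η * ee (c * x)).re := by
    intro η c
    exact Complex.measurable_re.comp (((continuous_ee.measurable).comp (measurable_const.mul measurable_id)).const_mul η)
  unfold hw
  exact measurable_const.sub (measurable_const.mul
    ((((h η2 2).div_const 3).add ((h η6 6).div_const 35)).add ((h η10 10).div_const 99)))

theorem hwG_intg {G : ℝ → ℂ} {D : ℝ} (hG : BM G D) {a : ℝ → ℝ} (ha : Measurable a) (η2 η6 η10 : ℂ) (x y : ℝ) :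
    IntervalIntegrable (fun θ => ‖G θ‖ * hw η2 η6 η10 (a θ)) volume x y := by
  refine intg_real (C := D * (1 + 2 * (‖η2‖ + ‖η6‖ + ‖η10‖))) (hG.m.norm.mul ((hw_meas η2 η6 η10).comp ha)) ?_ _ _
  intro t
  show |‖G t‖ * hw η2 η6 η10 (a t)| ≤ _
  rw [abs_mul, abs_of_nonneg (norm_nonneg _)]
  exact mul_le_mul (hG.b t) (hw_abs _ _ _ _) (abs_nonneg _) hG.C0

theorem rg_intg {α G : ℝ → ℂ} {E D K : ℝ} (ha : BM α E) (hG : BM G D) {a φ : ℝ → ℝ} (hm : Measurable a)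
    (hφ : Measurable φ) (he : ∀ θ, G θ = (‖G θ‖ : ℂ) * ee (a θ)) (hk : ∀ θ, |a θ - φ θ| ≤ K) (x y : ℝ) :
    IntervalIntegrable (fun θ => rg α ‖G θ‖ (φ θ) (a θ)) volume x y := by
  have he1 : BM (fun t => ee t) 1 := ⟨continuous_ee.measurable, fun t => by rw [norm_ee]⟩
  have hb : BM (fun t => ee t * α t) (1 * E) := BM.mul he1 ha
  have hI : BM (fun θ => ∫ s in (φ θ)..(a θ), ee s * α s) (1 * E * K) :=
    ⟨int_meas hb hφ hm, fun θ => (int_bd hb _ _).trans (mul_le_mul_of_nonneg_left (hk θ) hb.C0)⟩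
  have hX := hG.mul hI.conj
  have e : (fun θ => rg α ‖G θ‖ (φ θ) (a θ)) =
      fun θ => (G θ * (starRingEnd ℂ) (∫ s in (φ θ)..(a θ), ee s * α s)).im := by
    funext θ
    rw [im_rough ha (G θ) (a θ) (φ θ) (he θ)]
  rw [e]
  exact intg_real (Complex.measurable_im.comp hX.m)
    (fun t => (Complex.abs_im_le_norm _).trans (hX.b t)) _ _

/-- LINK 2, exact splitting. `a₁, a₂` are the angles of `G₁, G₂` (any measurable choice at bounded distance from the
explicit alignments `φ₁, φ₂`). -/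
theorem link2_gen {A0 A B v α : ℝ → ℂ} {C E K : ℝ} {η2 η6 η10 : ℂ} (h : Hex A0 A B v C) (ha : BM α E)
    (hp : ∀ t, α (t + Real.pi) = α t) (e : ∀ t, A0 t = ee t * (wt η2 η6 η10 t + α t))
    {φ1 φ2 a1 a2 : ℝ → ℝ} (m1 : Measurable φ1) (m2 : Measurable φ2) (n1 : Measurable a1) (n2 : Measurable a2)
    (k1 : ∀ θ, |a1 θ - φ1 θ| ≤ K) (k2 : ∀ θ, |a2 θ - φ2 θ| ≤ K)
    (e1 : ∀ θ, G1 A v θ = (‖G1 A v θ‖ : ℂ) * ee (a1 θ)) (e2 : ∀ θ, G2 B v θ = (‖G2 B v θ‖ : ℂ) * ee (a2 θ)) :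
    1 / (2 * Real.pi) * (∫ θ in (0 : ℝ)..(2 * Real.pi),
        (‖G1 A v θ‖ * hw η2 η6 η10 (a1 θ) + ‖G2 B v θ‖ * hw η2 η6 η10 (a2 θ)))
    + 1 / (4 * Real.pi) * (∫ θ in (0 : ℝ)..(2 * Real.pi),
        ((G1 A v θ * (starRingEnd ℂ) (∫ t in (φ1 θ - Real.pi)..(φ1 θ), ee t * α t)).im
        + (G2 B v θ * (starRingEnd ℂ) (∫ t in (φ2 θ - Real.pi)..(φ2 θ), ee t * α t)).im))
    + 1 / (2 * Real.pi) * (∫ θ in (0 : ℝ)..(2 * Real.pi),
        (rg α ‖G1 A v θ‖ (φ1 θ) (a1 θ) + rg α ‖G2 B v θ‖ (φ2 θ) (a2 θ)))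
      ≤ A0QG A0 A B v := by
  refine le_trans (le_of_eq ?_) (Helper44.RCG.a0qG h n1 n2)
  have hp0 := Real.pi_pos
  have b1 : BM (G1 A v) (2 * C) := ⟨Helper44.RCG.G1_meas h.q, Helper44.RCG.G1_le h.q⟩
  have b2 : BM (G2 B v) (2 * C) := ⟨Helper44.RCG.G2_meas h.q, Helper44.RCG.G2_le h.q⟩
  have E1 := bmE ha b1 m1
  have E2 := bmE ha b2 m2
  have I1 : IntervalIntegrable (fun θ => ‖G1 A v θ‖ * hw η2 η6 η10 (a1 θ) + ‖G2 B v θ‖ * hw η2 η6 η10 (a2 θ))
      volume 0 (2 * Real.pi) := (hwG_intg b1 n1 _ _ _ _ _).add (hwG_intg b2 n2 _ _ _ _ _)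
  have I2 : IntervalIntegrable (fun θ =>
      ((G1 A v θ * (starRingEnd ℂ) (∫ t in (φ1 θ - Real.pi)..(φ1 θ), ee t * α t)).im
        + (G2 B v θ * (starRingEnd ℂ) (∫ t in (φ2 θ - Real.pi)..(φ2 θ), ee t * α t)).im))
      volume 0 (2 * Real.pi) :=
    (intg_real (Complex.measurable_im.comp E1.m)
      (fun t => (Complex.abs_im_le_norm _).trans (E1.b t)) _ _).add
    (intg_real (Complex.measurable_im.comp E2.m)
      (fun t => (Complex.abs_im_le_norm _).trans (E2.b t)) _ _)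
  have I3 : IntervalIntegrable (fun θ => rg α ‖G1 A v θ‖ (φ1 θ) (a1 θ) + rg α ‖G2 B v θ‖ (φ2 θ) (a2 θ))
      volume 0 (2 * Real.pi) :=
    (rg_intg ha b1 n1 m1 e1 k1 _ _).add (rg_intg ha b2 n2 m2 e2 k2 _ _)
  have hX : ∫ θ in (0 : ℝ)..(2 * Real.pi),
      ((G1 A v θ * (starRingEnd ℂ) (∫ t in (a1 θ - Real.pi)..(a1 θ), A0 t)).im
      + (G2 B v θ * (starRingEnd ℂ) (∫ t in (a2 θ - Real.pi)..(a2 θ), A0 t)).im) =
      2 * (∫ θ in (0 : ℝ)..(2 * Real.pi),
        (‖G1 A v θ‖ * hw η2 η6 η10 (a1 θ) + ‖G2 B v θ‖ * hw η2 η6 η10 (a2 θ)))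
      + (∫ θ in (0 : ℝ)..(2 * Real.pi),
        ((G1 A v θ * (starRingEnd ℂ) (∫ t in (φ1 θ - Real.pi)..(φ1 θ), ee t * α t)).im
        + (G2 B v θ * (starRingEnd ℂ) (∫ t in (φ2 θ - Real.pi)..(φ2 θ), ee t * α t)).im))
      + 2 * (∫ θ in (0 : ℝ)..(2 * Real.pi),
        (rg α ‖G1 A v θ‖ (φ1 θ) (a1 θ) + rg α ‖G2 B v θ‖ (φ2 θ) (a2 θ))) := by
    rw [← intervalIntegral.integral_const_mul, ← intervalIntegral.integral_const_mul,
      ← intervalIntegral.integral_add (I1.const_mul 2) I2,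
      ← intervalIntegral.integral_add ((I1.const_mul 2).add I2) (I3.const_mul 2)]
    refine intervalIntegral.integral_congr fun θ _ => ?_
    show (G1 A v θ * (starRingEnd ℂ) (∫ t in (a1 θ - Real.pi)..(a1 θ), A0 t)).im
      + (G2 B v θ * (starRingEnd ℂ) (∫ t in (a2 θ - Real.pi)..(a2 θ), A0 t)).im = _
    rw [split_at ha hp e (G1 A v θ) (a1 θ) (φ1 θ) (e1 θ), split_at ha hp e (G2 B v θ) (a2 θ) (φ2 θ) (e2 θ)]
    ring
  rw [hX]
  field_simp
  ring

/-- LINK 2, exact splitting, with the angles `al G₁`, `al G₂`. -/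
theorem link2 {A0 A B v α : ℝ → ℂ} {C E K : ℝ} {η2 η6 η10 : ℂ} (h : Hex A0 A B v C) (ha : BM α E)
    (hp : ∀ t, α (t + Real.pi) = α t) (e : ∀ t, A0 t = ee t * (wt η2 η6 η10 t + α t))
    {φ1 φ2 : ℝ → ℝ} (m1 : Measurable φ1) (m2 : Measurable φ2)
    (k1 : ∀ θ, |φ1 θ - θ| ≤ K) (k2 : ∀ θ, |φ2 θ - θ| ≤ K) :
    1 / (2 * Real.pi) * (∫ θ in (0 : ℝ)..(2 * Real.pi),
        (‖G1 A v θ‖ * hw η2 η6 η10 (al (G1 A v) θ) + ‖G2 B v θ‖ * hw η2 η6 η10 (al (G2 B v) θ)))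
    + 1 / (4 * Real.pi) * (∫ θ in (0 : ℝ)..(2 * Real.pi),
        ((G1 A v θ * (starRingEnd ℂ) (∫ t in (φ1 θ - Real.pi)..(φ1 θ), ee t * α t)).im
        + (G2 B v θ * (starRingEnd ℂ) (∫ t in (φ2 θ - Real.pi)..(φ2 θ), ee t * α t)).im))
    + 1 / (2 * Real.pi) * (∫ θ in (0 : ℝ)..(2 * Real.pi),
        (rg α ‖G1 A v θ‖ (φ1 θ) (al (G1 A v) θ) + rg α ‖G2 B v θ‖ (φ2 θ) (al (G2 B v) θ)))
      ≤ A0QG A0 A B v := by
  refine link2_gen (K := Real.pi + K) h ha hp e m1 m2 (al_meas (Helper44.RCG.G1_meas h.q))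
    (al_meas (Helper44.RCG.G2_meas h.q)) (fun θ => ?_) (fun θ => ?_) (al_ee _) (al_ee _)
  · have h1 := abs_le.1 (al_abs (G1 A v) θ)
    have h2 := abs_le.1 (k1 θ)
    rw [abs_le]
    constructor <;> linarith
  · have h1 := abs_le.1 (al_abs (G2 B v) θ)
    have h2 := abs_le.1 (k2 θ)
    rw [abs_le]
    constructor <;> linarith

end Pool.Agent.Helper20.RC
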