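import Pool.Agent.Helper56.RC.St
import Pool.Agent.Helper87.RC.M_BIL

/-!
# Project RC, module C00
-/

open MeasureTheory Set Filter Metric

namespace Pool.Agent.Helper20.RC

open Helper49.LT Helper49.RC Helper87.RC Helper44.RC Helper56.RC

/-- the window kernel: `1` for `x` in `[0, π)` modulo `2π` -/
noncomputable def wk (x : ℝ) : ℂ := if Int.fract (x / (2 * Real.pi)) < 1 / 2 then 1 else 0

theorem wk_bm : BM wk 1 := by
  constructor
  · unfold wk
    refine Measurable.ite ?_ measurable_const measurable_const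
    exact measurableSet_lt ((measurable_id.div_const _).fract) measurable_const
  · intro t
    unfold wk
    split_ifs <;> simp

theorem wk_per (x : ℝ) : wk (x + 2 * Real.pi) = wk x := by
  unfold wk
  have h : (x + 2 * Real.pi) / (2 * Real.pi) = x / (2 * Real.pi) + 1 := by
    have := Real.pi_pos
    field_simp
  rw [h, Int.fract_add_one]

theorem wk_one {x : ℝ} (h0 : 0 ≤ x) (h1 : x < Real.pi) : wk x = 1 := by
  have hp := Real.pi_pos
  unfold wk
  rw [Int.fract_eq_self.2 ⟨by positivity, by rw [div_lt_one (by positivity)]; linarith⟩]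
  rw [if_pos]
  rw [div_lt_iff₀ (by positivity)]
  linarith

theorem wk_zero {x : ℝ} (h0 : Real.pi ≤ x) (h1 : x < 2 * Real.pi) : wk x = 0 := by
  have hp := Real.pi_pos
  unfold wk
  rw [Int.fract_eq_self.2 ⟨div_nonneg (by linarith) (by positivity), by rw [div_lt_one (by positivity)]; linarith⟩]
  rw [if_neg]
  rw [not_lt, le_div_iff₀ (by positivity)]
  linarith

/-- the integral over the half circle before `s` -/
theorem half_eq {f : ℝ → ℂ} {C : ℝ} (hf : BM f C) (hper : ∀ t, f (t + 2 * Real.pi) = f t) (s : ℝ) :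
    ∫ t in (0 : ℝ)..(2 * Real.pi), wk (s - t) * f t = ∫ t in (s - Real.pi)..s, f t := by
  have hp := Real.pi_pos
  have hg : BM (fun t => wk (s - t) * f t) (1 * C) := by
    refine BM.mul (f := fun t => wk (s - t)) ?_ hf
    exact ⟨wk_bm.m.comp (measurable_const.sub measurable_id), fun t => wk_bm.b _⟩
  have hgp : ∀ t, wk (s - (t + 2 * Real.pi)) * f (t + 2 * Real.pi) = wk (s - t) * f t := by
    intro t
    rw [hper]
    congr 1
    have := wk_per (s - (t + 2 * Real.pi))
    rw [← this]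
    congr 1
    ring
  rw [← shiftC2 (g := fun t => wk (s - t) * f t) hgp (s - 2 * Real.pi)]
  have e : s - 2 * Real.pi + 2 * Real.pi = s := by ring
  rw [e, ← intervalIntegral.integral_add_adjacent_intervals (b := s - Real.pi) (hg.i _ _) (hg.i _ _)]
  have h1 : ∫ t in (s - 2 * Real.pi)..(s - Real.pi), wk (s - t) * f t = 0 := by
    rw [intervalIntegral.integral_congr_ae (g := fun _ => (0 : ℂ))]
    · simp
    · have hne : ∀ᵐ t : ℝ, t ≠ s - 2 * Real.pi := by
        rw [ae_iff]; simp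
      filter_upwards [hne] with t ht hmem
      rw [uIoc_of_le (by linarith)] at hmem
      rw [wk_zero (by linarith [hmem.2]) (by linarith [hmem.1]), zero_mul]
  have h2 : ∫ t in (s - Real.pi)..s, wk (s - t) * f t = ∫ t in (s - Real.pi)..s, f t := by
    refine intervalIntegral.integral_congr_ae ?_
    refine Filter.Eventually.of_forall fun t hmem => ?_
    rw [uIoc_of_le (by linarith)] at hmem
    rw [wk_one (by linarith [hmem.2]) (by linarith [hmem.1]), one_mul]
  rw [h1, h2, zero_add]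

theorem ee_int_pi (n : ℤ) : ee (-(n : ℝ) * Real.pi) = (-1) ^ n := by
  have h := ee_int_mul (-n) Real.pi
  push_cast at h
  rw [h, ee_pi]
  rcases Int.even_or_odd n with hn | hn
  · rw [Even.neg_one_zpow hn, Even.neg_one_zpow hn.neg]
  · rw [Odd.neg_one_zpow hn, Odd.neg_one_zpow hn.neg]

theorem fc_wk_aux (n : ℤ) : ∫ t in (0 : ℝ)..(2 * Real.pi), wk t * ee (-(n : ℝ) * t) =
    ∫ t in (0 : ℝ)..Real.pi, ee (-(n : ℝ) * t) := by
  have hp := Real.pi_pos
  have hg : BM (fun t => wk t * ee (-(n : ℝ) * t)) (1 * 1) := wk_bm.mul (BM.eec _)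
  rw [← intervalIntegral.integral_add_adjacent_intervals (b := Real.pi) (hg.i _ _) (hg.i _ _)]
  have h1 : ∫ t in (Real.pi)..(2 * Real.pi), wk t * ee (-(n : ℝ) * t) = 0 := by
    rw [intervalIntegral.integral_congr_ae (g := fun _ => (0 : ℂ))]
    · simp
    · have hne : ∀ᵐ t : ℝ, t ≠ 2 * Real.pi := by
        rw [ae_iff]; simp
      filter_upwards [hne] with t ht hmem
      rw [uIoc_of_le (by linarith)] at hmem
      rw [wk_zero hmem.1.le (lt_of_le_of_ne hmem.2 ht), zero_mul]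
  have h2 : ∫ t in (0 : ℝ)..Real.pi, wk t * ee (-(n : ℝ) * t) =
      ∫ t in (0 : ℝ)..Real.pi, ee (-(n : ℝ) * t) := by
    refine intervalIntegral.integral_congr_ae ?_
    have hne : ∀ᵐ t : ℝ, t ≠ Real.pi := by
      rw [ae_iff]; simp
    filter_upwards [hne] with t ht hmem
    rw [uIoc_of_le (by linarith)] at hmem
    rw [wk_one hmem.1.le (lt_of_le_of_ne hmem.2 ht), one_mul]
  rw [h1, h2, add_zero]

/-- imaginary part of the conjugate coefficient -/
theorem fc_wk (n : ℤ) : (starRingEnd ℂ) (fc wk n) =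
    if n = 0 then 1 / 2 else (if Even n then 0 else Complex.I / (Real.pi * n)) := by
  have hp := Real.pi_pos
  have hpc : (Real.pi : ℂ) ≠ 0 := by exact_mod_cast hp.ne'
  rw [fc_eq, fc_wk_aux]
  split_ifs with h0 he
  · subst h0
    simp only [Int.cast_zero, neg_zero, zero_mul, ee_zero]
    rw [intervalIntegral.integral_const]
    simp only [sub_zero, Complex.real_smul, mul_one]
    have : (1 / (2 * Real.pi) : ℂ) * (Real.pi : ℂ) = ((1 / 2 : ℝ) : ℂ) := by
      push_cast; field_simp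
    rw [this, Complex.conj_ofReal]
    push_cast; rfl
  · have hn : (n : ℂ) ≠ 0 := by exact_mod_cast h0
    have hI : ∫ t in (0 : ℝ)..Real.pi, ee (-(n : ℝ) * t) = (ee (-(n : ℝ) * Real.pi) - 1) / (-(n : ℂ) * Complex.I) := by
      have hd : ∀ t ∈ Set.uIcc (0 : ℝ) Real.pi, HasDerivAt (fun t : ℝ => ee (-(n : ℝ) * t) / (-(n : ℂ) * Complex.I))
          (ee (-(n : ℝ) * t)) t := by
        intro t _
        have h4 := (hasDerivAt_ee (-(n : ℝ)) t).div_const (-(n : ℂ) * Complex.I)
        have h3 : -(n : ℂ) * Complex.I ≠ 0 := mul_ne_zero (neg_ne_zero.2 hn) Complex.I_ne_zero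
        have e : ((((-(n : ℝ) : ℝ) : ℂ)) * Complex.I * ee (-(n : ℝ) * t)) / (-(n : ℂ) * Complex.I) =
            ee (-(n : ℝ) * t) := by
          rw [div_eq_iff h3]; push_cast; ring
        rw [e] at h4
        exact h4
      rw [intervalIntegral.integral_eq_sub_of_hasDerivAt hd ((BM.eec _).i _ _)]
      rw [mul_zero, ee_zero]
      ring
    rw [hI, ee_int_pi, Even.neg_one_zpow he]
    simp
  · have hn : (n : ℂ) ≠ 0 := by exact_mod_cast h0
    have ho : Odd n := Int.not_even_iff_odd.1 he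
    have hI : ∫ t in (0 : ℝ)..Real.pi, ee (-(n : ℝ) * t) = (ee (-(n : ℝ) * Real.pi) - 1) / (-(n : ℂ) * Complex.I) := by
      have hd : ∀ t ∈ Set.uIcc (0 : ℝ) Real.pi, HasDerivAt (fun t : ℝ => ee (-(n : ℝ) * t) / (-(n : ℂ) * Complex.I))
          (ee (-(n : ℝ) * t)) t := by
        intro t _
        have h4 := (hasDerivAt_ee (-(n : ℝ)) t).div_const (-(n : ℂ) * Complex.I)
        have h3 : -(n : ℂ) * Complex.I ≠ 0 := mul_ne_zero (neg_ne_zero.2 hn) Complex.I_ne_zero
        have e : ((((-(n : ℝ) : ℝ) : ℂ)) * Complex.I * ee (-(n : ℝ) * t)) / (-(n : ℂ) * Complex.I) =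
            ee (-(n : ℝ) * t) := by
          rw [div_eq_iff h3]; push_cast; ring
        rw [e] at h4
        exact h4
      rw [intervalIntegral.integral_eq_sub_of_hasDerivAt hd ((BM.eec _).i _ _)]
      rw [mul_zero, ee_zero]
      ring
    rw [hI, ee_int_pi, Odd.neg_one_zpow ho]
    have e : (1 / (2 * Real.pi) : ℂ) * ((-1 - 1) / (-(n : ℂ) * Complex.I)) = -(Complex.I / (Real.pi * n)) := by
      field_simp
      ring_nf
      rw [Complex.I_sq]
      ring
    rw [e, map_neg, map_div₀, Complex.conj_I, map_mul, Complex.conj_ofReal]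
    have : (starRingEnd ℂ) (n : ℂ) = (n : ℂ) := by
      have : (n : ℂ) = ((n : ℝ) : ℂ) := by push_cast; rfl
      rw [this, Complex.conj_ofReal]
    rw [this]
    ring

theorem fc_wk_im (n : ℤ) : ((starRingEnd ℂ) (fc wk n)).im = if Even n then 0 else 1 / (Real.pi * n) := by
  rw [fc_wk]
  split_ifs with h0 he he
  · norm_num
  · subst h0; exact absurd (by decide) he
  · simp
  · have : (Complex.I / (Real.pi * n) : ℂ) = ((1 / (Real.pi * n) : ℝ) : ℂ) * Complex.I := by
      push_cast; ring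
    rw [this]
    simp

/-- Parseval for the half circle integral. -/
theorem half_parseval {f : ℝ → ℂ} {C : ℝ} (hf : BM f C) (hper : ∀ t, f (t + 2 * Real.pi) = f t) :
    HasSum (fun n : ℤ => if Even n then 0 else ‖fc f n‖ ^ 2 / n)
      (1 / (4 * Real.pi) * ∫ s in (0 : ℝ)..(2 * Real.pi),
        (f s * (starRingEnd ℂ) (∫ t in (s - Real.pi)..s, f t)).im) := by
  have hp := Real.pi_pos
  have hG := conv_BM wk_bm hf
  have h := pars2 hf hG
  have e1 : (fun n : ℤ => fc f n * (starRingEnd ℂ) (fc (fun s => (1 / (2 * Real.pi) : ℂ) *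
      ∫ t in (0 : ℝ)..(2 * Real.pi), wk (s - t) * f t) n)) =
      fun n : ℤ => ((‖fc f n‖ ^ 2 : ℝ) : ℂ) * (starRingEnd ℂ) (fc wk n) := by
    funext n
    rw [fc_conv wk_bm wk_per hf, map_mul]
    have : ((‖fc f n‖ ^ 2 : ℝ) : ℂ) = fc f n * (starRingEnd ℂ) (fc f n) := by
      rw [Complex.mul_conj, Complex.normSq_eq_norm_sq]
    rw [this]; ring
  rw [e1] at h
  have e3 : ∀ s : ℝ, f s * (starRingEnd ℂ) ((1 / (2 * Real.pi) : ℂ) *
      ∫ t in (0 : ℝ)..(2 * Real.pi), wk (s - t) * f t) =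
      (1 / (2 * Real.pi) : ℂ) * (f s * (starRingEnd ℂ) (∫ t in (s - Real.pi)..s, f t)) := by
    intro s
    rw [half_eq hf hper, map_mul]
    have : (starRingEnd ℂ) (1 / (2 * Real.pi) : ℂ) = (1 / (2 * Real.pi) : ℂ) := by
      have : (1 / (2 * Real.pi) : ℂ) = ((1 / (2 * Real.pi) : ℝ) : ℂ) := by push_cast; rfl
      rw [this, Complex.conj_ofReal]
    rw [this]; ring
  have hX : (∫ s in (0 : ℝ)..(2 * Real.pi), f s * (starRingEnd ℂ) ((fun s => (1 / (2 * Real.pi) : ℂ) *
      ∫ t in (0 : ℝ)..(2 * Real.pi), wk (s - t) * f t) s)) = (1 / (2 * Real.pi) : ℂ) *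
      ∫ s in (0 : ℝ)..(2 * Real.pi), f s * (starRingEnd ℂ) (∫ t in (s - Real.pi)..s, f t) := by
    rw [← intervalIntegral.integral_const_mul]
    exact intervalIntegral.integral_congr fun s _ => e3 s
  rw [hX] at h
  have h2 := (Complex.hasSum_im h).mul_left Real.pi
  have e2 : (fun n : ℤ => Real.pi * (((‖fc f n‖ ^ 2 : ℝ) : ℂ) * (starRingEnd ℂ) (fc wk n)).im) =
      fun n : ℤ => if Even n then 0 else ‖fc f n‖ ^ 2 / n := by
    funext n
    rw [Complex.im_ofReal_mul, fc_wk_im]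
    split_ifs with he
    · ring
    · have hn : (n : ℝ) ≠ 0 := by
        intro h0
        apply he
        have : n = 0 := by exact_mod_cast h0
        subst this
        decide
      field_simp
  rw [e2] at h2
  have hH : BM (fun s => f s * (starRingEnd ℂ) (∫ t in (s - Real.pi)..s, f t)) (C * (2 * Real.pi * (1 * C))) := by
    refine hf.mul (BM.conj ?_)
    have h3 := hG.cmul (2 * Real.pi : ℂ)
    have e4 : (fun s => (2 * Real.pi : ℂ) * ((1 / (2 * Real.pi) : ℂ) *
        ∫ t in (0 : ℝ)..(2 * Real.pi), wk (s - t) * f t)) = fun s => ∫ t in (s - Real.pi)..s, f t := by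
      funext s
      rw [half_eq hf hper]
      have hpc : (Real.pi : ℂ) ≠ 0 := by exact_mod_cast hp.ne'
      field_simp
    rw [e4] at h3
    have e5 : ‖(2 * Real.pi : ℂ)‖ = 2 * Real.pi := by
      rw [norm_mul, Complex.norm_real, Real.norm_of_nonneg hp.le]
      norm_num
    rw [e5] at h3
    exact h3
  have h5 : (∫ s in (0 : ℝ)..(2 * Real.pi), f s * (starRingEnd ℂ) (∫ t in (s - Real.pi)..s, f t)).im =
      ∫ s in (0 : ℝ)..(2 * Real.pi), (f s * (starRingEnd ℂ) (∫ t in (s - Real.pi)..s, f t)).im := by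
    have := Complex.imCLM.intervalIntegral_comp_comm (hH.i 0 (2 * Real.pi))
    simpa using this.symm
  have h6 : ∀ z : ℂ, ((1 / (2 * Real.pi) : ℂ) * ((1 / (2 * Real.pi) : ℂ) * z)).im =
      1 / (2 * Real.pi) * (1 / (2 * Real.pi)) * z.im := by
    intro z
    have : (1 / (2 * Real.pi) : ℂ) * ((1 / (2 * Real.pi) : ℂ) * z) =
      ((1 / (2 * Real.pi) * (1 / (2 * Real.pi)) : ℝ) : ℂ) * z := by push_cast; ring
    rw [this, Complex.im_ofReal_mul]
  rw [h6, h5] at h2
  have h7 : Real.pi * (1 / (2 * Real.pi) * (1 / (2 * Real.pi)) *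
      ∫ s in (0 : ℝ)..(2 * Real.pi), (f s * (starRingEnd ℂ) (∫ t in (s - Real.pi)..s, f t)).im) =
      1 / (4 * Real.pi) * ∫ s in (0 : ℝ)..(2 * Real.pi),
        (f s * (starRingEnd ℂ) (∫ t in (s - Real.pi)..s, f t)).im := by
    field_simp
    ring
  rw [h7] at h2
  exact h2

/-- mean of an exponential -/
theorem fc_ee (n : ℤ) : fc (fun t => ee t) n = if n = 1 then 1 else 0 := by
  have hp := Real.pi_pos
  rw [fc_eq]
  have e : ∀ t : ℝ, ee t * ee (-(n : ℝ) * t) = ee (((1 - n : ℤ) : ℝ) * t) := by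
    intro t
    rw [← ee_add]; congr 1; push_cast; ring
  simp_rw [e]
  split_ifs with h
  · subst h
    simp only [sub_self, Int.cast_zero, zero_mul, ee_zero]
    rw [intervalIntegral.integral_const]
    have hpc : (Real.pi : ℂ) ≠ 0 := by exact_mod_cast hp.ne'
    simp only [sub_zero, Complex.real_smul, mul_one]
    push_cast
    field_simp
  · have hn : ((1 - n : ℤ) : ℂ) ≠ 0 := by
      intro h0
      have : (1 - n : ℤ) = 0 := by exact_mod_cast h0
      omega
    have h3 : ((1 - n : ℤ) : ℂ) * Complex.I ≠ 0 := mul_ne_zero hn Complex.I_ne_zero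
    have hd : ∀ t ∈ Set.uIcc (0 : ℝ) (2 * Real.pi), HasDerivAt
        (fun t : ℝ => ee (((1 - n : ℤ) : ℝ) * t) / (((1 - n : ℤ) : ℂ) * Complex.I))
        (ee (((1 - n : ℤ) : ℝ) * t)) t := by
      intro t _
      have h4 := (hasDerivAt_ee (((1 - n : ℤ) : ℝ)) t).div_const (((1 - n : ℤ) : ℂ) * Complex.I)
      have e : (((((1 - n : ℤ) : ℝ)) : ℂ) * Complex.I * ee (((1 - n : ℤ) : ℝ) * t)) /
          (((1 - n : ℤ) : ℂ) * Complex.I) = ee (((1 - n : ℤ) : ℝ) * t) := by
        rw [div_eq_iff h3]; push_cast; ring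
      rw [e] at h4
      exact h4
    rw [intervalIntegral.integral_eq_sub_of_hasDerivAt hd ((BM.eec _).i _ _)]
    have h5 := ee_int (1 - n) 0
    rw [zero_add] at h5
    rw [h5, sub_self, mul_zero]

theorem fc_E0 {β P : ℝ → ℂ} (h : Adm β P) (n : ℤ) :
    fc (E0 β) n = (if n = 1 then 1 else 0) + fc β (n - 1) := by
  have hb : BM β 2 := ⟨h.mb, fun t => by
    have := h.bdb t
    nlinarith [norm_nonneg (β t)]⟩
  have h1 : BM (fun t => ee t) 1 := by
    have := BM.eec 1
    simpa using this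
  have e : E0 β = fun t => ee t + ee t * β t := by
    funext t; unfold E0 f0; ring
  rw [e, fc_add h1 (h1.mul hb), fc_ee]
  congr 1
  rw [fc_eq, fc_eq]
  congr 1
  refine intervalIntegral.integral_congr fun t _ => ?_
  show ee t * β t * ee (-(n : ℝ) * t) = β t * ee (-((n - 1 : ℤ) : ℝ) * t)
  have : ee (-((n - 1 : ℤ) : ℝ) * t) = ee t * ee (-(n : ℝ) * t) := by
    rw [← ee_add]; congr 1; push_cast; ring
  rw [this]; ring

/-- MODULE C00 -/
theorem hC00 (h : StA00) : StC00 := by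
  intro β P hA hb
  refine le_trans ?_ (h β P hA)
  have hbB : BM β 2 := ⟨hA.mb, fun t => by
    have := hA.bdb t
    nlinarith [norm_nonneg (β t)]⟩
  have h1 : BM (fun t => ee t) 1 := by
    have := BM.eec 1
    simpa using this
  have hE : BM (E0 β) (1 + 1 * 2) := by
    have e : E0 β = fun t => ee t + ee t * β t := by
      funext t; unfold E0 f0; ring
    rw [e]
    exact h1.add (h1.mul hbB)
  have hper : ∀ t, E0 β (t + 2 * Real.pi) = E0 β t := by
    intro t
    unfold E0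
    rw [ee_per]
    have : β (t + 2 * Real.pi) = β t := by
      have e : t + 2 * Real.pi = (t + Real.pi) + Real.pi := by ring
      rw [e, hA.perb, hA.perb]
    rw [this]
  have hs := half_parseval hE hper
  -- restrict to odd frequencies
  set g : ℤ → ℝ := fun n => if Even n then 0 else ‖fc (E0 β) n‖ ^ 2 / n with hg
  have hinj : Function.Injective (fun m : ℤ => 2 * m + 1) := by
    intro a b hab; simp only at hab; omega
  have hsup : ∀ n, n ∉ Set.range (fun m : ℤ => 2 * m + 1) → g n = 0 := by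
    intro n hn
    have : Even n := by
      rw [← Int.not_odd_iff_even]
      rintro ⟨k, hk⟩
      exact hn ⟨k, hk.symm⟩
    simp only [hg, if_pos this]
  have hs2 := (hinj.hasSum_iff hsup).2 hs
  have hs3 := hs2.nat_add_neg_add_one
  -- the two sequences
  have hsq := (pars hE).summable
  have hodd : ∀ m : ℤ, ¬ Even (2 * m + 1) := by
    intro m
    rw [Int.not_even_iff_odd]
    exact ⟨m, rfl⟩
  have ea : ∀ k : ℕ, (g ∘ fun m : ℤ => 2 * m + 1) (k : ℤ) = ‖fc (E0 β) (2 * (k : ℤ) + 1)‖ ^ 2 / (2 * k + 1) := by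
    intro k
    simp only [Function.comp, hg, if_neg (hodd _)]
    push_cast; rfl
  have eb : ∀ k : ℕ, (g ∘ fun m : ℤ => 2 * m + 1) (-((k : ℤ) + 1)) = -(‖ww β k‖ ^ 2 / (2 * k + 1)) := by
    intro k
    simp only [Function.comp, hg, if_neg (hodd _)]
    have e1 : (2 * (-((k : ℤ) + 1)) + 1 : ℤ) = -(2 * k + 1) := by ring
    rw [e1, fc_E0 hA, if_neg (by omega), zero_add]
    have e2 : (-(2 * (k : ℤ) + 1) - 1 : ℤ) = -(2 * k + 2) := by ring
    rw [e2]
    unfold ww
    push_cast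
    rw [div_neg]
  have hsa : Summable (fun k : ℕ => ‖fc (E0 β) (2 * (k : ℤ) + 1)‖ ^ 2 / (2 * (k : ℝ) + 1)) := by
    have h2 : Summable (fun k : ℕ => ‖fc (E0 β) (2 * (k : ℤ) + 1)‖ ^ 2) := by
      have hi : Function.Injective (fun k : ℕ => (2 * (k : ℤ) + 1)) := by
        intro a b hab; simp only at hab; omega
      exact hsq.comp_injective hi
    refine Summable.of_nonneg_of_le (fun k => by positivity) (fun k => ?_) h2
    rw [div_le_iff₀ (by positivity)]
    have : (0 : ℝ) ≤ ‖fc (E0 β) (2 * (k : ℤ) + 1)‖ ^ 2 := by positivity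
    have hk : (0 : ℝ) ≤ (k : ℝ) := Nat.cast_nonneg k
    nlinarith
  have hsb : Summable (fun k : ℕ => ‖ww β k‖ ^ 2 / (2 * (k : ℝ) + 1)) := by
    have h2 : Summable (fun k : ℕ => ‖ww β k‖ ^ 2) := by
      have hi : Function.Injective (fun k : ℕ => -(2 * (k : ℤ) + 2)) := by
        intro a b hab; simp only at hab; omega
      exact (pars hbB).summable.comp_injective hi
    refine Summable.of_nonneg_of_le (fun k => by positivity) (fun k => ?_) h2
    rw [div_le_iff₀ (by positivity)]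
    have : (0 : ℝ) ≤ ‖ww β k‖ ^ 2 := by positivity
    have hk : (0 : ℝ) ≤ (k : ℝ) := Nat.cast_nonneg k
    nlinarith
  have e3 : (fun k : ℕ => (g ∘ fun m : ℤ => 2 * m + 1) (k : ℤ) +
      (g ∘ fun m : ℤ => 2 * m + 1) (-((k : ℤ) + 1))) =
      fun k : ℕ => ‖fc (E0 β) (2 * (k : ℤ) + 1)‖ ^ 2 / (2 * (k : ℝ) + 1) - ‖ww β k‖ ^ 2 / (2 * (k : ℝ) + 1) := by
    funext k
    rw [ea, eb]; ring
  rw [e3] at hs3
  rw [← hs3.tsum_eq, hsa.tsum_sub hsb, hsa.tsum_eq_zero_add]
  have hu : ∀ k : ℕ, ‖fc (E0 β) (2 * ((k + 1 : ℕ) : ℤ) + 1)‖ ^ 2 / (2 * ((k + 1 : ℕ) : ℝ) + 1) =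
      ‖uu β k‖ ^ 2 / (2 * k + 3) := by
    intro k
    rw [fc_E0 hA, if_neg (by push_cast; omega), zero_add]
    have e1 : (2 * ((k + 1 : ℕ) : ℤ) + 1 - 1 : ℤ) = 2 * k + 2 := by push_cast; ring
    rw [e1]
    unfold uu
    have e2 : (2 * ((k + 1 : ℕ) : ℝ) + 1) = 2 * k + 3 := by push_cast; ring
    rw [e2]
  have hsu : Summable (fun k : ℕ => ‖uu β k‖ ^ 2 / (2 * (k : ℝ) + 3)) := by
    have := (summable_nat_add_iff 1).2 hsa
    refine this.congr fun k => ?_
    exact hu k
  simp_rw [hu]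
  rw [hsu.tsum_sub hsb]
  have e0 : ‖fc (E0 β) (2 * ((0 : ℕ) : ℤ) + 1)‖ ^ 2 / (2 * ((0 : ℕ) : ℝ) + 1) =
      1 + 2 * b1 β + ‖fc β 0‖ ^ 2 := by
    rw [fc_E0 hA]
    simp only [Nat.cast_zero, mul_zero, zero_add, if_true, sub_self, div_one]
    unfold b1
    rw [← Complex.normSq_eq_norm_sq, ← Complex.normSq_eq_norm_sq, Complex.normSq_apply, Complex.normSq_apply]
    simp only [Complex.add_re, Complex.one_re, Complex.add_im, Complex.one_im]
    ring
  rw [e0]
  linarith

end Pool.Agent.Helper20.RC
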