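import Pool.Agent.Helper20.RC.SignF
import Pool.Agent.Helper44.RC.StFar

/-! # Project RC, SHARP, far lemma: the sign inequality (module I) -/

open MeasureTheory Set Filter Topology

namespace Pool.Agent.Helper20.RC

open Helper49.LT Helper87.RC

theorem BM.max_l {g : ℝ → ℂ} {C D : ℝ} (h : BM g C) : BM g (max C D) := ⟨h.m, fun t => (h.b t).trans (le_max_left _ _)⟩

theorem BM.max_r {g : ℝ → ℂ} {C D : ℝ} (h : BM g D) : BM g (max C D) := ⟨h.m, fun t => (h.b t).trans (le_max_right _ _)⟩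

theorem nu_sM (g1 g2 : ℝ → ℂ) (l : ℤ) : Helper44.Far.nu g1 g2 l = sM g1 g2 (l : ℝ) := by
  unfold Helper44.Far.nu sM
  simp_rw [neg_mul]

theorem en_eM (g1 g2 : ℝ → ℂ) (l : ℤ) : Helper44.Far.en g1 g2 l = eM g1 g2 (fun θ => θ) (fun θ => θ) (l : ℝ) := by
  unfold Helper44.Far.en eM eD
  simp_rw [neg_mul]
  push_cast
  rfl

/-- (I) -/
theorem hI : Helper44.Far.StI := by
  intro g1 g2 C1 C2 h1 h2 _ _
  obtain ⟨L, hL0, hL⟩ := sign_nominal (BM.max_l (D := C2) h1) (BM.max_r (C := C1) h2)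
  refine ⟨L, hL0, ?_⟩
  refine hL.congr fun N => ?_
  rw [nu_sM, en_eM, Int.cast_zero]
  congr 2
  refine Finset.sum_congr rfl fun n _ => ?_
  have e1 : ((Helper44.Far.fm n : ℤ) : ℝ) = lk n := by
    unfold Helper44.Far.fm lk; push_cast; ring
  have e2 : Helper44.Far.MM n = lk n ^ 2 - 1 := by
    unfold Helper44.Far.MM lk; ring
  rw [nu_sM, en_eM, e1, e2]

end Pool.Agent.Helper20.RC
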