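import Pool.Agent.Helper44.RC.StFar

/-! # Project RC, SHARP, far lemma: modules K and Const -/

open MeasureTheory Set Filter Topology

namespace Pool.Agent.Helper20.RC

open Helper44.GQ

theorem fk_poly (u d : ℝ) (hu : 0 < u) (hd : 0 ≤ d) (h : 8 * d * u + 4 * d ^ 2 ≤ u * (2 - u)) :
    0 ≤ 3 * (u + d) * (u - 1) ^ 2 + 24 * d * u ^ 2 - 54 * u * d ^ 2 - 38 * d ^ 3 := by
  have hu2 : u ≤ 2 := by nlinarith [mul_nonneg hd hu.le, sq_nonneg d]
  have hd4 : d ≤ 1 / 4 := by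
    by_contra hc
    push Not at hc
    nlinarith [mul_pos hu (by linarith : (0 : ℝ) < d - 1 / 4), sq_nonneg u, sq_nonneg d]
  have h1 : 54 * u * d ^ 2 + 38 * d ^ 3 ≤ d * (19 / 2 * (u * (2 - u))) := by
    have h2 := mul_le_mul_of_nonneg_left h hd
    nlinarith [mul_nonneg hu.le (sq_nonneg d), mul_nonneg hd (sq_nonneg d)]
  have h3 : 0 ≤ 3 * u * (1 - u) ^ 2 + d * (73 / 2 * u ^ 2 - 25 * u + 3) := by
    by_cases hb : 0 ≤ 73 / 2 * u ^ 2 - 25 * u + 3
    · have := mul_nonneg hd hb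
      have h4 : 0 ≤ 3 * u * (1 - u) ^ 2 := by positivity
      linarith
    · push Not at hb
      have h5 : d * (73 / 2 * u ^ 2 - 25 * u + 3) ≥ 1 / 4 * (73 / 2 * u ^ 2 - 25 * u + 3) := by
        nlinarith
      have h6 : 0 ≤ 3 * u * (1 - u) ^ 2 + 1 / 4 * (73 / 2 * u ^ 2 - 25 * u + 3) := by
        nlinarith [sq_nonneg (u - 7 / 20), mul_nonneg hu.le (sq_nonneg (u - 7 / 20))]
      linarith
  nlinarith

/-- K -/
theorem hK : Helper44.Far.StK := by
  intro b hb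
  set u : ℝ := 1 + b.re with hu
  set v : ℝ := b.im / 2 with hv
  have hn : b.re ^ 2 + b.im ^ 2 < 1 := by
    have h1 : ‖b‖ ^ 2 < 1 := by nlinarith [norm_nonneg b]
    rw [← Complex.normSq_eq_norm_sq, Complex.normSq_apply] at h1
    nlinarith
  have hu0 : 0 < u := by nlinarith [sq_nonneg b.im]
  have ha_re : (aQ 2 b).re = u := by unfold aQ; simp [hu]
  have ha_im : (aQ 2 b).im = v := by
    unfold aQ
    simp [hv]
  set r : ℝ := ‖aQ 2 b‖ with hr
  have hr2 : r ^ 2 = u ^ 2 + v ^ 2 := by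
    rw [hr, ← Complex.normSq_eq_norm_sq, Complex.normSq_apply, ha_re, ha_im]; ring
  have hrn : 0 ≤ r := norm_nonneg _
  have hr0 : 0 < r := by
    rcases hrn.lt_or_eq with h | h
    · exact h
    · exfalso
      rw [← h] at hr2
      nlinarith [sq_nonneg v, mul_pos hu0 hu0]
  have hru : u ≤ r := by nlinarith [sq_nonneg v]
  -- the square of the norm
  have e : ‖(starRingEnd ℂ) (aQ 2 b) ^ 2 / (r : ℂ) - (1 + (b.re : ℂ) - Complex.I * (b.im : ℂ))‖ ^ 2 =
      ((u ^ 2 - v ^ 2) / r - u) ^ 2 + (2 * v - 2 * u * v / r) ^ 2 := by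
    rw [← Complex.normSq_eq_norm_sq, Complex.normSq_apply]
    have e1 : ((starRingEnd ℂ) (aQ 2 b) ^ 2 / (r : ℂ) - (1 + (b.re : ℂ) - Complex.I * (b.im : ℂ))).re =
        (u ^ 2 - v ^ 2) / r - u := by
      rw [Complex.sub_re, Complex.div_ofReal_re, sq, Complex.mul_re, Complex.conj_re, Complex.conj_im, ha_re, ha_im]
      simp [hu]
      ring
    have e2 : ((starRingEnd ℂ) (aQ 2 b) ^ 2 / (r : ℂ) - (1 + (b.re : ℂ) - Complex.I * (b.im : ℂ))).im =
        2 * v - 2 * u * v / r := by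
      rw [Complex.sub_im, Complex.div_ofReal_im, sq, Complex.mul_im, Complex.conj_re, Complex.conj_im, ha_re, ha_im]
      simp [hv]
      ring
    rw [e1, e2]; ring
  rw [e]
  have hb2 : ‖b‖ ^ 2 = (u - 1) ^ 2 + 4 * v ^ 2 := by
    rw [← Complex.normSq_eq_norm_sq, Complex.normSq_apply, hu, hv]; ring
  rw [hb2]
  have hv2 : v ^ 2 = (r - u) * (r + u) := by nlinarith
  have key : ((u ^ 2 - v ^ 2) / r - u) ^ 2 + (2 * v - 2 * u * v / r) ^ 2 =
      (r - u) ^ 2 * (5 * r + 4 * u) / r := by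
    have h1 : (2 * v - 2 * u * v / r) ^ 2 = 4 * v ^ 2 * (1 - u / r) ^ 2 := by ring
    rw [h1, hv2]
    field_simp
    ring
  rw [key, div_le_iff₀ hr0, hv2]
  have hcon : 8 * (r - u) * u + 4 * (r - u) ^ 2 ≤ u * (2 - u) := by
    have h3 : (u - 1) ^ 2 + 4 * v ^ 2 < 1 := by
      rw [← hb2]; nlinarith [norm_nonneg b]
    nlinarith
  have hp := fk_poly u (r - u) hu0 (by linarith) hcon
  nlinarith

theorem kD_ge : 9895 / 10000 ≤ Helper44.Far.kD := by
  unfold Helper44.Far.kD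
  have h := Real.sin_gt_sub_cube (x := 1 / 4) (by norm_num)
  rw [le_div_iff₀ (by norm_num)]
  norm_num at h ⊢
  linarith

/-- the constant part -/
theorem hConst : Helper44.Far.StConst := by
  intro ν β γ hβ hS hν
  obtain ⟨hb1, hb2⟩ := abs_le.1 hβ
  have hk := kD_ge
  have h3 : (173205 : ℝ) / 100000 ≤ Real.sqrt 3 := by
    apply Real.le_sqrt_of_sq_le; norm_num
  have hs : (17138 : ℝ) / 10000 ≤ Real.sqrt 3 * Helper44.Far.kD := by
    nlinarith
  set s := Real.sqrt 3 * Helper44.Far.kD with hsdef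
  have hν0 : 11 / 5 - β ≤ ν := by linarith
  have hν1 : 0 < ν := by linarith
  have h4 : 17138 / 10000 * (1 - β) * ν ≤ s * (1 - β) * ν := by
    have : 0 ≤ (1 - β) * ν := mul_nonneg (by linarith) hν1.le
    nlinarith
  have h5 : 0 ≤ 2 * (1 + β) * ν + 17138 / 10000 * (1 - β) * ν + (1 + β) ^ 2 - 9 + 41 / 5 * β ^ 2
      - 1 / 4 * (ν * (ν - (2 - β))) := by
    -- concavity in ν between `a = 11/5 - β` and `13`
    set a := 11 / 5 - β with ha
    have hfa : 0 ≤ 2 * (1 + β) * a + 17138 / 10000 * (1 - β) * a + (1 + β) ^ 2 - 9 + 41 / 5 * β ^ 2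
      - 1 / 4 * (a * (a - (2 - β))) := by
      rw [ha]
      nlinarith [sq_nonneg (β - 58 / 1000)]
    have hf13 : 0 ≤ 2 * (1 + β) * 13 + 17138 / 10000 * (1 - β) * 13 + (1 + β) ^ 2 - 9 + 41 / 5 * β ^ 2
      - 1 / 4 * (13 * (13 - (2 - β))) := by
      nlinarith [sq_nonneg (β + 13 / 100)]
    have h6 := mul_nonneg (by linarith : 0 ≤ 13 - ν) hfa
    have h7 := mul_nonneg (by linarith : 0 ≤ ν - a) hf13
    have h8 := mul_nonneg (mul_nonneg (by linarith : 0 ≤ ν - a) (by linarith : 0 ≤ 13 - ν))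
      (by rw [ha]; linarith : 0 ≤ 13 - a)
    have h9 : 0 < 13 - a := by rw [ha]; linarith
    have h10 : 0 ≤ (13 - a) * (2 * (1 + β) * ν + 17138 / 10000 * (1 - β) * ν + (1 + β) ^ 2 - 9 + 41 / 5 * β ^ 2
      - 1 / 4 * (ν * (ν - (2 - β)))) := by nlinarith
    exact nonneg_of_mul_nonneg_right h10 h9
  nlinarith [sq_nonneg γ]

end Pool.Agent.Helper20.RC
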