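import Pool.Agent.Helper44.RC.StFar

/-!
# Project RC, SHARP: the far lemma, module T2 (the `3 × 3` form of the harmonic `2`)

`XX 0 β γ = - a β + i c γ` with `a = 2/3 + (√3/2)(R - P) + 7/24`, `c = 2/3 + √3 (P + R) + 37/96`,
`P = (4/9) sin (3/4)`, `R = 4 sin (1/4)`; `3/2 ≤ a ≤ 8/5`, `16/5 ≤ c ≤ 17/5`.
-/

open MeasureTheory Set Filter Topology

namespace Pool.Agent.Helper20.RC

open Helper49.LT hiding sg
open Helper49.RC Helper87.RC Helper44.GQ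
open Helper44.Far

theorem ft2_PD : 0.286 ≤ PD 0 ∧ PD 0 ≤ 1 / 3 := by
  have h1 : Real.sin (3 / 4) ≤ 3 / 4 := Real.sin_le (by norm_num)
  have h2 : 3 / 4 - (3 / 4 : ℝ) ^ 3 / 6 < Real.sin (3 / 4) := Real.sin_gt_sub_cube (by norm_num)
  have e : PD 0 = 4 / 9 * Real.sin (3 / 4) := by
    unfold PD
    norm_num
    ring
  rw [e]
  constructor <;> norm_num at h2 ⊢ <;> linarith

theorem ft2_RD : 0.984 ≤ RD 0 ∧ RD 0 ≤ 1 := by
  have h1 : Real.sin (1 / 4) ≤ 1 / 4 := Real.sin_le (by norm_num)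
  have h2 : 1 / 4 - (1 / 4 : ℝ) ^ 3 / 6 < Real.sin (1 / 4) := Real.sin_gt_sub_cube (by norm_num)
  have e : RD 0 = 4 * Real.sin (1 / 4) := by
    unfold RD
    norm_num
    ring
  rw [e]
  constructor <;> norm_num at h2 ⊢ <;> linarith

theorem ft2_ee1 : ee (-(2 * (((0 : ℕ) : ℝ) + 1)) * (Real.pi / 3)) = -(1 / 2) - Complex.I * ((Real.sqrt 3 : ℝ) / 2 : ℂ) := by
  have e : -(2 * (((0 : ℕ) : ℝ) + 1)) * (Real.pi / 3) = -(Real.pi - Real.pi / 3) := by push_cast; ring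
  have h1 : Real.cos (-(Real.pi - Real.pi / 3)) = -(1 / 2) := by
    rw [Real.cos_neg, Real.cos_pi_sub, Real.cos_pi_div_three]
  have h2 : Real.sin (-(Real.pi - Real.pi / 3)) = -(Real.sqrt 3 / 2) := by
    rw [Real.sin_neg, Real.sin_pi_sub, Real.sin_pi_div_three]
  rw [e]
  apply Complex.ext
  · rw [ee_re, h1]; simp
  · rw [ee_im, h2]; simp

theorem ft2_ee2 : ee (-(2 * (((0 : ℕ) : ℝ) + 1)) * (2 * Real.pi / 3)) = -(1 / 2) + Complex.I * ((Real.sqrt 3 : ℝ) / 2 : ℂ) := by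
  have e : -(2 * (((0 : ℕ) : ℝ) + 1)) * (2 * Real.pi / 3) = -(Real.pi + Real.pi / 3) := by push_cast; ring
  have h1 : Real.cos (-(Real.pi + Real.pi / 3)) = -(1 / 2) := by
    rw [Real.cos_neg, add_comm, Real.cos_add_pi, Real.cos_pi_div_three]
  have h2 : Real.sin (-(Real.pi + Real.pi / 3)) = Real.sqrt 3 / 2 := by
    rw [Real.sin_neg, add_comm, Real.sin_add_pi, Real.sin_pi_div_three]; ring
  rw [e]
  apply Complex.ext
  · rw [ee_re, h1]; simp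
  · rw [ee_im, h2]; simp

/-- the constants of the first coefficient -/
noncomputable def ft2a : ℝ := 2 / 3 + Real.sqrt 3 / 2 * (RD 0 - PD 0) + 7 / 24
noncomputable def ft2c : ℝ := 2 / 3 + Real.sqrt 3 * (PD 0 + RD 0) + 37 / 96

theorem sq3C : (Real.sqrt 3 : ℂ) ^ 2 = 3 := by
  rw [← Complex.ofReal_pow, Real.sq_sqrt (by norm_num)]; norm_num

theorem ft2_XX (β γ : ℂ) : XX 0 β γ = -(ft2a : ℂ) * β + Complex.I * (ft2c : ℂ) * γ := by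
  have h3 := sq3C
  have hM : MM 0 = 3 := by unfold MM; norm_num
  unfold XX XC XR ebar
  rw [ft2_ee1, ft2_ee2, hM]
  unfold ft2a ft2c
  have hI : Complex.I ^ 2 = -1 := Complex.I_sq
  push_cast
  linear_combination ((1 / 12 : ℂ) * Complex.I ^ 2 * β) * h3 + (1 / 4 : ℂ) * β * hI + (5 / 96 : ℂ) * Complex.I * γ * h3

theorem ft2_bounds : 3 / 2 ≤ ft2a ∧ ft2a ≤ 8 / 5 ∧ 16 / 5 ≤ ft2c ∧ ft2c ≤ 17 / 5 := by
  obtain ⟨p1, p2⟩ := ft2_PD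
  obtain ⟨r1, r2⟩ := ft2_RD
  have s1 : (1.732 : ℝ) ≤ Real.sqrt 3 := by
    apply Real.le_sqrt_of_sq_le; norm_num
  have s2 : Real.sqrt 3 ≤ 1.7321 := by
    rw [Real.sqrt_le_left (by norm_num)]; norm_num
  unfold ft2a ft2c
  refine ⟨?_, ?_, ?_, ?_⟩
  · nlinarith [mul_nonneg (by linarith : (0 : ℝ) ≤ Real.sqrt 3 - 1.732) (by linarith : (0 : ℝ) ≤ RD 0 - PD 0 - 0.65)]
  · nlinarith [mul_nonneg (by linarith : (0 : ℝ) ≤ 1.7321 - Real.sqrt 3) (by linarith : (0 : ℝ) ≤ RD 0 - PD 0)]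
  · nlinarith [mul_nonneg (by linarith : (0 : ℝ) ≤ Real.sqrt 3 - 1.732) (by linarith : (0 : ℝ) ≤ PD 0 + RD 0 - 1.27)]
  · nlinarith [mul_nonneg (by linarith : (0 : ℝ) ≤ 1.7321 - Real.sqrt 3) (by linarith : (0 : ℝ) ≤ PD 0 + RD 0)]

theorem ft2_form (a c b1 b2 g1 g2 n1 n2 : ℝ) (ha : 3 / 2 ≤ a) (ha' : a ≤ 8 / 5) (hc : 16 / 5 ≤ c) (hc' : c ≤ 17 / 5) :
    0 ≤ 82 / 5 * (b1 ^ 2 + b2 ^ 2 + (g1 ^ 2 + g2 ^ 2))
      + (-2 * (b1 ^ 2 + b2 ^ 2 + (g1 ^ 2 + g2 ^ 2) / 4) + 4 * (b2 * g1 - b1 * g2)) / 3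
      + 2 * ((-a * b1 - c * g2) * n1 + (-a * b2 + c * g1) * n2)
      + 1 / 6 * (n1 ^ 2 + n2 ^ 2)
      + 8 / 15 * ((n1 + b1 + g2) ^ 2 + (n2 + b2 - g1) ^ 2) := by
  set u : ℝ := 8 / 15 - a with hu
  set v : ℝ := c - 8 / 15 with hv
  have k1 : 0 ≤ (n1 + (u * b1 - v * g2) * (10 / 7)) ^ 2 := sq_nonneg _
  have k2 : 0 ≤ (n2 + (u * b2 + v * g1) * (10 / 7)) ^ 2 := sq_nonneg _
  have hu1 : u ^ 2 ≤ 8 / 7 := by nlinarith
  have hv1 : v ^ 2 ≤ 8.22 := by nlinarith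
  have huv : 0 ≤ -(u * v) := by nlinarith
  have huv2 : -(u * v) ≤ 3.06 := by nlinarith
  set W : ℝ := 2 / 15 - u * v * (10 / 7) with hW
  have hW0 : 0 ≤ W := by rw [hW]; nlinarith
  have hW1 : W ≤ 4.6 := by rw [hW]; nlinarith
  have k3 : 0 ≤ W * ((b1 - g2) ^ 2 + (b2 + g1) ^ 2) := by positivity
  have k4 : 0 ≤ (8 / 7 - u ^ 2) * (b1 ^ 2 + b2 ^ 2) := mul_nonneg (by linarith) (by positivity)
  have k5 : 0 ≤ (8.22 - v ^ 2) * (g1 ^ 2 + g2 ^ 2) := mul_nonneg (by linarith) (by positivity)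
  have k6 : 0 ≤ (4.6 - W) * (b1 ^ 2 + b2 ^ 2 + (g1 ^ 2 + g2 ^ 2)) := mul_nonneg (by linarith) (by positivity)
  have q1 := sq_nonneg b1
  have q2 := sq_nonneg b2
  have q3 := sq_nonneg g1
  have q4 := sq_nonneg g2
  have ea : a = 8 / 15 - u := by rw [hu]; ring
  have ec : c = v + 8 / 15 := by rw [hv]; ring
  rw [ea, ec]
  nlinarith [k1, k2, k3, k4, k5, k6]

/-- T2 -/
theorem hT2 : Helper44.Far.StT2 := by
  intro β γ ν
  obtain ⟨a1, a2, c1, c2⟩ := ft2_bounds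
  have h := ft2_form ft2a ft2c β.re β.im γ.re γ.im ν.re ν.im a1 a2 c1 c2
  have hM : MM 0 = 3 := by unfold MM; norm_num
  rw [ft2_XX]
  unfold cA
  rw [hM]
  have e : ∀ z : ℂ, ‖z‖ ^ 2 = z.re ^ 2 + z.im ^ 2 := fun z => by rw [Complex.sq_norm, Complex.normSq_apply]; ring
  simp only [e]
  simp only [Complex.mul_re, Complex.mul_im, Complex.add_re, Complex.add_im, Complex.sub_re, Complex.sub_im,
    Complex.neg_re, Complex.neg_im, Complex.ofReal_re, Complex.ofReal_im, Complex.I_re, Complex.I_im,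
    Complex.conj_re, Complex.conj_im, Nat.cast_zero]
  convert h using 1
  ring

end Pool.Agent.Helper20.RC
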