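import Pool.Agent.Helper20.RC.Sign0

/-!
# Project RC, track B: the sign inequality in series form

Finite measure `μ`, `r ≥ 0` bounded, angles `a`, alignments `β`, `r e^{ia} = (X + i Y) e^{iβ}`. With
`s_l = ∫ r e^{-ila}`, `e_l = ∫ (X - i l Y) e^{-ilβ}` (`l` even) the partial sums of
`s_0 (s_0 - e_0) - 2 ∑ Re ((s_l - e_l) conj s_l)/(l² - 1)` converge to a number `≥ 0`.
-/

open MeasureTheory Set Filter Metric Topology

namespace Pool.Agent.Helper20.RC

open Helper49.LT Helper87.RC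
open Helper56.RC (fc)

/-- the difference of the kernel and its partial sums -/
noncomputable def dK (N : ℕ) (x : ℝ) : ℝ := Kx x - KN N x

theorem dK_meas (N : ℕ) : Measurable (dK N) := Kx_meas.sub (KN_meas N)

theorem dK_per (N : ℕ) (x : ℝ) : dK N (x + 2 * Real.pi) = dK N x := by
  unfold dK; rw [Kx_per, KN_per]

theorem dK_bd (N : ℕ) : ∃ C : ℝ, ∀ x, |dK N x| ≤ C := by
  obtain ⟨C, hC⟩ := KN_bd N
  exact ⟨1 + C, fun x => (abs_sub _ _).trans (add_le_add (Kx_abs x) (hC x))⟩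

theorem dK_L2 : Tendsto (fun N : ℕ => 1 / (2 * Real.pi) * ∫ x in (0 : ℝ)..(2 * Real.pi), dK N x ^ 2)
    atTop (𝓝 0) := by
  have hB : ∀ N, ∃ C, BM (fun x => ((dK N x : ℝ) : ℂ)) C := fun N => by
    obtain ⟨C, hC⟩ := dK_bd N
    exact ⟨C, Complex.measurable_ofReal.comp (dK_meas N), fun x => by
      rw [Complex.norm_real, Real.norm_eq_abs]; exact hC x⟩
  have hK : BM (fun x => ((Kx x : ℝ) : ℂ)) 1 := ⟨Complex.measurable_ofReal.comp Kx_meas, fun x => by
      rw [Complex.norm_real, Real.norm_eq_abs]; exact Kx_abs x⟩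
  have hN : ∀ N, ∃ C, BM (fun x => ((KN N x : ℝ) : ℂ)) C := fun N => by
    obtain ⟨C, hC⟩ := KN_bd N
    exact ⟨C, Complex.measurable_ofReal.comp (KN_meas N), fun x => by
      rw [Complex.norm_real, Real.norm_eq_abs]; exact hC x⟩
  have e0 : ∀ N, 1 / (2 * Real.pi) * ∫ x in (0 : ℝ)..(2 * Real.pi), dK N x ^ 2 =
      ∑' n : ℤ, ‖fc (fun x => ((dK N x : ℝ) : ℂ)) n‖ ^ 2 := by
    intro N
    obtain ⟨C, hC⟩ := hB N
    rw [(pars hC).tsum_eq]
    congr 1
    refine intervalIntegral.integral_congr fun x _ => ?_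
    show dK N x ^ 2 = ‖((dK N x : ℝ) : ℂ)‖ ^ 2
    rw [Complex.norm_real, Real.norm_eq_abs, sq_abs]
  simp_rw [e0]
  have e1 : ∀ N n, fc (fun x => ((dK N x : ℝ) : ℂ)) n =
      if Even n ∧ n.natAbs ≤ 2 * N then 0 else fc (fun x => ((Kx x : ℝ) : ℂ)) n := by
    intro N n
    obtain ⟨C, hC⟩ := hN N
    have e2 : (fun x => ((dK N x : ℝ) : ℂ)) = fun x => ((Kx x : ℝ) : ℂ) - ((KN N x : ℝ) : ℂ) := by
      funext x; unfold dK; push_cast; rfl
    rw [e2, fc_sub hK hC, fc_Kx, fc_KN]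
    by_cases h : Even n ∧ n.natAbs ≤ 2 * N
    · rw [if_pos h, if_pos h, if_pos h.1, sub_self]
    · rw [if_neg h, if_neg h, sub_zero]
  have h0 : (0 : ℝ) = ∑' n : ℤ, (0 : ℝ) := by simp
  rw [h0]
  refine tendsto_tsum_of_dominated_convergence (bound := fun n : ℤ => ‖fc (fun x => ((Kx x : ℝ) : ℂ)) n‖ ^ 2)
    (pars hK).summable (fun n => ?_) (Eventually.of_forall fun N n => ?_)
  · refine tendsto_const_nhds.congr' ?_
    filter_upwards [eventually_ge_atTop n.natAbs] with N hNn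
    rw [e1]
    by_cases h : Even n
    · rw [if_pos ⟨h, by omega⟩]; simp
    · rw [if_neg (fun hh => h hh.1), fc_Kx, if_neg h]; simp
  · rw [e1]
    rw [Real.norm_of_nonneg (by positivity)]
    split_ifs
    · simp
    · exact le_refl _

theorem intg_bd {f : ℝ → ℝ} (hm : Measurable f) {C : ℝ} (hC : ∀ t, |f t| ≤ C) (a b : ℝ) :
    IntervalIntegrable f volume a b := intg_real hm hC a b

theorem dK_L1 : Tendsto (fun N : ℕ => ∫ x in (0 : ℝ)..(2 * Real.pi), |dK N x|) atTop (𝓝 0) := by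
  have hp := Real.pi_pos
  have key : ∀ N, ∫ x in (0 : ℝ)..(2 * Real.pi), |dK N x| ≤ 2 * Real.pi * Real.sqrt (1 / (2 * Real.pi) *
      ∫ x in (0 : ℝ)..(2 * Real.pi), dK N x ^ 2) := by
    intro N
    obtain ⟨C, hC⟩ := dK_bd N
    have i1 : IntervalIntegrable (fun x => |dK N x|) volume 0 (2 * Real.pi) :=
      intg_bd (dK_meas N).abs (fun t => by rw [abs_abs]; exact hC t) _ _
    have i2 : IntervalIntegrable (fun x => dK N x ^ 2) volume 0 (2 * Real.pi) :=
      intg_bd ((dK_meas N).pow_const 2) (C := C ^ 2) (fun t => by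
        rw [abs_pow]; exact pow_le_pow_left₀ (abs_nonneg _) (hC t) 2) _ _
    set m := 1 / (2 * Real.pi) * ∫ x in (0 : ℝ)..(2 * Real.pi), |dK N x| with hm
    have hI : ∫ x in (0 : ℝ)..(2 * Real.pi), |dK N x| = 2 * Real.pi * m := by
      rw [hm]; field_simp
    have h2 : 0 ≤ ∫ x in (0 : ℝ)..(2 * Real.pi), (|dK N x| - m) ^ 2 :=
      intervalIntegral.integral_nonneg (by positivity) fun t _ => sq_nonneg _
    have h3 : ∫ x in (0 : ℝ)..(2 * Real.pi), (|dK N x| - m) ^ 2 =
        (∫ x in (0 : ℝ)..(2 * Real.pi), dK N x ^ 2) - 2 * m * (∫ x in (0 : ℝ)..(2 * Real.pi), |dK N x|)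
        + ∫ x in (0 : ℝ)..(2 * Real.pi), m ^ 2 := by
      rw [← intervalIntegral.integral_const_mul,
        ← intervalIntegral.integral_sub i2 (i1.const_mul _),
        ← intervalIntegral.integral_add (i2.sub (i1.const_mul _)) intervalIntegrable_const]
      refine intervalIntegral.integral_congr fun t _ => ?_
      show (|dK N t| - m) ^ 2 = dK N t ^ 2 - 2 * m * |dK N t| + m ^ 2
      have := sq_abs (dK N t)
      linear_combination this
    rw [h3, hI, intervalIntegral.integral_const, sub_zero, smul_eq_mul] at h2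
    have h4 : m ^ 2 ≤ 1 / (2 * Real.pi) * ∫ x in (0 : ℝ)..(2 * Real.pi), dK N x ^ 2 := by
      rw [one_div, le_inv_mul_iff₀ (by positivity)]
      nlinarith
    have h5 : m ≤ Real.sqrt (1 / (2 * Real.pi) * ∫ x in (0 : ℝ)..(2 * Real.pi), dK N x ^ 2) :=
      Real.le_sqrt_of_sq_le h4
    rw [hI]
    exact mul_le_mul_of_nonneg_left h5 (by positivity)
  have h6 : Tendsto (fun N : ℕ => 2 * Real.pi * Real.sqrt (1 / (2 * Real.pi) *
      ∫ x in (0 : ℝ)..(2 * Real.pi), dK N x ^ 2)) atTop (𝓝 0) := by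
    have := (Real.continuous_sqrt.tendsto 0).comp dK_L2
    rw [Real.sqrt_zero] at this
    have := this.const_mul (2 * Real.pi)
    rw [mul_zero] at this
    exact this
  refine squeeze_zero (fun N => ?_) key h6
  exact intervalIntegral.integral_nonneg (by positivity) fun t _ => abs_nonneg _

section

variable {Ω : Type*} [MeasurableSpace Ω] {μ : Measure Ω} [IsFiniteMeasure μ]

/-- bounded measurable real functions -/
structure RB (f : Ω → ℝ) (C : ℝ) : Prop where
  m : Measurable f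
  b : ∀ ω, |f ω| ≤ C

/-- the moments -/
noncomputable def fm (μ : Measure Ω) (f α : Ω → ℝ) (l : ℝ) : ℂ := ∫ ω, (f ω : ℂ) * ee (-(l * α ω)) ∂μ

theorem intg_of_bd {E : Type*} [NormedAddCommGroup E] [MeasurableSpace E] [BorelSpace E]
    [SecondCountableTopology E] {f : Ω → E} (hm : Measurable f) {C : ℝ} (hC : ∀ ω, ‖f ω‖ ≤ C) :
    Integrable f μ :=
  Integrable.of_bound hm.aestronglyMeasurable C (Eventually.of_forall hC)

theorem ee_meas {α : Ω → ℝ} (h : Measurable α) : Measurable fun ω => ee (α ω) :=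
  continuous_ee.measurable.comp h

/-- the double moment -/
theorem prod_ee {f g α β : Ω → ℝ} (l : ℝ) :
    ∫ p : Ω × Ω, ((f p.1 : ℂ) * ee (l * α p.1)) * ((g p.2 : ℂ) * ee (-(l * β p.2))) ∂(μ.prod μ) =
      (starRingEnd ℂ) (fm μ f α l) * fm μ g β l := by
  rw [MeasureTheory.integral_prod_mul (μ := μ) (ν := μ) (fun x => (f x : ℂ) * ee (l * α x))
    (fun y => (g y : ℂ) * ee (-(l * β y)))]
  congr 1
  unfold fm
  rw [← integral_conj]
  congr 1
  funext ω
  rw [map_mul, Complex.conj_ofReal, ee_neg, Complex.conj_conj]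

theorem pt_ee (u v x y l : ℝ) : ((u : ℂ) * ee (l * x)) * ((v : ℂ) * ee (-(l * y))) =
    ((u * v : ℝ) : ℂ) * ee (l * (x - y)) := by
  have e : l * (x - y) = l * x + -(l * y) := by ring
  rw [e, ee_add]
  push_cast
  ring

theorem prod_bd {f g α β : Ω → ℝ} {C D : ℝ} (hf : RB f C) (hg : RB g D) (hα : Measurable α)
    (hβ : Measurable β) (l : ℝ) :
    Integrable (fun p : Ω × Ω => ((f p.1 : ℂ) * ee (l * α p.1)) * ((g p.2 : ℂ) * ee (-(l * β p.2))))
      (μ.prod μ) := by
  refine intg_of_bd (C := C * D) ?_ fun p => ?_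
  · exact ((Complex.measurable_ofReal.comp (hf.m.comp measurable_fst)).mul
      (ee_meas ((hα.comp measurable_fst).const_mul l))).mul
      ((Complex.measurable_ofReal.comp (hg.m.comp measurable_snd)).mul
      (ee_meas ((hβ.comp measurable_snd).const_mul l).neg))
  · rw [norm_mul, norm_mul, norm_mul, norm_ee, norm_ee, mul_one, mul_one, Complex.norm_real, Complex.norm_real]
    exact mul_le_mul (hf.b _) (hg.b _) (norm_nonneg _) ((abs_nonneg _).trans (hf.b p.1))

theorem prod_cos {f g α β : Ω → ℝ} {C D : ℝ} (hf : RB f C) (hg : RB g D) (hα : Measurable α)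
    (hβ : Measurable β) (l : ℝ) :
    ∫ p : Ω × Ω, f p.1 * g p.2 * Real.cos (l * (α p.1 - β p.2)) ∂(μ.prod μ) =
      ((starRingEnd ℂ) (fm μ f α l) * fm μ g β l).re := by
  rw [← prod_ee]
  have h := Complex.reCLM.integral_comp_comm (prod_bd (μ := μ) hf hg hα hβ l)
  rw [Complex.reCLM_apply] at h
  rw [← h]
  congr 1
  funext p
  rw [Complex.reCLM_apply, pt_ee, Complex.re_ofReal_mul, ee_re]

theorem prod_sin {f g α β : Ω → ℝ} {C D : ℝ} (hf : RB f C) (hg : RB g D) (hα : Measurable α)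
    (hβ : Measurable β) (l : ℝ) :
    ∫ p : Ω × Ω, f p.1 * g p.2 * Real.sin (l * (α p.1 - β p.2)) ∂(μ.prod μ) =
      ((starRingEnd ℂ) (fm μ f α l) * fm μ g β l).im := by
  rw [← prod_ee]
  have h := Complex.imCLM.integral_comp_comm (prod_bd (μ := μ) hf hg hα hβ l)
  rw [Complex.imCLM_apply] at h
  rw [← h]
  congr 1
  funext p
  rw [Complex.imCLM_apply, pt_ee, Complex.im_ofReal_mul, ee_im]

theorem cp_bd {f g : Ω → ℝ} {C D : ℝ} (hf : RB f C) (hg : RB g D) {h : Ω × Ω → ℝ} (hm : Measurable h) {E : ℝ}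
    (hE : ∀ p, |h p| ≤ E) : Integrable (fun p : Ω × Ω => f p.1 * g p.2 * h p) (μ.prod μ) := by
  refine intg_of_bd (C := C * D * E) ?_ fun p => ?_
  · exact ((hf.m.comp measurable_fst).mul (hg.m.comp measurable_snd)).mul hm
  · rw [Real.norm_eq_abs, abs_mul, abs_mul]
    have c0 : 0 ≤ C := (abs_nonneg _).trans (hf.b p.1)
    have d0 : 0 ≤ D := (abs_nonneg _).trans (hg.b p.2)
    exact mul_le_mul (mul_le_mul (hf.b _) (hg.b _) (abs_nonneg _) c0) (hE p) (abs_nonneg _) (by positivity)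

/-- expansion of the double integral of `|sin|` -/
theorem dbl_abs {f g α β : Ω → ℝ} {C D : ℝ} (hf : RB f C) (hg : RB g D) (hα : Measurable α)
    (hβ : Measurable β) :
    HasSum (fun k : ℕ => ck k * ((starRingEnd ℂ) (fm μ f α (lk k)) * fm μ g β (lk k)).re)
      (2 * ((∫ ω, f ω ∂μ) * ∫ ω, g ω ∂μ)
        - Real.pi * ∫ p : Ω × Ω, f p.1 * g p.2 * |Real.sin (α p.1 - β p.2)| ∂(μ.prod μ)) := by
  have mc : ∀ l : ℝ, Measurable fun p : Ω × Ω => Real.cos (l * (α p.1 - β p.2)) := fun l =>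
    Real.measurable_cos.comp (((hα.comp measurable_fst).sub (hβ.comp measurable_snd)).const_mul l)
  have ms : Measurable fun p : Ω × Ω => |Real.sin (α p.1 - β p.2)| :=
    (Real.measurable_sin.comp ((hα.comp measurable_fst).sub (hβ.comp measurable_snd))).abs
  set F : ℕ → Ω × Ω → ℝ := fun k p => ck k * (f p.1 * g p.2 * Real.cos (lk k * (α p.1 - β p.2))) with hF
  have hi : ∀ k, Integrable (F k) (μ.prod μ) := fun k =>
    (cp_bd hf hg (mc (lk k)) (fun p => Real.abs_cos_le_one _)).const_mul _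
  have hn : Summable fun k => ∫ p, ‖F k p‖ ∂(μ.prod μ) := by
    refine Summable.of_nonneg_of_le (fun k => integral_nonneg fun p => norm_nonneg _) (fun k => ?_)
      ((ck_summable).mul_right (|C| * |D| * (μ.prod μ).real Set.univ))
    have h1 : ∀ p, ‖F k p‖ ≤ ck k * (|C| * |D|) := by
      intro p
      simp only [hF]
      rw [Real.norm_eq_abs, abs_mul, abs_of_pos (ck_pos k), abs_mul, abs_mul]
      refine mul_le_mul_of_nonneg_left ?_ (ck_pos k).le
      have a1 : |f p.1| ≤ |C| := (hf.b _).trans (le_abs_self C)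
      have a2 : |g p.2| ≤ |D| := (hg.b _).trans (le_abs_self D)
      have a3 := Real.abs_cos_le_one (lk k * (α p.1 - β p.2))
      calc |f p.1| * |g p.2| * |Real.cos (lk k * (α p.1 - β p.2))|
          ≤ |f p.1| * |g p.2| * 1 := mul_le_mul_of_nonneg_left a3 (by positivity)
        _ ≤ |C| * |D| := by rw [mul_one]; exact mul_le_mul a1 a2 (abs_nonneg _) (abs_nonneg _)
    calc ∫ p, ‖F k p‖ ∂(μ.prod μ) ≤ ∫ p, ck k * (|C| * |D|) ∂(μ.prod μ) :=
          integral_mono (hi k).norm (integrable_const _) h1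
      _ = ck k * (|C| * |D| * (μ.prod μ).real Set.univ) := by
          rw [integral_const, smul_eq_mul]; ring
  have hs := hasSum_integral_of_summable_integral_norm hi hn
  have e1 : ∀ k, ∫ p, F k p ∂(μ.prod μ) =
      ck k * ((starRingEnd ℂ) (fm μ f α (lk k)) * fm μ g β (lk k)).re := by
    intro k
    simp only [hF]
    rw [integral_const_mul, prod_cos hf hg hα hβ]
  have e2 : ∀ p, ∑' k, F k p = 2 * (f p.1 * g p.2) - Real.pi * (f p.1 * g p.2 * |Real.sin (α p.1 - β p.2)|) := by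
    intro p
    have h := (abs_sin_series (α p.1 - β p.2)).mul_left (f p.1 * g p.2)
    have e3 : (fun k => f p.1 * g p.2 * (ck k * Real.cos (lk k * (α p.1 - β p.2)))) = fun k => F k p := by
      funext k; simp only [hF]; ring
    rw [e3] at h
    rw [h.tsum_eq]; ring
  simp_rw [e1, e2] at hs
  have e4 : ∫ p : Ω × Ω, (2 * (f p.1 * g p.2) - Real.pi * (f p.1 * g p.2 * |Real.sin (α p.1 - β p.2)|)) ∂(μ.prod μ)
      = 2 * ((∫ ω, f ω ∂μ) * ∫ ω, g ω ∂μ)
        - Real.pi * ∫ p : Ω × Ω, f p.1 * g p.2 * |Real.sin (α p.1 - β p.2)| ∂(μ.prod μ) := by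
    have i1 : Integrable (fun p : Ω × Ω => f p.1 * g p.2) (μ.prod μ) := by
      have := cp_bd (μ := μ) hf hg (h := fun _ => (1 : ℝ)) measurable_const (E := 1) (fun p => by simp)
      simpa using this
    have i2 := cp_bd (μ := μ) hf hg ms (E := 1) (fun p => by rw [abs_abs]; exact Real.abs_sin_le_one _)
    rw [integral_sub (i1.const_mul 2) (i2.const_mul Real.pi), integral_const_mul, integral_const_mul]
    congr 2
    exact integral_prod_mul (μ := μ) (ν := μ) (fun x => f x) (fun y => g y)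
  rw [e4] at hs
  exact hs

/-- the density property of an alignment -/
def Dens (μ : Measure Ω) (β : Ω → ℝ) (ρ : ℝ) : Prop := ∀ F : ℝ → ℝ, Measurable F → (∀ x, 0 ≤ F x) →
  (∃ C, ∀ x, F x ≤ C) → (∀ x, F (x + 2 * Real.pi) = F x) →
  ∫ ω, F (β ω) ∂μ ≤ ρ * ∫ x in (0 : ℝ)..(2 * Real.pi), F x

/-- expansion of the double integral of `cos x · sign (sin x)` -/
theorem dbl_K {f g α β : Ω → ℝ} {C D ρ : ℝ} (hf : RB f C) (hg : RB g D) (hα : Measurable α)
    (hβ : Measurable β) (hd : Dens μ β ρ) :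
    Tendsto (fun N : ℕ => ∑ k ∈ Finset.range N,
      ck k * lk k * ((starRingEnd ℂ) (fm μ f α (lk k)) * fm μ g β (lk k)).im) atTop
      (𝓝 (Real.pi * ∫ p : Ω × Ω, f p.1 * g p.2 * Kx (α p.1 - β p.2) ∂(μ.prod μ))) := by
  have hp := Real.pi_pos
  have msub : Measurable fun p : Ω × Ω => α p.1 - β p.2 := (hα.comp measurable_fst).sub (hβ.comp measurable_snd)
  -- the partial sums
  have e1 : ∀ N : ℕ, ∑ k ∈ Finset.range N,
      ck k * lk k * ((starRingEnd ℂ) (fm μ f α (lk k)) * fm μ g β (lk k)).im =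
      Real.pi * ∫ p : Ω × Ω, f p.1 * g p.2 * KN N (α p.1 - β p.2) ∂(μ.prod μ) := by
    intro N
    have e2 : ∀ p : Ω × Ω, f p.1 * g p.2 * KN N (α p.1 - β p.2) = 1 / Real.pi * ∑ k ∈ Finset.range N,
        ck k * lk k * (f p.1 * g p.2 * Real.sin (lk k * (α p.1 - β p.2))) := by
      intro p
      unfold KN
      rw [Finset.mul_sum, Finset.mul_sum, Finset.mul_sum]
      refine Finset.sum_congr rfl fun k _ => ?_
      ring
    simp_rw [e2]
    have i1 : ∀ k, Integrable (fun p : Ω × Ω => ck k * lk k *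
        (f p.1 * g p.2 * Real.sin (lk k * (α p.1 - β p.2)))) (μ.prod μ) := fun k =>
      (cp_bd hf hg (Real.measurable_sin.comp (msub.const_mul (lk k)))
        (fun p => Real.abs_sin_le_one _)).const_mul _
    rw [integral_const_mul, integral_finset_sum _ (fun k _ => i1 k)]
    rw [← mul_assoc, mul_one_div_cancel hp.ne', one_mul]
    refine Finset.sum_congr rfl fun k _ => ?_
    rw [integral_const_mul, prod_sin hf hg hα hβ]
  simp_rw [e1]
  refine Tendsto.const_mul _ ?_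
  rw [tendsto_iff_norm_sub_tendsto_zero]
  have hC0 : ∀ ω, 0 ≤ |C| ∧ |f ω| ≤ |C| := fun ω => ⟨abs_nonneg _, (hf.b ω).trans (le_abs_self _)⟩
  have hD0 : ∀ ω, 0 ≤ |D| ∧ |g ω| ≤ |D| := fun ω => ⟨abs_nonneg _, (hg.b ω).trans (le_abs_self _)⟩
  have key : ∀ N : ℕ, ‖(∫ p : Ω × Ω, f p.1 * g p.2 * KN N (α p.1 - β p.2) ∂(μ.prod μ)) -
      ∫ p : Ω × Ω, f p.1 * g p.2 * Kx (α p.1 - β p.2) ∂(μ.prod μ)‖ ≤
      |C| * |D| * (μ.real Set.univ * (ρ * ∫ x in (0 : ℝ)..(2 * Real.pi), |dK N x|)) := by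
    intro N
    obtain ⟨E, hE⟩ := KN_bd N
    obtain ⟨E', hE'⟩ := dK_bd N
    have j1 := cp_bd (μ := μ) hf hg (h := fun p => KN N (α p.1 - β p.2)) ((KN_meas N).comp msub) (fun p => hE _)
    have j2 := cp_bd (μ := μ) hf hg (h := fun p => Kx (α p.1 - β p.2)) (Kx_meas.comp msub) (fun p => Kx_abs _)
    have mdp : Measurable fun p : Ω × Ω => |dK N (α p.1 - β p.2)| := ((dK_meas N).comp msub).abs
    have j3 : Integrable (fun p : Ω × Ω => |dK N (α p.1 - β p.2)|) (μ.prod μ) :=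
      intg_of_bd (C := E') mdp fun p => by
        rw [Real.norm_eq_abs, abs_abs]; exact hE' _
    rw [← integral_sub j1 j2]
    calc ‖∫ p : Ω × Ω, (f p.1 * g p.2 * KN N (α p.1 - β p.2) - f p.1 * g p.2 * Kx (α p.1 - β p.2)) ∂(μ.prod μ)‖
        ≤ ∫ p : Ω × Ω, |C| * |D| * |dK N (α p.1 - β p.2)| ∂(μ.prod μ) := by
          refine norm_integral_le_of_norm_le (j3.const_mul _) (Eventually.of_forall fun p => ?_)
          have e3 : f p.1 * g p.2 * KN N (α p.1 - β p.2) - f p.1 * g p.2 * Kx (α p.1 - β p.2) =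
              -(f p.1 * g p.2 * dK N (α p.1 - β p.2)) := by unfold dK; ring
          rw [e3, norm_neg, Real.norm_eq_abs, abs_mul, abs_mul]
          refine mul_le_mul_of_nonneg_right ?_ (abs_nonneg _)
          exact mul_le_mul (hC0 _).2 (hD0 _).2 (abs_nonneg _) (abs_nonneg _)
      _ = |C| * |D| * ∫ p : Ω × Ω, |dK N (α p.1 - β p.2)| ∂(μ.prod μ) := by rw [integral_const_mul]
      _ ≤ _ := by
          refine mul_le_mul_of_nonneg_left ?_ (by positivity)
          rw [integral_prod _ j3]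
          have h4 : ∀ ω, ∫ ω', |dK N (α ω - β ω')| ∂μ ≤ ρ * ∫ x in (0 : ℝ)..(2 * Real.pi), |dK N x| := by
            intro ω
            have h5 := hd (fun y => |dK N (α ω - y)|) ((dK_meas N).comp (measurable_const.sub measurable_id)).abs
              (fun x => abs_nonneg _) ⟨E', fun x => hE' _⟩ (fun x => by
                have e6 : α ω - x = (α ω - (x + 2 * Real.pi)) + 2 * Real.pi := by ring
                show |dK N (α ω - (x + 2 * Real.pi))| = |dK N (α ω - x)|
                rw [e6, dK_per])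
            have h6 : ∫ x in (0 : ℝ)..(2 * Real.pi), |dK N (α ω - x)| =
                ∫ x in (0 : ℝ)..(2 * Real.pi), |dK N x| := by
              have h7 := intervalIntegral.integral_comp_sub_left (a := 0) (b := 2 * Real.pi)
                (fun u => |dK N u|) (α ω)
              rw [sub_zero] at h7
              rw [h7]
              have hper : Function.Periodic (fun u => |dK N u|) (2 * Real.pi) := fun u => by
                show |dK N (u + 2 * Real.pi)| = |dK N u|
                rw [dK_per]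
              have h8 := hper.intervalIntegral_add_eq (α ω - 2 * Real.pi) 0
              rw [sub_add_cancel, zero_add] at h8
              exact h8
            rw [h6] at h5
            exact h5
          calc ∫ ω, ∫ ω', |dK N (α ω - β ω')| ∂μ ∂μ ≤
                ∫ _ω, (ρ * (∫ x in (0 : ℝ)..(2 * Real.pi), |dK N x|)) ∂μ :=
                integral_mono j3.integral_prod_left (integrable_const _) h4
            _ = μ.real Set.univ * (ρ * ∫ x in (0 : ℝ)..(2 * Real.pi), |dK N x|) := by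
                rw [integral_const, smul_eq_mul]
  refine squeeze_zero (fun N => norm_nonneg _) key ?_
  have h9 := ((dK_L1.const_mul ρ).const_mul (μ.real Set.univ)).const_mul (|C| * |D|)
  simp only [mul_zero] at h9
  exact h9

/-- THE SIGN INEQUALITY, series form. -/
theorem sign_series {r X Y a β : Ω → ℝ} {C D E ρ : ℝ} (hr : RB r C) (hr0 : ∀ ω, 0 ≤ r ω) (hX : RB X D)
    (hY : RB Y E) (ha : Measurable a) (hβ : Measurable β)
    (he : ∀ ω, (r ω : ℂ) * ee (a ω) = ((X ω : ℂ) + (Y ω : ℂ) * Complex.I) * ee (β ω))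
    (hd : Dens μ β ρ) :
    ∃ L : ℝ, 0 ≤ L ∧ Tendsto (fun N : ℕ => (∫ ω, r ω ∂μ) * ((∫ ω, r ω ∂μ) - ∫ ω, X ω ∂μ)
      - 2 * ∑ k ∈ Finset.range N, ((fm μ r a (lk k) - (fm μ X β (lk k) - Complex.I * (lk k : ℂ) * fm μ Y β (lk k)))
        * (starRingEnd ℂ) (fm μ r a (lk k))).re / (lk k ^ 2 - 1)) atTop (𝓝 L) := by
  have hp := Real.pi_pos
  have msub : Measurable fun p : Ω × Ω => a p.1 - β p.2 := (ha.comp measurable_fst).sub (hβ.comp measurable_snd)
  have msub' : Measurable fun p : Ω × Ω => a p.1 - a p.2 := (ha.comp measurable_fst).sub (ha.comp measurable_snd)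
  have h1 := (dbl_abs (μ := μ) hr hr ha ha).tendsto_sum_nat
  have h2 := (dbl_abs (μ := μ) hr hX ha hβ).tendsto_sum_nat
  have h3 := dbl_K (μ := μ) hr hY ha hβ hd
  have i1 := cp_bd (μ := μ) hr hr (h := fun p => |Real.sin (a p.1 - a p.2)|)
    (Real.measurable_sin.comp msub').abs (E := 1) (fun p => by rw [abs_abs]; exact Real.abs_sin_le_one _)
  have i2 := cp_bd (μ := μ) hr hX (h := fun p => |Real.sin (a p.1 - β p.2)|)
    (Real.measurable_sin.comp msub).abs (E := 1) (fun p => by rw [abs_abs]; exact Real.abs_sin_le_one _)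
  have i3 := cp_bd (μ := μ) hr hY (h := fun p => Kx (a p.1 - β p.2)) (Kx_meas.comp msub) (fun p => Kx_abs _)
  -- pointwise inequality
  have hpt : ∀ p : Ω × Ω, r p.1 * X p.2 * |Real.sin (a p.1 - β p.2)| - r p.1 * Y p.2 * Kx (a p.1 - β p.2) ≤
      r p.1 * r p.2 * |Real.sin (a p.1 - a p.2)| := by
    intro p
    have h4 : r p.2 * Real.sin (a p.1 - a p.2) =
        X p.2 * Real.sin (a p.1 - β p.2) - Y p.2 * Real.cos (a p.1 - β p.2) := by
      have h5 : ((r p.2 : ℂ) * ee (a p.2 - a p.1)) =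
          ((X p.2 : ℂ) + (Y p.2 : ℂ) * Complex.I) * ee (β p.2 - a p.1) := by
        have e1 : ee (a p.2 - a p.1) = ee (a p.2) * ee (-a p.1) := by rw [← ee_add]; congr 1
        have e2 : ee (β p.2 - a p.1) = ee (β p.2) * ee (-a p.1) := by rw [← ee_add]; congr 1
        rw [e1, e2]
        linear_combination (ee (-a p.1)) * he p.2
      have h6 := congrArg Complex.im h5
      rw [Complex.im_ofReal_mul, ee_im, Complex.mul_im, ee_im, ee_re] at h6
      simp only [Complex.add_re, Complex.add_im, Complex.ofReal_re, Complex.ofReal_im, Complex.mul_re,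
        Complex.mul_im, Complex.I_re, Complex.I_im, mul_zero, mul_one, sub_zero, add_zero,
        zero_add] at h6
      have e3 : a p.1 - a p.2 = -(a p.2 - a p.1) := by ring
      have e4 : a p.1 - β p.2 = -(β p.2 - a p.1) := by ring
      rw [e3, e4, Real.sin_neg, Real.sin_neg, Real.cos_neg]
      linarith
    have h7 : |Real.sin (a p.1 - β p.2)| = Real.sin (a p.1 - β p.2) * sn (a p.1 - β p.2) := by
      unfold sn
      rcases lt_trichotomy (Real.sin (a p.1 - β p.2)) 0 with h | h | h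
      · rw [Real.sign_of_neg h, abs_of_neg h]; ring
      · rw [h]; simp
      · rw [Real.sign_of_pos h, abs_of_pos h]; ring
    rw [h7]
    unfold Kx
    have h8 : r p.1 * X p.2 * (Real.sin (a p.1 - β p.2) * sn (a p.1 - β p.2)) -
        r p.1 * Y p.2 * (Real.cos (a p.1 - β p.2) * sn (a p.1 - β p.2)) =
        r p.1 * ((r p.2 * Real.sin (a p.1 - a p.2)) * sn (a p.1 - β p.2)) := by
      rw [h4]; ring
    rw [h8, mul_assoc (r p.1)]
    refine mul_le_mul_of_nonneg_left ?_ (hr0 _)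
    calc (r p.2 * Real.sin (a p.1 - a p.2)) * sn (a p.1 - β p.2)
        ≤ |(r p.2 * Real.sin (a p.1 - a p.2)) * sn (a p.1 - β p.2)| := le_abs_self _
      _ = r p.2 * |Real.sin (a p.1 - a p.2)| * |sn (a p.1 - β p.2)| := by
          rw [abs_mul, abs_mul, abs_of_nonneg (hr0 _)]
      _ ≤ r p.2 * |Real.sin (a p.1 - a p.2)| :=
          mul_le_of_le_one_right (mul_nonneg (hr0 _) (abs_nonneg _)) (sn_abs _)
  have hI := integral_mono (i2.sub i3) i1 hpt
  rw [show (∫ p, ((fun p : Ω × Ω => r p.1 * X p.2 * |Real.sin (a p.1 - β p.2)|) -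
    fun p : Ω × Ω => r p.1 * Y p.2 * Kx (a p.1 - β p.2)) p ∂(μ.prod μ)) =
    (∫ p : Ω × Ω, r p.1 * X p.2 * |Real.sin (a p.1 - β p.2)| ∂(μ.prod μ)) -
    ∫ p : Ω × Ω, r p.1 * Y p.2 * Kx (a p.1 - β p.2) ∂(μ.prod μ) from integral_sub i2 i3] at hI
  set J1 := ∫ p : Ω × Ω, r p.1 * r p.2 * |Real.sin (a p.1 - a p.2)| ∂(μ.prod μ) with hJ1
  set J2 := ∫ p : Ω × Ω, r p.1 * X p.2 * |Real.sin (a p.1 - β p.2)| ∂(μ.prod μ) with hJ2
  set J3 := ∫ p : Ω × Ω, r p.1 * Y p.2 * Kx (a p.1 - β p.2) ∂(μ.prod μ) with hJ3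
  set s0 := ∫ ω, r ω ∂μ with hs0
  set x0 := ∫ ω, X ω ∂μ with hx0
  refine ⟨Real.pi / 2 * (J1 - J2 + J3), by nlinarith, ?_⟩
  have h9 := ((h1.sub h2).sub h3).const_mul (1 / 2 : ℝ)
  have h10 := (tendsto_const_nhds (x := s0 * (s0 - x0))).sub h9
  have e5 : s0 * (s0 - x0) - 1 / 2 * (2 * (s0 * s0) - Real.pi * J1 - (2 * (s0 * x0) - Real.pi * J2) -
      Real.pi * J3) = Real.pi / 2 * (J1 - J2 + J3) := by ring
  rw [e5] at h10
  refine h10.congr fun N => ?_
  congr 1
  rw [← Finset.sum_sub_distrib, ← Finset.sum_sub_distrib, Finset.mul_sum, Finset.mul_sum]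
  refine Finset.sum_congr rfl fun k _ => ?_
  set S := fm μ r a (lk k)
  set P := fm μ X β (lk k)
  set Q := fm μ Y β (lk k)
  have hl := (lk_sq k).ne'
  unfold ck
  have e6 : ((S - (P - Complex.I * (lk k : ℂ) * Q)) * (starRingEnd ℂ) S).re =
      ((starRingEnd ℂ) S * S).re - ((starRingEnd ℂ) S * P).re - lk k * ((starRingEnd ℂ) S * Q).im := by
    simp only [Complex.mul_re, Complex.mul_im, Complex.sub_re, Complex.sub_im, Complex.conj_re, Complex.conj_im,
      Complex.I_re, Complex.I_im, Complex.ofReal_re, Complex.ofReal_im]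
    ring
  rw [e6]
  field_simp
  ring

end

end Pool.Agent.Helper20.RC
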