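import Pool.Agent.Helper20.RC.Link2
import Pool.Agent.Helper87.RC.M_KRN
import Pool.Agent.Helper87.RC.M_EV
import Pool.Agent.Helper87.RC.M_SAW

/-!
# Project RC, track B: the kernels `|sin x|` and `cos x · sign (sin x)` and their Fourier series
-/

open MeasureTheory Set Filter Metric Topology

namespace Pool.Agent.Helper20.RC

open Helper49.LT Helper87.RC
open Helper56.RC (fc)

/-- the frequencies `2, 4, 6, ...` -/
noncomputable def lk (k : ℕ) : ℝ := 2 * (k : ℝ) + 2

/-- the coefficients -/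
noncomputable def ck (k : ℕ) : ℝ := 4 / (lk k ^ 2 - 1)

theorem lk_ge (k : ℕ) : 2 ≤ lk k := by
  unfold lk
  have : (0 : ℝ) ≤ k := Nat.cast_nonneg k
  linarith

theorem lk_sq (k : ℕ) : 0 < lk k ^ 2 - 1 := by nlinarith [lk_ge k]

theorem ck_pos (k : ℕ) : 0 < ck k := div_pos (by norm_num) (lk_sq k)

theorem ck_le (k : ℕ) : ck k ≤ 2 * (1 / ((k : ℝ) + 1) ^ 2) := by
  unfold ck
  have h := lk_ge k
  have h0 : (0 : ℝ) ≤ k := Nat.cast_nonneg k
  rw [mul_one_div, div_le_div_iff₀ (lk_sq k) (by positivity)]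
  unfold lk
  nlinarith

theorem ck_summable : Summable ck := by
  have h1 : Summable fun k : ℕ => 2 * (1 / ((k : ℝ) + 1) ^ 2) := by
    have := (summable_nat_add_iff 1).2 (Real.summable_one_div_nat_pow (p := 2) |>.2 (by norm_num))
    have h2 : (fun k : ℕ => 1 / (((k + 1 : ℕ) : ℝ)) ^ 2) = fun k : ℕ => 1 / ((k : ℝ) + 1) ^ 2 := by
      funext k; push_cast; rfl
    rw [h2] at this
    exact this.mul_left 2
  exact Summable.of_nonneg_of_le (fun k => (ck_pos k).le) ck_le h1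

/-- SERIES OF `|sin x|` -/
theorem abs_sin_series_aux (x : ℝ) (h0 : 0 ≤ x) (h1 : x ≤ Real.pi) :
    HasSum (fun k : ℕ => ck k * Real.cos (lk k * x)) (2 - Real.pi * |Real.sin x|) := by
  have s1 := hSAW x (abs_le.2 ⟨by linarith, h1⟩)
  have s2 := hSAW (Real.pi - x) (abs_le.2 ⟨by linarith, by linarith⟩)
  have s := s1.add s2
  rw [abs_of_nonneg h0, abs_of_nonneg (by linarith : 0 ≤ Real.pi - x), Real.sin_pi_sub,
    Real.cos_pi_sub] at s
  have e1 : (1 + Real.cos x / 2 - (Real.pi - x) * Real.sin x) +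
      (1 + -Real.cos x / 2 - (Real.pi - (Real.pi - x)) * Real.sin x) = 2 - Real.pi * |Real.sin x| := by
    rw [abs_of_nonneg (Real.sin_nonneg_of_nonneg_of_le_pi h0 h1)]
    ring
  rw [e1] at s
  have hinj : Function.Injective (fun k : ℕ => 2 * k) := by
    intro a b hab; simp only at hab; omega
  have key : ∀ n : ℕ, Real.cos (((n : ℝ) + 2) * (Real.pi - x)) =
      (-1) ^ n * Real.cos (((n : ℝ) + 2) * x) := by
    intro n
    have e : ((n : ℝ) + 2) * (Real.pi - x) = (((n + 2 : ℕ) : ℝ)) * Real.pi - ((n : ℝ) + 2) * x := by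
      push_cast; ring
    rw [e, Real.cos_nat_mul_pi_sub]
    rw [pow_add]
    norm_num
  have hsup : ∀ n, n ∉ Set.range (fun k : ℕ => 2 * k) →
      2 * Real.cos (((n : ℝ) + 2) * x) / (((n : ℝ) + 2) ^ 2 - 1) +
      2 * Real.cos (((n : ℝ) + 2) * (Real.pi - x)) / (((n : ℝ) + 2) ^ 2 - 1) = 0 := by
    intro n hn
    have : Odd n := by
      rw [← Nat.not_even_iff_odd]
      rintro ⟨k, hk⟩
      exact hn ⟨k, by simp only; omega⟩
    rw [key, this.neg_one_pow]
    ring
  have s3 := (hinj.hasSum_iff hsup).2 s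
  have e2 : ((fun n : ℕ => 2 * Real.cos (((n : ℝ) + 2) * x) / (((n : ℝ) + 2) ^ 2 - 1) +
      2 * Real.cos (((n : ℝ) + 2) * (Real.pi - x)) / (((n : ℝ) + 2) ^ 2 - 1)) ∘ fun k : ℕ => 2 * k) =
      fun k : ℕ => ck k * Real.cos (lk k * x) := by
    funext k
    simp only [Function.comp]
    rw [key, Even.neg_one_pow ⟨k, by ring⟩]
    unfold ck lk
    push_cast
    ring
  rw [e2] at s3
  exact s3

theorem abs_sin_series (x : ℝ) :
    HasSum (fun k : ℕ => ck k * Real.cos (lk k * x)) (2 - Real.pi * |Real.sin x|) := by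
  have hp := Real.pi_pos
  -- reduce modulo `π`
  set n : ℤ := ⌊x / Real.pi⌋ with hn
  have h1 : (n : ℝ) * Real.pi ≤ x := by
    have := Int.floor_le (x / Real.pi)
    rw [← hn] at this
    rwa [le_div_iff₀ hp] at this
  have h2 : x < ((n : ℝ) + 1) * Real.pi := by
    have := Int.lt_floor_add_one (x / Real.pi)
    rw [← hn] at this
    rwa [div_lt_iff₀ hp] at this
  have h := abs_sin_series_aux (x - n * Real.pi) (by linarith) (by linarith)
  have e1 : |Real.sin (x - n * Real.pi)| = |Real.sin x| := by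
    rw [Real.sin_sub_int_mul_pi]
    rcases Int.even_or_odd n with hh | hh
    · rw [hh.neg_one_zpow, one_mul]
    · rw [hh.neg_one_zpow]; simp
  have e2 : ∀ k : ℕ, Real.cos (lk k * (x - n * Real.pi)) = Real.cos (lk k * x) := by
    intro k
    have e : lk k * (x - n * Real.pi) = lk k * x - (((k : ℤ) + 1) * n : ℤ) * (2 * Real.pi) := by
      unfold lk; push_cast; ring
    rw [e, Real.cos_sub_int_mul_two_pi]
  simp_rw [e2, e1] at h
  exact h

/-- the kernel `cos x · sign (sin x)` -/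
noncomputable def Kx (x : ℝ) : ℝ := Real.cos x * sn x

/-- its partial sums -/
noncomputable def KN (N : ℕ) (x : ℝ) : ℝ :=
  1 / Real.pi * ∑ k ∈ Finset.range N, ck k * lk k * Real.sin (lk k * x)

theorem Kx_abs (x : ℝ) : |Kx x| ≤ 1 := by
  unfold Kx
  rw [abs_mul]
  exact mul_le_one₀ (Real.abs_cos_le_one x) (abs_nonneg _) (sn_abs x)

theorem Kx_meas : Measurable Kx := Real.measurable_cos.mul sn_meas

theorem Kx_per (x : ℝ) : Kx (x + 2 * Real.pi) = Kx x := by
  unfold Kx; rw [Real.cos_add_two_pi, sn_per]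

theorem KN_meas (N : ℕ) : Measurable (KN N) := by
  unfold KN
  refine measurable_const.mul (Finset.measurable_sum _ fun k _ => ?_)
  exact measurable_const.mul (Real.measurable_sin.comp (measurable_const.mul measurable_id))

theorem KN_per (N : ℕ) (x : ℝ) : KN N (x + 2 * Real.pi) = KN N x := by
  unfold KN
  congr 1
  refine Finset.sum_congr rfl fun k _ => ?_
  congr 1
  have e : lk k * (x + 2 * Real.pi) = lk k * x + ((2 * k + 2 : ℕ) : ℝ) * (2 * Real.pi) := by
    unfold lk; push_cast; ring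
  rw [e, Real.sin_add_nat_mul_two_pi]

theorem KN_bd (N : ℕ) : ∃ C : ℝ, ∀ x, |KN N x| ≤ C := by
  refine ⟨|1 / Real.pi| * ∑ k ∈ Finset.range N, |ck k * lk k|, fun x => ?_⟩
  unfold KN
  rw [abs_mul]
  refine mul_le_mul_of_nonneg_left ?_ (abs_nonneg _)
  refine (Finset.abs_sum_le_sum_abs _ _).trans (Finset.sum_le_sum fun k _ => ?_)
  rw [abs_mul]
  exact mul_le_of_le_one_right (abs_nonneg _) (Real.abs_sin_le_one _)

/-- coefficients of the kernel -/
theorem fc_Kx (n : ℤ) : fc (fun x => ((Kx x : ℝ) : ℂ)) n =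
    if Even n then -(Complex.I / Real.pi) * (2 * n / ((n : ℂ) ^ 2 - 1)) else 0 := by
  have hpi := Real.pi_pos
  have hpc : (Real.pi : ℂ) ≠ 0 := by exact_mod_cast hpi.ne'
  have e : (fun x => ((Kx x : ℝ) : ℂ)) = fun x =>
      (1 / 2 : ℂ) * (ee (((1 : ℤ) : ℝ) * x) * ((sn x : ℝ) : ℂ)) +
      (1 / 2 : ℂ) * (ee (((-1 : ℤ) : ℝ) * x) * ((sn x : ℝ) : ℂ)) := by
    funext x
    unfold Kx
    have e1 : ee (((1 : ℤ) : ℝ) * x) = ee x := by congr 1; push_cast; ring
    have e2 : ee (((-1 : ℤ) : ℝ) * x) = ee (-x) := by congr 1; push_cast; ring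
    rw [e1, e2, ee_neg, ee_eq]
    simp only [map_add, map_mul, Complex.conj_ofReal, Complex.conj_I]
    push_cast
    ring
  rw [e, fc_add ((sn_BM.em 1).cmul _) ((sn_BM.em (-1)).cmul _), fc_cmul, fc_cmul,
    Helper87.RC.fc_ee, Helper87.RC.fc_ee]
  by_cases hn : Even n
  · rw [if_pos hn]
    have h1 : Odd (n - 1) := hn.sub_odd odd_one
    have h2 : Odd (n - -1) := by rw [sub_neg_eq_add]; exact hn.add_odd odd_one
    rw [fc_sn h1, fc_sn h2]
    have c1 : ((n : ℂ) - 1) ≠ 0 := by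
      have : (n - 1 : ℤ) ≠ 0 := by intro h; rw [h] at h1; exact absurd h1 (by decide)
      exact_mod_cast this
    have c2 : ((n : ℂ) + 1) ≠ 0 := by
      have : (n - -1 : ℤ) ≠ 0 := by intro h; rw [h] at h2; exact absurd h2 (by decide)
      rw [sub_neg_eq_add] at this
      exact_mod_cast this
    have c3 : (n : ℂ) ^ 2 - 1 ≠ 0 := by
      have : (n : ℂ) ^ 2 - 1 = ((n : ℂ) - 1) * ((n : ℂ) + 1) := by ring
      rw [this]; exact mul_ne_zero c1 c2
    push_cast
    rw [sub_neg_eq_add]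
    field_simp
    ring
  · rw [if_neg hn]
    have ho : Odd n := Int.not_even_iff_odd.1 hn
    have h3 : ∀ m : ℤ, Even m → fc (fun x => ((sn x : ℝ) : ℂ)) m = 0 := fun m hm =>
      Helper87.RC.fc_anti sn_BM (fun t => by rw [sn_pi]; push_cast; ring) hm
    rw [h3 _ (ho.sub_odd odd_one), h3 _ (by rw [sub_neg_eq_add]; exact ho.add_odd odd_one)]
    ring

/-- coefficients of the partial sums -/
theorem fc_KN (N : ℕ) (n : ℤ) : fc (fun x => ((KN N x : ℝ) : ℂ)) n =
    if Even n ∧ n.natAbs ≤ 2 * N then -(Complex.I / Real.pi) * (2 * n / ((n : ℂ) ^ 2 - 1)) else 0 := by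
  have hpi := Real.pi_pos
  have hpc : (Real.pi : ℂ) ≠ 0 := by exact_mod_cast hpi.ne'
  induction N with
  | zero =>
    have e : (fun x => ((KN 0 x : ℝ) : ℂ)) = fun _ => (0 : ℂ) := by
      funext x; unfold KN; simp
    rw [e, fc_eq]
    simp only [zero_mul, intervalIntegral.integral_zero, mul_zero]
    by_cases h : Even n ∧ n.natAbs ≤ 0
    · rw [if_pos h]
      have : n = 0 := by omega
      subst this
      simp
    · rw [if_neg h]
  | succ N ih =>
    have hc : (ck N : ℂ) * (lk N : ℂ) = 4 * (lk N : ℂ) / ((lk N : ℂ) ^ 2 - 1) := by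
      unfold ck; push_cast; ring
    have hl : (lk N : ℂ) = ((2 * (N : ℤ) + 2 : ℤ) : ℂ) := by unfold lk; push_cast; ring
    have e : (fun x => ((KN (N + 1) x : ℝ) : ℂ)) = fun x => ((KN N x : ℝ) : ℂ) +
        ((-(Complex.I / (2 * Real.pi)) * (ck N * lk N)) * ee (((2 * (N : ℤ) + 2 : ℤ) : ℝ) * x) +
        ((Complex.I / (2 * Real.pi)) * (ck N * lk N)) * ee (((-(2 * (N : ℤ) + 2) : ℤ) : ℝ) * x)) := by
      funext x
      unfold KN
      rw [Finset.sum_range_succ]
      have e1 : ee (((2 * (N : ℤ) + 2 : ℤ) : ℝ) * x) = ee (lk N * x) := by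
        congr 1; unfold lk; push_cast; ring
      have e2 : ee (((-(2 * (N : ℤ) + 2) : ℤ) : ℝ) * x) = ee (-(lk N * x)) := by
        congr 1; unfold lk; push_cast; ring
      rw [e1, e2, ee_neg, ee_eq]
      simp only [map_add, map_mul, Complex.conj_ofReal, Complex.conj_I]
      push_cast
      ring_nf
      rw [Complex.I_sq]
      ring
    have hKb : ∃ C, BM (fun x => ((KN N x : ℝ) : ℂ)) C := by
      obtain ⟨C, hC⟩ := KN_bd N
      exact ⟨C, Complex.measurable_ofReal.comp (KN_meas N), fun x => by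
        rw [Complex.norm_real, Real.norm_eq_abs]; exact hC x⟩
    obtain ⟨C, hC⟩ := hKb
    rw [e, fc_add hC ((bm_ek _ _).add (bm_ek _ _)), ih, fc_add (bm_ek _ _) (bm_ek _ _), fc_cmul, fc_cmul,
      fc_eek, fc_eek]
    by_cases h1 : n = 2 * (N : ℤ) + 2
    · have h2 : n ≠ -(2 * (N : ℤ) + 2) := by omega
      rw [if_pos h1, if_neg h2, if_neg (by omega), if_pos ⟨⟨(N : ℤ) + 1, by omega⟩, by omega⟩, h1, ← hl]
      linear_combination (-(Complex.I / (2 * Real.pi))) * hc
    · by_cases h2 : n = -(2 * (N : ℤ) + 2)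
      · rw [if_neg h1, if_pos h2, if_neg (by omega), if_pos ⟨⟨-((N : ℤ) + 1), by omega⟩, by omega⟩, h2]
        have h3 : ((-(2 * (N : ℤ) + 2) : ℤ) : ℂ) = -(lk N : ℂ) := by rw [hl]; push_cast; ring
        rw [h3]
        linear_combination (Complex.I / (2 * Real.pi)) * hc
      · rw [if_neg h1, if_neg h2]
        have h4 : (Even n ∧ n.natAbs ≤ 2 * (N + 1)) ↔ (Even n ∧ n.natAbs ≤ 2 * N) := by
          constructor
          · rintro ⟨⟨m, hm⟩, hb⟩
            exact ⟨⟨m, hm⟩, by omega⟩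
          · rintro ⟨hm, hb⟩
            exact ⟨hm, by omega⟩
        by_cases h5 : Even n ∧ n.natAbs ≤ 2 * N
        · rw [if_pos h5, if_pos (h4.2 h5)]; ring
        · rw [if_neg h5, if_neg (fun h => h5 (h4.1 h))]; ring

end Pool.Agent.Helper20.RC
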